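import Pool.Agent.Work.MP_2c6138_pr.Bd.B04

/-! `NearGeoBound` from the crossing estimates. (helper2, MP_2c6138_pr) -/

set_option autoImplicit false

namespace Pool.Agent.MP2c

open MeasureTheory Finset Filter Topology
open scoped ENNReal


theorem ev_small (e' : ℝ) (he1 : e' < 1 / 3) (A B : ℝ) (hB : 0 < B) :
    ∀ᶠ D : ℝ in atTop, A * D ^ (-(1 / 3 : ℝ) + e') ≤ B := by
  have h1 : Tendsto (fun D : ℝ => A * D ^ (-(1 / 3 : ℝ) + e')) atTop (𝓝 (A * 0)) := by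
    have := tendsto_rpow_neg_atTop (y := 1 / 3 - e') (by linarith)
    have h2 : -(1 / 3 - e') = (-(1 / 3 : ℝ) + e') := by ring
    rw [h2] at this
    exact this.const_mul A
  rw [mul_zero] at h1
  exact (h1.eventually (ge_mem_nhds hB))

theorem ev_cube (e' : ℝ) (he0 : 0 < e') (κ A : ℝ) (hκ : 0 < κ) :
    ∀ᶠ D : ℝ in atTop, A + D ^ e' ≤ κ * D ^ (3 * e') := by
  have h1 : Tendsto (fun D : ℝ => D ^ e') atTop atTop := tendsto_rpow_atTop he0
  have h2 : ∀ᶠ t : ℝ in atTop, A + t ≤ κ * t ^ 3 := by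
    filter_upwards [eventually_ge_atTop (1 : ℝ), eventually_ge_atTop (2 / κ), eventually_ge_atTop A]
      with t ht1 ht2 ht3
    have h3 : 2 ≤ κ * t := by
      rw [div_le_iff₀ hκ] at ht2; linarith
    have h4 : t ≤ t ^ 2 := by nlinarith
    have h5 : 2 * t ^ 2 ≤ κ * t * t ^ 2 := by nlinarith [sq_nonneg t]
    nlinarith
  filter_upwards [h1.eventually h2, eventually_gt_atTop (0 : ℝ)] with D hD hD0
  have e : D ^ (3 * e') = (D ^ e') ^ 3 := by
    rw [← Real.rpow_natCast, ← Real.rpow_mul hD0.le]; congr 1; push_cast; ring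
  rw [e]; exact hD

theorem ev_exp (e' : ℝ) (he0 : 0 < e') (κ : ℝ) (hκ : 0 < κ) :
    ∀ᶠ D : ℝ in atTop, 6 * D * Real.exp (-(κ * D ^ (3 * e'))) ≤ Real.exp (-(D ^ e')) := by
  have h1 := isLittleO_log_rpow_atTop (r := e') he0
  have h2 : ∀ᶠ D : ℝ in atTop, Real.log D ≤ D ^ e' := by
    have := h1.bound (c := 1) one_pos
    filter_upwards [this, eventually_gt_atTop (1 : ℝ)] with D hD hD1
    rw [one_mul, Real.norm_eq_abs, Real.norm_eq_abs] at hD
    exact le_trans (le_abs_self _) (le_trans hD (le_of_eq (abs_of_nonneg (by positivity))))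
  filter_upwards [h2, ev_cube e' he0 (κ / 2) (Real.log 6) (by positivity),
    eventually_gt_atTop (0 : ℝ)] with D hD1 hD2 hD0
  have e : 6 * D = Real.exp (Real.log 6 + Real.log D) := by
    rw [Real.exp_add, Real.exp_log (by norm_num), Real.exp_log hD0]
  rw [e, ← Real.exp_add]
  apply Real.exp_le_exp.mpr
  have hl6 : 0 ≤ Real.log 6 := Real.log_nonneg (by norm_num)
  linarith

theorem ev_large (e' : ℝ) (he0 : 0 < e') (A : ℝ) : ∀ᶠ D : ℝ in atTop, A ≤ D ^ (2 * e') :=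
  (tendsto_rpow_atTop (by positivity)).eventually_ge_atTop A

theorem ev_quarter : ∀ᶠ D : ℝ in atTop, D ^ (1 / 4 : ℝ) + 1 ≤ D ^ (1 / 3 : ℝ) := by
  have h1 := (tendsto_rpow_atTop (y := 1 / 12) (by norm_num)).eventually_ge_atTop 2
  filter_upwards [h1, eventually_ge_atTop (1 : ℝ)] with D hD hD1
  have e : D ^ (1 / 3 : ℝ) = D ^ (1 / 4 : ℝ) * D ^ (1 / 12 : ℝ) := by
    rw [← Real.rpow_add (by linarith)]; norm_num
  have h2 : 1 ≤ D ^ (1 / 4 : ℝ) := Real.one_le_rpow hD1 (by norm_num)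
  rw [e]
  nlinarith

section parts
variable {n : ℕ}

theorem near_part (q : ℝ) (hn : NearCross q) (e' : ℝ) (he0 : 0 < e') (he1 : e' ≤ 1 / 20) :
    ∃ C1 : ℝ, 0 < C1 ∧ ∃ d0 : ℕ, 1 ≤ d0 ∧ ∀ (n : ℕ) (v : Fin n × Fin n), d0 ≤ dd v →
      |(v.1.1 : ℝ) - (v.2.1 : ℝ)| ≤ (dd v : ℝ) ^ (2 / 3 + e' : ℝ) → ∀ y : ℕ,
      (Measure.pi (fun _ : Fin n × Fin n => geo q)) {x | NG y v x} ≤
        ENNReal.ofReal (C1 * ((y : ℝ) + 1) ^ 2 * (dd v : ℝ) ^ (-(2 / 3 : ℝ) + 2 * e') +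
          Real.exp (-(dd v : ℝ) ^ e')) := by
  obtain ⟨C, c, c2, h0, hC, hc, hc2, hh0, hcross⟩ := hn
  set C' : ℝ := 12 / c2 with hC'
  have hC'0 : 0 < C' := by positivity
  have hev := ((ev_small e' (by linarith) C' h0 hh0).and
    (ev_small e' (by linarith) 1 (1 / 3) (by norm_num))).and
    ((ev_cube e' he0 (c * C' ^ 3 / 4) (Real.log (2 * C)) (by positivity)).and
      (eventually_ge_atTop (12 : ℝ)))
  obtain ⟨D0, hD0⟩ := eventually_atTop.mp hev
  refine ⟨2 * C * C' ^ 2, by positivity, max 1 ⌈D0⌉₊, le_max_left _ _, ?_⟩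
  intro n v hd hnear y
  set D : ℝ := (dd v : ℝ) with hDdef
  obtain ⟨⟨hF1, hF2⟩, hF3, hD12⟩ := hD0 D (by
    have := le_trans (le_max_right _ _) hd
    exact le_trans (Nat.le_ceil D0) (Nat.cast_le.mpr this))
  have hDpos : 0 < D := by linarith
  set h : ℝ := C' * D ^ (-(1 / 3 : ℝ) + e') with hh
  have hhpos : 0 < h := by positivity
  set N : ℕ := dd v / 3 with hN
  have hN1 : (N : ℝ) ≤ D / 3 := by
    rw [hN, hDdef]; exact_mod_cast Nat.cast_div_le (α := ℝ) (m := dd v) (n := 3)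
  have hN2 : D / 4 ≤ (N : ℝ) := by
    have h1 : (dd v : ℝ) < 3 * ((N : ℝ) + 1) := by
      have : dd v < 3 * (N + 1) := by omega
      exact_mod_cast this
    rw [← hDdef] at h1
    linarith
  -- powers
  have hp1 : D ^ (2 / 3 + e' : ℝ) = D ^ (-(1 / 3 : ℝ) + e') * D := by
    rw [← Real.rpow_add_one hDpos.ne']; congr 1; ring
  have hp2 : D ^ (2 / 3 + e' : ℝ) ≤ D / 3 := by
    rw [hp1]
    rw [one_mul] at hF2
    nlinarith
  have hp3 : 1 ≤ D ^ (2 / 3 + e' : ℝ) := Real.one_le_rpow (by linarith) (by linarith)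
  have hkey : D ^ (2 / 3 + e' : ℝ) + 2 ≤ c2 * h * N := by
    have h1 : c2 * h * (D / 4) ≤ c2 * h * N :=
      mul_le_mul_of_nonneg_left hN2 (by positivity)
    have h2 : c2 * h * (D / 4) = 3 * D ^ (2 / 3 + e' : ℝ) := by
      rw [hp1, hh, hC']; field_simp; ring
    linarith
  -- geometric facts
  have hv1 := v.1.2
  have hv2 := v.2.2
  have hdd1 : dd v ≤ v.1.1 + v.2.1 := min_le_left _ _
  have hdd2 : dd v ≤ 2 * (n - 1) - (v.1.1 + v.2.1) := min_le_right _ _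
  have hdd1' : D ≤ (v.1.1 : ℝ) + v.2.1 := by rw [hDdef]; exact_mod_cast hdd1
  have hdd2' : D + (v.1.1 : ℝ) + v.2.1 + 2 ≤ 2 * n := by
    have : dd v + v.1.1 + v.2.1 + 2 ≤ 2 * n := by omega
    rw [hDdef]; exact_mod_cast this
  have habs := abs_le.mp (le_trans hnear hp2)
  have hNv1 : N ≤ v.1.1 := by
    have : (N : ℝ) ≤ v.1.1 := by linarith
    exact_mod_cast this
  have hNv2 : N ≤ v.2.1 := by
    have : (N : ℝ) ≤ v.2.1 := by linarith
    exact_mod_cast this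
  have hNn1 : N ≤ n - v.1.1 := by
    have : (N : ℝ) + v.1.1 ≤ n := by linarith
    have : N + v.1.1 ≤ n := by exact_mod_cast this
    omega
  have hNn2 : N ≤ n - v.2.1 := by
    have : (N : ℝ) + v.2.1 ≤ n := by linarith
    have : N + v.2.1 ≤ n := by exact_mod_cast this
    omega
  have hb1 := hcross h hhpos hF1 n N v.1.1 v.2.1 y hv2 hNv1 hNn1 (by
    rw [abs_sub_comm]; linarith)
  have hb2 := hcross h hhpos hF1 n N v.2.1 v.1.1 y hv1 hNv2 hNn2 (by linarith)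
  set BB : ℝ := C * ((y : ℝ) + 1) ^ 2 * h ^ 2 + C * Real.exp (-(c * h ^ 3 * N)) with hBB
  have hBB0 : 0 ≤ BB := by positivity
  have hle : (Measure.pi (fun _ : Fin n × Fin n => geo q)) {x | NG y v x} ≤
      ENNReal.ofReal (BB + BB) := by
    rw [ENNReal.ofReal_add hBB0 hBB0]
    calc (Measure.pi (fun _ : Fin n × Fin n => geo q)) {x | NG y v x}
        ≤ (Measure.pi (fun _ : Fin n × Fin n => geo q))
          ({x | crossE y v.2.1 v.1.1 x} ∪ {x | crossE y v.1.1 v.2.1 (fun p => x p.swap)}) :=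
            measure_mono (fun x hx => NG_cross hx)
      _ ≤ _ := measure_union_le _ _
      _ ≤ _ := add_le_add hb1 (by rw [pi_crossE_swap]; exact hb2)
  refine hle.trans (ENNReal.ofReal_le_ofReal ?_)
  have hh2 : h ^ 2 = C' ^ 2 * D ^ (-(2 / 3 : ℝ) + 2 * e') := by
    rw [hh, mul_pow]
    congr 1
    rw [← Real.rpow_natCast, ← Real.rpow_mul hDpos.le]; congr 1; push_cast; ring
  have hh3 : c * C' ^ 3 / 4 * D ^ (3 * e') ≤ c * h ^ 3 * N := by
    have h1 : c * h ^ 3 * (D / 4) ≤ c * h ^ 3 * N :=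
      mul_le_mul_of_nonneg_left hN2 (by positivity)
    have h2 : h ^ 3 * D = C' ^ 3 * D ^ (3 * e') := by
      rw [hh, mul_pow, mul_assoc]
      congr 1
      rw [← Real.rpow_natCast, ← Real.rpow_mul hDpos.le, ← Real.rpow_add_one hDpos.ne']
      congr 1; push_cast; ring
    calc c * C' ^ 3 / 4 * D ^ (3 * e') = c / 4 * (C' ^ 3 * D ^ (3 * e')) := by ring
      _ = c * h ^ 3 * (D / 4) := by rw [← h2]; ring
      _ ≤ _ := h1
  have hexp : 2 * C * Real.exp (-(c * h ^ 3 * N)) ≤ Real.exp (-(D ^ e')) := by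
    have e : 2 * C = Real.exp (Real.log (2 * C)) := (Real.exp_log (by positivity)).symm
    rw [e, ← Real.exp_add]
    apply Real.exp_le_exp.mpr
    linarith
  have : BB + BB = 2 * C * C' ^ 2 * ((y : ℝ) + 1) ^ 2 * D ^ (-(2 / 3 : ℝ) + 2 * e') +
      2 * C * Real.exp (-(c * h ^ 3 * N)) := by
    rw [hBB, hh2]; ring
  rw [this]
  linarith

theorem far_aux (q : ℝ) (hf : FarCross q) (e' : ℝ) (he0 : 0 < e') :
    ∃ d0 : ℕ, 1 ≤ d0 ∧ ∀ (n : ℕ) (v : Fin n × Fin n), d0 ≤ dd v →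
      v.2.1 < v.1.1 → v.1.1 + v.2.1 ≤ n - 1 →
      (dd v : ℝ) ^ (2 / 3 + e' : ℝ) ≤ (v.1.1 : ℝ) - (v.2.1 : ℝ) → ∀ y : ℕ,
      (y : ℝ) + 1 ≤ (dd v : ℝ) ^ (1 / 3 : ℝ) →
      (Measure.pi (fun _ : Fin n × Fin n => geo q)) {x | NG y v x} ≤
        ENNReal.ofReal (Real.exp (-(dd v : ℝ) ^ e')) := by
  obtain ⟨c, C2, h0, hc, hC2, hh0, hcross⟩ := hf
  set η : ℝ := min h0 (1 / (8 * C2)) with hη
  have hη0 : 0 < η := by rw [hη]; positivity
  have hη1 : η ≤ h0 := min_le_left _ _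
  have hη2 : C2 * η ≤ 1 / 8 := by
    have : η ≤ 1 / (8 * C2) := min_le_right _ _
    calc C2 * η ≤ C2 * (1 / (8 * C2)) := mul_le_mul_of_nonneg_left this hC2.le
      _ = 1 / 8 := by field_simp
  set κ : ℝ := min (c * η ^ 2 / 16) (c * η ^ 3 / 3) with hκ
  have hκ0 : 0 < κ := by rw [hκ]; positivity
  have hev := ((ev_exp e' he0 κ hκ0).and (ev_large e' he0 (16 / (c * η)))).and
    ((tendsto_rpow_atTop (y := 2 / 3 + e') (by linarith)).eventually_ge_atTop 24 |>.and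
      (eventually_ge_atTop (12 : ℝ)))
  obtain ⟨D0, hD0⟩ := eventually_atTop.mp hev
  refine ⟨max 1 ⌈D0⌉₊, le_max_left _ _, ?_⟩
  intro n v hd hlt hsum hfar y hy
  set D : ℝ := (dd v : ℝ) with hDdef
  obtain ⟨⟨hF1, hF2⟩, hF3, hD12⟩ := hD0 D (by
    have := le_trans (le_max_right _ _) hd
    exact le_trans (Nat.le_ceil D0) (Nat.cast_le.mpr this))
  have hDpos : 0 < D := by linarith
  have hv1 := v.1.2
  have hv2 := v.2.2
  have hddeq : dd v = v.1.1 + v.2.1 := by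
    rw [dd]; apply min_eq_left; omega
  set r := v.1.1 with hr
  set cc := v.2.1 with hcc
  set Δ' : ℕ := r - cc with hΔ'
  set Δ : ℝ := (r : ℝ) - (cc : ℝ) with hΔ
  have hΔΔ : (Δ' : ℝ) = Δ := by rw [hΔ', hΔ, Nat.cast_sub hlt.le]
  have hDeq : D = (r : ℝ) + cc := by rw [hDdef, hddeq]; push_cast; ring
  have hΔ24 : 24 ≤ Δ := le_trans hF3 hfar
  have hΔ24' : 24 ≤ Δ' := by
    have : (24 : ℝ) ≤ Δ' := by rw [hΔΔ]; exact hΔ24
    exact_mod_cast this
  have hcc0 : (0 : ℝ) ≤ cc := Nat.cast_nonneg _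
  have hΔD : Δ ≤ D := by rw [hΔ, hDeq]; linarith
  have hΔpos : 0 < Δ := by linarith
  set r' : ℕ := cc + (Δ' + 1) / 2 with hr'
  set K : ℕ := Δ' / 4 - 2 with hK
  set N : ℕ := dd v / 2 with hN
  set h : ℝ := η * Δ / D with hh
  have hhpos : 0 < h := by positivity
  have hh1 : h ≤ h0 := by
    refine le_trans ?_ hη1
    rw [hh, div_le_iff₀ hDpos]
    nlinarith
  have hr'r : r' ≤ r := by omega
  have hNr' : N ≤ r' := by omega
  have hNnr' : N ≤ n - r' := by omega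
  have hK1 : (K : ℝ) + 1 ≤ Δ / 4 - 1 := by
    have : 4 * (K + 2) ≤ Δ' := by omega
    have : (4 : ℝ) * (K + 2) ≤ Δ' := by exact_mod_cast this
    rw [hΔΔ] at this
    linarith
  have hK2 : Δ / 8 ≤ (K : ℝ) := by
    have : Δ' ≤ 8 * K := by omega
    have : (Δ' : ℝ) ≤ 8 * K := by exact_mod_cast this
    rw [hΔΔ] at this
    linarith
  have hN2 : D / 3 ≤ (N : ℝ) := by
    have : dd v < 2 * (N + 1) := by omega
    have : (dd v : ℝ) < 2 * (N + 1) := by exact_mod_cast this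
    rw [← hDdef] at this
    linarith
  have hcol : ∀ c0 ≤ cc, (c0 : ℝ) + 1 + K ≤ r' * (1 - C2 * h) := by
    intro c0 hc0
    have hc0' : (c0 : ℝ) ≤ cc := by exact_mod_cast hc0
    have h1 : (r' : ℝ) * (C2 * h) ≤ Δ / 8 := by
      have h2 : (r' : ℝ) ≤ D := by
        have : (r' : ℝ) ≤ r := by exact_mod_cast hr'r
        rw [hDeq]; linarith
      calc (r' : ℝ) * (C2 * h) ≤ D * (C2 * h) := mul_le_mul_of_nonneg_right h2 (by positivity)
        _ = C2 * η * Δ := by rw [hh]; field_simp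
        _ ≤ 1 / 8 * Δ := mul_le_mul_of_nonneg_right hη2 hΔpos.le
        _ = Δ / 8 := by ring
    have h3 : (cc : ℝ) + Δ / 2 ≤ r' := by
      have : 2 * cc + Δ' ≤ 2 * r' := by omega
      have : (2 : ℝ) * cc + Δ' ≤ 2 * r' := by exact_mod_cast this
      rw [hΔΔ] at this
      linarith
    have h4 : (r' : ℝ) * (1 - C2 * h) = r' - r' * (C2 * h) := by ring
    rw [h4]
    linarith
  set BB : ℝ := Real.exp (h * y - c * h ^ 2 * K) + 2 * Real.exp (-(c * h ^ 3 * N)) with hBB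
  have hBB0 : 0 ≤ BB := by positivity
  have hle : (Measure.pi (fun _ : Fin n × Fin n => geo q)) {x | NG y v x} ≤
      ENNReal.ofReal (((cc : ℝ) + 1) * BB) := by
    calc (Measure.pi (fun _ : Fin n × Fin n => geo q)) {x | NG y v x}
        ≤ (Measure.pi (fun _ : Fin n × Fin n => geo q))
          (⋃ c0 ∈ range (cc + 1), {x | crossE y c0 r' x}) := by
            apply measure_mono
            intro x hx
            obtain ⟨c0, hc0, hx0⟩ := NG_col hx r' hr'r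
            rw [Set.mem_iUnion₂]
            exact ⟨c0, mem_range.mpr (Nat.lt_succ_of_le hc0), hx0⟩
      _ ≤ ∑ c0 ∈ range (cc + 1), (Measure.pi (fun _ : Fin n × Fin n => geo q))
            {x | crossE y c0 r' x} := measure_biUnion_finset_le _ _
      _ ≤ ∑ c0 ∈ range (cc + 1), ENNReal.ofReal BB := by
            apply Finset.sum_le_sum
            intro c0 hc0
            rw [mem_range] at hc0
            exact hcross h hhpos hh1 n N K r' c0 y (by omega) hNr' hNnr' (hcol c0 (by omega))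
      _ = ENNReal.ofReal (((cc : ℝ) + 1) * BB) := by
            rw [sum_const, card_range, nsmul_eq_mul, ENNReal.ofReal_mul (by positivity)]
            congr 1
            rw [← ENNReal.ofReal_natCast]; push_cast; rfl
  refine hle.trans (ENNReal.ofReal_le_ofReal ?_)
  have hDe : (0 : ℝ) < D ^ e' := by positivity
  -- key powers
  have hp3 : D ^ (3 * e') * D ^ 2 ≤ Δ ^ 3 := by
    have h1 : (D ^ (2 / 3 + e' : ℝ)) ^ 3 ≤ Δ ^ 3 := pow_le_pow_left₀ (by positivity) hfar 3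
    have h2 : (D ^ (2 / 3 + e' : ℝ)) ^ 3 = D ^ (3 * e') * D ^ 2 := by
      rw [← Real.rpow_natCast, ← Real.rpow_mul hDpos.le, ← Real.rpow_natCast D 2,
        ← Real.rpow_add hDpos]
      congr 1; push_cast; ring
    linarith
  have hp2 : D ^ (2 * e') * D ^ (4 / 3 : ℝ) ≤ Δ ^ 2 := by
    have h1 : (D ^ (2 / 3 + e' : ℝ)) ^ 2 ≤ Δ ^ 2 := pow_le_pow_left₀ (by positivity) hfar 2
    have h2 : (D ^ (2 / 3 + e' : ℝ)) ^ 2 = D ^ (2 * e') * D ^ (4 / 3 : ℝ) := by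
      rw [← Real.rpow_natCast, ← Real.rpow_mul hDpos.le, ← Real.rpow_add hDpos]
      congr 1; push_cast; ring
    linarith
  have hT : D ^ (3 * e') ≤ Δ ^ 3 / D ^ 2 := by
    rw [le_div_iff₀ (by positivity)]; exact hp3
  have hh2K : c * η ^ 2 / 8 * (Δ ^ 3 / D ^ 2) ≤ c * h ^ 2 * K := by
    calc c * η ^ 2 / 8 * (Δ ^ 3 / D ^ 2) = c * h ^ 2 * (Δ / 8) := by rw [hh]; field_simp
      _ ≤ _ := mul_le_mul_of_nonneg_left hK2 (by positivity)
  have hh3N : c * η ^ 3 / 3 * (Δ ^ 3 / D ^ 2) ≤ c * h ^ 3 * N := by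
    calc c * η ^ 3 / 3 * (Δ ^ 3 / D ^ 2) = c * h ^ 3 * (D / 3) := by rw [hh]; field_simp
      _ ≤ _ := mul_le_mul_of_nonneg_left hN2 (by positivity)
  have hhy : h * y ≤ c * η ^ 2 / 16 * (Δ ^ 3 / D ^ 2) := by
    have h1 : (y : ℝ) ≤ D ^ (1 / 3 : ℝ) := by linarith
    have h2 : h * y ≤ h * D ^ (1 / 3 : ℝ) := mul_le_mul_of_nonneg_left h1 hhpos.le
    refine h2.trans ?_
    have h3 : D ^ (4 / 3 : ℝ) ≤ c * η / 16 * Δ ^ 2 := by
      have h4 : 1 ≤ c * η / 16 * D ^ (2 * e') := by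
        rw [div_le_iff₀ (by positivity)] at hF2
        linarith
      calc D ^ (4 / 3 : ℝ) = 1 * D ^ (4 / 3 : ℝ) := by ring
        _ ≤ (c * η / 16 * D ^ (2 * e')) * D ^ (4 / 3 : ℝ) :=
            mul_le_mul_of_nonneg_right h4 (by positivity)
        _ = c * η / 16 * (D ^ (2 * e') * D ^ (4 / 3 : ℝ)) := by ring
        _ ≤ c * η / 16 * Δ ^ 2 := mul_le_mul_of_nonneg_left hp2 (by positivity)
    have h5 : D ^ (4 / 3 : ℝ) = D ^ (1 / 3 : ℝ) * D := by
      rw [← Real.rpow_add_one hDpos.ne']; norm_num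
    rw [h5] at h3
    calc h * D ^ (1 / 3 : ℝ) = η * Δ / D ^ 2 * (D ^ (1 / 3 : ℝ) * D) := by
          rw [hh]; field_simp
      _ ≤ η * Δ / D ^ 2 * (c * η / 16 * Δ ^ 2) := mul_le_mul_of_nonneg_left h3 (by positivity)
      _ = _ := by field_simp
  have hκ1 : κ ≤ c * η ^ 2 / 16 := min_le_left _ _
  have hκ2 : κ ≤ c * η ^ 3 / 3 := min_le_right _ _
  have hD3 : 0 < D ^ (3 * e') := by positivity
  have hE1 : h * y - c * h ^ 2 * K ≤ -(κ * D ^ (3 * e')) := by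
    have h1 : κ * D ^ (3 * e') ≤ c * η ^ 2 / 16 * (Δ ^ 3 / D ^ 2) :=
      mul_le_mul hκ1 hT hD3.le (by positivity)
    have h2 : c * η ^ 2 / 8 * (Δ ^ 3 / D ^ 2) = 2 * (c * η ^ 2 / 16 * (Δ ^ 3 / D ^ 2)) := by ring
    linarith
  have hE2 : -(c * h ^ 3 * N) ≤ -(κ * D ^ (3 * e')) := by
    have h1 : κ * D ^ (3 * e') ≤ c * η ^ 3 / 3 * (Δ ^ 3 / D ^ 2) :=
      mul_le_mul hκ2 hT hD3.le (by positivity)
    linarith
  have hBB2 : BB ≤ 3 * Real.exp (-(κ * D ^ (3 * e'))) := by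
    have h1 := Real.exp_le_exp.mpr hE1
    have h2 := Real.exp_le_exp.mpr hE2
    rw [hBB]; linarith
  have hcc1 : (cc : ℝ) + 1 ≤ 2 * D := by rw [hDeq] at hD12 ⊢; linarith [Nat.cast_nonneg (α := ℝ) r]
  calc ((cc : ℝ) + 1) * BB ≤ (2 * D) * (3 * Real.exp (-(κ * D ^ (3 * e')))) :=
        mul_le_mul hcc1 hBB2 hBB0 (by positivity)
    _ = 6 * D * Real.exp (-(κ * D ^ (3 * e'))) := by ring
    _ ≤ _ := hF1

theorem dd_swap (v : Fin n × Fin n) : dd v.swap = dd v := by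
  simp only [dd, Prod.fst_swap, Prod.snd_swap]
  rw [add_comm]

theorem dd_rv (v : Fin n × Fin n) : dd (rv v) = dd v := by
  have h1 := v.1.2
  have h2 := v.2.2
  simp only [dd, rv, Fin.val_rev]
  omega

theorem far_part (q : ℝ) (hf : FarCross q) (e' : ℝ) (he0 : 0 < e') :
    ∃ d0 : ℕ, 1 ≤ d0 ∧ ∀ (n : ℕ) (v : Fin n × Fin n), d0 ≤ dd v →
      (dd v : ℝ) ^ (2 / 3 + e' : ℝ) ≤ |(v.1.1 : ℝ) - (v.2.1 : ℝ)| → ∀ y : ℕ,
      (y : ℝ) + 1 ≤ (dd v : ℝ) ^ (1 / 3 : ℝ) →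
      (Measure.pi (fun _ : Fin n × Fin n => geo q)) {x | NG y v x} ≤
        ENNReal.ofReal (Real.exp (-(dd v : ℝ) ^ e')) := by
  obtain ⟨d0, hd0, H⟩ := far_aux q hf e' he0
  refine ⟨d0, hd0, ?_⟩
  -- first the case `v.1 + v.2 ≤ n - 1`
  have H1 : ∀ (n : ℕ) (v : Fin n × Fin n), d0 ≤ dd v → v.1.1 + v.2.1 ≤ n - 1 →
      (dd v : ℝ) ^ (2 / 3 + e' : ℝ) ≤ |(v.1.1 : ℝ) - (v.2.1 : ℝ)| → ∀ y : ℕ,
      (y : ℝ) + 1 ≤ (dd v : ℝ) ^ (1 / 3 : ℝ) →
      (Measure.pi (fun _ : Fin n × Fin n => geo q)) {x | NG y v x} ≤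
        ENNReal.ofReal (Real.exp (-(dd v : ℝ) ^ e')) := by
    intro n v hd hsum hfar y hy
    have hDpos : (0 : ℝ) < dd v := by exact_mod_cast (lt_of_lt_of_le hd0 hd)
    have hpos : (0 : ℝ) < (dd v : ℝ) ^ (2 / 3 + e' : ℝ) := by positivity
    rcases lt_trichotomy v.1.1 v.2.1 with hlt | heq | hgt
    · have h1 : |(v.1.1 : ℝ) - (v.2.1 : ℝ)| = (v.2.1 : ℝ) - v.1.1 := by
        rw [abs_sub_comm]; apply abs_of_pos
        have : (v.1.1 : ℝ) < v.2.1 := by exact_mod_cast hlt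
        linarith
      have h2 := H n v.swap (by rw [dd_swap]; exact hd) hlt
        (by simp only [Prod.fst_swap, Prod.snd_swap]; omega)
        (by rw [dd_swap]; simp only [Prod.fst_swap, Prod.snd_swap]; rw [← h1]; exact hfar) y
        (by rw [dd_swap]; exact hy)
      rw [dd_swap] at h2
      exact (NG_sym q sym_swap y v).trans h2
    · rw [heq, sub_self, abs_zero] at hfar
      linarith
    · have h1 : |(v.1.1 : ℝ) - (v.2.1 : ℝ)| = (v.1.1 : ℝ) - v.2.1 := by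
        apply abs_of_pos
        have : (v.2.1 : ℝ) < v.1.1 := by exact_mod_cast hgt
        linarith
      exact H n v hd hgt hsum (by rw [← h1]; exact hfar) y hy
  intro n v hd hfar y hy
  by_cases hsum : v.1.1 + v.2.1 ≤ n - 1
  · exact H1 n v hd hsum hfar y hy
  · have hv1 := v.1.2
    have hv2 := v.2.2
    have h2 := H1 n (rv v) (by rw [dd_rv]; exact hd)
      (by simp only [rv, Fin.val_rev]; omega)
      (by
        rw [dd_rv]
        have : |((rv v).1.1 : ℝ) - ((rv v).2.1 : ℝ)| = |(v.1.1 : ℝ) - (v.2.1 : ℝ)| := by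
          simp only [rv, Fin.val_rev]
          rw [Nat.cast_sub (by omega), Nat.cast_sub (by omega)]
          push_cast
          rw [← abs_neg]
          congr 1
          ring
        rw [this]; exact hfar) y (by rw [dd_rv]; exact hy)
    rw [dd_rv] at h2
    exact (NG_sym q sym_rv y v).trans h2

end parts

theorem nearGeoBound_of_cross (q : ℝ) (h0 : 0 < q) (h1 : q < 1) (hn : NearCross q)
    (hf : FarCross q) : NearGeoBound q := by
  intro ε hε
  set e' : ℝ := min ε (1 / 10) / 2 with he'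
  have he0 : 0 < e' := by rw [he']; positivity
  have he1 : e' ≤ 1 / 20 := by
    have := min_le_right ε (1 / 10)
    rw [he']; linarith
  have he2 : 2 * e' ≤ ε := by
    have := min_le_left ε (1 / 10)
    rw [he']; linarith
  obtain ⟨C1, hC1, d1, hd1, H1⟩ := near_part q hn e' he0 he1
  obtain ⟨d2, hd2, H2⟩ := far_part q hf e' he0
  obtain ⟨D3, hD3⟩ := eventually_atTop.mp ev_quarter
  refine ⟨max C1 1, e', by positivity, he0, max d1 (max d2 ⌈D3⌉₊),
    le_trans hd1 (le_max_left _ _), ?_⟩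
  intro n v hd
  have hda : d1 ≤ dd v := le_trans (le_max_left _ _) hd
  have hdb : d2 ≤ dd v := le_trans (le_trans (le_max_left _ _) (le_max_right _ _)) hd
  have hdc : D3 ≤ (dd v : ℝ) := le_trans (Nat.le_ceil D3) (by
    exact_mod_cast le_trans (le_trans (le_max_right _ _) (le_max_right _ _)) hd)
  have hD1 : (1 : ℝ) ≤ dd v := by exact_mod_cast le_trans hd1 hda
  have hDpos : (0 : ℝ) < dd v := by linarith
  set D : ℝ := (dd v : ℝ) with hD
  have hprob : ∀ _ : Fin n × Fin n, IsProbabilityMeasure (geo q) := fun _ =>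
    isProbabilityMeasure_geo q h0.le h1
  constructor
  · intro y
    rcases le_or_gt |(v.1.1 : ℝ) - (v.2.1 : ℝ)| (D ^ (2 / 3 + e' : ℝ)) with hnear | hfar
    · refine (H1 n v hda hnear y).trans (ENNReal.ofReal_le_ofReal ?_)
      have h2 : D ^ (-(2 / 3 : ℝ) + 2 * e') ≤ D ^ (-(2 / 3 : ℝ) + ε) :=
        Real.rpow_le_rpow_of_exponent_le hD1 (by linarith)
      have h3 : C1 * ((y : ℝ) + 1) ^ 2 * D ^ (-(2 / 3 : ℝ) + 2 * e') ≤
          max C1 1 * ((y : ℝ) + 1) ^ 2 * D ^ (-(2 / 3 : ℝ) + ε) := by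
        apply mul_le_mul _ h2 (by positivity) (by positivity)
        exact mul_le_mul_of_nonneg_right (le_max_left _ _) (by positivity)
      linarith
    · by_cases hy : (y : ℝ) + 1 ≤ D ^ (1 / 3 : ℝ)
      · refine (H2 n v hdb hfar.le y hy).trans (ENNReal.ofReal_le_ofReal ?_)
        have : 0 ≤ max C1 1 * ((y : ℝ) + 1) ^ 2 * D ^ (-(2 / 3 : ℝ) + ε) := by positivity
        linarith
      · push Not at hy
        have h2 : (1 : ℝ) ≤ max C1 1 * ((y : ℝ) + 1) ^ 2 * D ^ (-(2 / 3 : ℝ) + ε) := by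
          have h3 : D ^ (2 / 3 : ℝ) ≤ ((y : ℝ) + 1) ^ 2 := by
            have h4 : (D ^ (1 / 3 : ℝ)) ^ 2 ≤ ((y : ℝ) + 1) ^ 2 :=
              pow_le_pow_left₀ (by positivity) hy.le 2
            have h5 : (D ^ (1 / 3 : ℝ)) ^ 2 = D ^ (2 / 3 : ℝ) := by
              rw [← Real.rpow_natCast, ← Real.rpow_mul hDpos.le]; congr 1; push_cast; ring
            linarith
          have h6 : 1 ≤ D ^ (2 / 3 : ℝ) * D ^ (-(2 / 3 : ℝ) + ε) := by
            rw [← Real.rpow_add hDpos]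
            have : (2 / 3 : ℝ) + (-(2 / 3 : ℝ) + ε) = ε := by ring
            rw [this]
            exact Real.one_le_rpow hD1 hε.le
          calc (1 : ℝ) ≤ D ^ (2 / 3 : ℝ) * D ^ (-(2 / 3 : ℝ) + ε) := h6
            _ ≤ ((y : ℝ) + 1) ^ 2 * D ^ (-(2 / 3 : ℝ) + ε) :=
                mul_le_mul_of_nonneg_right h3 (by positivity)
            _ = 1 * (((y : ℝ) + 1) ^ 2 * D ^ (-(2 / 3 : ℝ) + ε)) := by ring
            _ ≤ max C1 1 * (((y : ℝ) + 1) ^ 2 * D ^ (-(2 / 3 : ℝ) + ε)) :=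
                mul_le_mul_of_nonneg_right (le_max_right _ _) (by positivity)
            _ = _ := by ring
        refine prob_le_one.trans ?_
        rw [← ENNReal.ofReal_one]
        apply ENNReal.ofReal_le_ofReal
        have : 0 ≤ Real.exp (-(D ^ e')) := (Real.exp_pos _).le
        linarith
  · intro y hy hfar
    apply H2 n v hdb
    · refine le_trans ?_ hfar
      exact Real.rpow_le_rpow_of_exponent_le hD1 (by linarith)
    · have := hD3 D hdc
      linarith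

end Pool.Agent.MP2c
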