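import Pool.Agent.Work.MP_2c6138_pr.Bd.B01

/-! Small set expansion for global functions on finite product spaces. (helper92, MP_2c6138_pr) -/

set_option autoImplicit false

namespace Pool.Agent.MP2c

open Finset

namespace SSE

set_option linter.unusedSectionVars false

variable {V α : Type} [Fintype V] [DecidableEq V] [Fintype α] [DecidableEq α]

/-- product kernel operator -/
noncomputable def OP (K : V → α → α → ℝ) (f : (V → α) → ℝ) (x : V → α) : ℝ :=
  ∑ y : V → α, (∏ v, K v (x v) (y v)) * f y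

theorem OP_comp (K L : V → α → α → ℝ) (f : (V → α) → ℝ) :
    OP K (OP L f) = OP (fun v a b => ∑ c, K v a c * L v c b) f := by
  funext x
  unfold OP
  simp_rw [Finset.mul_sum]
  rw [Finset.sum_comm]
  refine Finset.sum_congr rfl fun z _ => ?_
  have h : ∏ v, ∑ c, K v (x v) c * L v c (z v) =
      ∑ y : V → α, ∏ v, (K v (x v) (y v) * L v (y v) (z v)) := by
    rw [Finset.prod_univ_sum, Fintype.piFinset_univ]
  rw [h, Finset.sum_mul]
  refine Finset.sum_congr rfl fun y _ => ?_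
  rw [Finset.prod_mul_distrib]
  ring

/-- identity kernel -/
def dl (a b : α) : ℝ := if a = b then 1 else 0

theorem OP_single (v : V) (K : V → α → α → ℝ) (hK : ∀ w, w ≠ v → K w = dl) (f : (V → α) → ℝ)
    (x : V → α) : OP K f x = ∑ a, K v (x v) a * f (Function.update x v a) := by
  unfold OP
  have key : ∀ y : V → α, (∏ w, K w (x w) (y w)) * f y =
      ∑ a, if y = Function.update x v a then K v (x v) a * f (Function.update x v a) else 0 := by
    intro y
    rw [← Finset.mul_prod_erase univ _ (mem_univ v)]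
    by_cases hy : ∀ w, w ≠ v → x w = y w
    · have e1 : y = Function.update x v (y v) := by
        funext w
        by_cases hw : w = v
        · subst hw; simp
        · simp [hw, hy w hw]
      have e2 : ∏ w ∈ univ.erase v, K w (x w) (y w) = 1 := by
        refine Finset.prod_eq_one fun w hw => ?_
        have hw' : w ≠ v := (Finset.mem_erase.1 hw).1
        rw [hK w hw', hy w hw']
        simp [dl]
      rw [e2, mul_one, Finset.sum_eq_single (y v)]
      · rw [if_pos e1, ← e1]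
      · intro b _ hb
        rw [if_neg]
        intro h
        apply hb
        rw [h]
        simp
      · simp
    · push Not at hy
      obtain ⟨w, hw, hne⟩ := hy
      have e2 : ∏ w ∈ univ.erase v, K w (x w) (y w) = 0 := by
        refine Finset.prod_eq_zero (Finset.mem_erase.2 ⟨hw, mem_univ w⟩) ?_
        rw [hK w hw]
        simp [dl, hne]
      rw [e2, mul_zero, zero_mul]
      symm
      refine Finset.sum_eq_zero fun a _ => ?_
      rw [if_neg]
      intro h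
      apply hne
      rw [h]
      simp [hw]
  simp_rw [key]
  rw [Finset.sum_comm]
  refine Finset.sum_congr rfl fun a _ => ?_
  simp

theorem OP_dl (f : (V → α) → ℝ) : OP (fun _ => dl) f = f := by
  funext x
  unfold OP
  rw [Finset.sum_eq_single x]
  · simp [dl]
  · intro y _ hy
    have : ∃ w, x w ≠ y w := by
      by_contra h
      push Not at h
      exact hy (funext fun w => (h w).symm)
    obtain ⟨w, hw⟩ := this
    rw [Finset.prod_eq_zero (mem_univ w), zero_mul]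
    simp [dl, hw]
  · simp

/-- kernel of the average over one coordinate -/
noncomputable def KA (μ : α → ℝ) (v : V) : V → α → α → ℝ :=
  fun w a b => if w = v then μ b else dl a b

theorem avg_eq (μ : α → ℝ) (v : V) (f : (V → α) → ℝ) : avg μ v f = OP (KA μ v) f := by
  funext x
  rw [OP_single v]
  · simp [avg, KA]
  · intro w hw
    funext a b
    simp [KA, hw]

theorem EE_eq (μ : α → ℝ) (f : (V → α) → ℝ) (x : V → α) :
    EE μ f = OP (fun _ _ b => μ b) f x := rfl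

theorem EE_avg (μ : α → ℝ) (hμ1 : ∑ a, μ a = 1) (v : V) (f : (V → α) → ℝ) :
    EE μ (avg μ v f) = EE μ f := by
  rcases isEmpty_or_nonempty (V → α) with h | ⟨⟨x⟩⟩
  · simp [EE]
  rw [EE_eq μ _ x, EE_eq μ _ x, avg_eq, OP_comp]
  congr 1
  funext w a b
  by_cases hw : w = v
  · simp [KA, hw, ← Finset.sum_mul, hμ1]
  · simp [KA, hw, dl]

/-- average as a linear map -/
noncomputable def Av (μ : α → ℝ) (v : V) : Module.End ℝ ((V → α) → ℝ) where
  toFun := avg μ v
  map_add' f g := by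
    funext x
    simp [avg, mul_add, Finset.sum_add_distrib]
  map_smul' c f := by
    funext x
    simp only [avg, Pi.smul_apply, smul_eq_mul, RingHom.id_apply, Finset.mul_sum]
    refine Finset.sum_congr rfl fun a _ => ?_
    ring

theorem Av_apply (μ : α → ℝ) (v : V) (f : (V → α) → ℝ) : Av μ v f = avg μ v f := rfl

theorem Av_comm (μ : α → ℝ) (v w : V) : Av μ v * Av μ w = Av μ w * Av μ v := by
  by_cases hvw : v = w
  · rw [hvw]
  refine LinearMap.ext fun f => ?_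
  simp only [Module.End.mul_apply, Av_apply]
  rw [avg_eq, avg_eq, avg_eq, avg_eq, OP_comp, OP_comp]
  congr 1
  funext u a b
  by_cases h1 : u = v
  · by_cases h2 : u = w
    · exact absurd (h1.symm.trans h2) hvw
    · simp [KA, h1, hvw, dl]
  · by_cases h2 : u = w
    · subst h2
      simp [KA, h1, dl]
    · simp [KA, h1, h2]

theorem Av_idem (μ : α → ℝ) (hμ1 : ∑ a, μ a = 1) (v : V) : Av μ v * Av μ v = Av μ v := by
  refine LinearMap.ext fun f => ?_
  simp only [Module.End.mul_apply, Av_apply]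
  funext x
  simp [avg, ← Finset.sum_mul, hμ1]

/-- expectation as a linear map -/
noncomputable def El (μ : α → ℝ) : ((V → α) → ℝ) →ₗ[ℝ] ℝ where
  toFun := EE μ
  map_add' f g := by simp [EE, mul_add, Finset.sum_add_distrib]
  map_smul' c f := by
    simp only [EE, Pi.smul_apply, smul_eq_mul, RingHom.id_apply, Finset.mul_sum]
    refine Finset.sum_congr rfl fun a _ => ?_
    ring

theorem El_mono (μ : α → ℝ) (hμ0 : ∀ a, 0 ≤ μ a) {f g : (V → α) → ℝ} (h : ∀ x, f x ≤ g x) :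
    El μ f ≤ El μ g := by
  refine Finset.sum_le_sum fun x _ => ?_
  exact mul_le_mul_of_nonneg_left (h x) (Finset.prod_nonneg fun v _ => hμ0 _)

theorem El_nonneg (μ : α → ℝ) (hμ0 : ∀ a, 0 ≤ μ a) {f : (V → α) → ℝ} (h : ∀ x, 0 ≤ f x) :
    0 ≤ El μ f := by
  refine Finset.sum_nonneg fun x _ => ?_
  exact mul_nonneg (Finset.prod_nonneg fun v _ => hμ0 _) (h x)

/-- does not depend on the coordinate `v` -/
def Ind (v : V) (f : (V → α) → ℝ) : Prop := ∀ x a, f (Function.update x v a) = f x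

theorem Ind.mul {v : V} {f g : (V → α) → ℝ} (hf : Ind v f) (hg : Ind v g) : Ind v (f * g) :=
  fun x a => by simp [hf x a, hg x a]

theorem Ind.add {v : V} {f g : (V → α) → ℝ} (hf : Ind v f) (hg : Ind v g) : Ind v (f + g) :=
  fun x a => by simp [hf x a, hg x a]

theorem Ind.sub {v : V} {f g : (V → α) → ℝ} (hf : Ind v f) (hg : Ind v g) : Ind v (f - g) :=
  fun x a => by simp [hf x a, hg x a]

theorem Ind.smul {v : V} {f : (V → α) → ℝ} (c : ℝ) (hf : Ind v f) : Ind v (c • f) :=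
  fun x a => by simp [hf x a]

theorem Ind.self (μ : α → ℝ) (v : V) (f : (V → α) → ℝ) : Ind v (Av μ v f) := fun x a => by
  simp [Av_apply, avg]

theorem Ind.av {v : V} {f : (V → α) → ℝ} (μ : α → ℝ) (w : V) (hf : Ind v f) :
    Ind v (Av μ w f) := by
  by_cases hvw : v = w
  · subst hvw; exact Ind.self μ v f
  intro x a
  simp only [Av_apply, avg]
  refine Finset.sum_congr rfl fun b _ => ?_
  rw [Function.update_comm hvw, hf]

theorem Ind.eq (μ : α → ℝ) (hμ1 : ∑ a, μ a = 1) {v : V} {f : (V → α) → ℝ} (hf : Ind v f) :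
    Av μ v f = f := by
  funext x
  simp only [Av_apply, avg, hf x, ← Finset.sum_mul, hμ1, one_mul]

theorem Ind.mul_av (μ : α → ℝ) {v : V} {f : (V → α) → ℝ} (hf : Ind v f)
    (g : (V → α) → ℝ) : Av μ v (f * g) = f * Av μ v g := by
  funext x
  simp only [Av_apply, avg, Pi.mul_apply, hf x, Finset.mul_sum]
  refine Finset.sum_congr rfl fun a _ => ?_
  ring

theorem El_av (μ : α → ℝ) (hμ1 : ∑ a, μ a = 1) (v : V) (f : (V → α) → ℝ) :
    El μ (Av μ v f) = El μ f := EE_avg μ hμ1 v f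

theorem El_ind (μ : α → ℝ) (hμ1 : ∑ a, μ a = 1) {v : V} {f : (V → α) → ℝ} (hf : Ind v f)
    (g : (V → α) → ℝ) : El μ (f * g) = El μ (f * Av μ v g) := by
  rw [← El_av μ hμ1 v, hf.mul_av]

/-- the noise operator over a list of coordinates -/
noncomputable def Tl (μ : α → ℝ) (t : ℝ) : List V → Module.End ℝ ((V → α) → ℝ)
  | [] => 1
  | v :: l => Tl μ t l * (Av μ v + t • (1 - Av μ v))

/-- the energy form over a list of coordinates -/
noncomputable def Ql (μ : α → ℝ) (c : ℝ) : List V → ((V → α) → ℝ) → (V → α) → ℝ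
  | [], f => f * f
  | v :: l, f => Ql μ c l (Av μ v f) + c • Ql μ c l (f - Av μ v f)

theorem Tl_cons (μ : α → ℝ) (t : ℝ) (v : V) (l : List V) (f : (V → α) → ℝ) :
    Tl μ t (v :: l) f = Tl μ t l (Av μ v f) + t • Tl μ t l (f - Av μ v f) := by
  simp [Tl, Module.End.mul_apply, map_add, map_sub, map_smul]

theorem Tl_kernel (μ : α → ℝ) (t : ℝ) (l : List V) (hl : l.Nodup) (f : (V → α) → ℝ) :
    Tl μ t l f = OP (fun w => if w ∈ l then KK μ t else dl) f := by
  induction l generalizing f with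
  | nil => simp [Tl, OP_dl]
  | cons v l ih =>
    have hv : v ∉ l := (List.nodup_cons.1 hl).1
    have hB : (Av μ v + t • (1 - Av μ v)) f = OP (fun w => if w = v then KK μ t else dl) f := by
      funext x
      rw [OP_single v _ (fun w hw => by simp [hw])]
      simp only [if_true, KK, add_mul, Finset.sum_add_distrib, LinearMap.add_apply,
        LinearMap.smul_apply, LinearMap.sub_apply, Module.End.one_apply, Pi.add_apply,
        Pi.smul_apply, Pi.sub_apply, smul_eq_mul, Av_apply, avg]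
      have : ∑ a, (if x v = a then t else 0) * f (Function.update x v a) = t * f x := by
        rw [Finset.sum_eq_single (x v)]
        · simp
        · intro b _ hb
          simp [Ne.symm hb]
        · simp
      rw [this]
      have h2 : ∑ a, (1 - t) * μ a * f (Function.update x v a) =
          (1 - t) * ∑ a, μ a * f (Function.update x v a) := by
        rw [Finset.mul_sum]
        refine Finset.sum_congr rfl fun a _ => ?_
        ring
      rw [h2]
      ring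
    show Tl μ t l ((Av μ v + t • (1 - Av μ v)) f) = _
    rw [ih (List.nodup_cons.1 hl).2, hB, OP_comp]
    congr 1
    funext w a b
    by_cases h1 : w = v
    · subst h1
      simp [hv, dl]
    · by_cases h2 : w ∈ l
      · simp [h1, h2, dl]
      · simp [h1, h2, dl]

theorem TT_eq (μ : α → ℝ) (t : ℝ) (f : (V → α) → ℝ) :
    TT μ t f = Tl μ t (univ : Finset V).toList f := by
  rw [Tl_kernel μ t _ (Finset.nodup_toList _)]
  funext x
  simp [TT, OP]

theorem Av_Tl (μ : α → ℝ) (t : ℝ) (v : V) (l : List V) :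
    Av μ v * Tl μ t l = Tl μ t l * Av μ v := by
  induction l with
  | nil => simp [Tl]
  | cons w l ih =>
    show Av μ v * (Tl μ t l * (Av μ w + t • (1 - Av μ w))) =
      (Tl μ t l * (Av μ w + t • (1 - Av μ w))) * Av μ v
    rw [← mul_assoc, ih, mul_assoc, mul_assoc]
    congr 1
    simp only [mul_add, add_mul, mul_smul_comm, smul_mul_assoc, mul_sub, sub_mul, mul_one, one_mul,
      Av_comm μ v w]

theorem Tl_av (μ : α → ℝ) (t : ℝ) (v : V) (l : List V) (f : (V → α) → ℝ) :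
    Tl μ t l (Av μ v f) = Av μ v (Tl μ t l f) := by
  have := congrArg (fun L => L f) (Av_Tl μ t v l)
  simpa [Module.End.mul_apply] using this.symm

theorem av_sub (μ : α → ℝ) (hμ1 : ∑ a, μ a = 1) (v : V) (f : (V → α) → ℝ) :
    Av μ v (f - Av μ v f) = 0 := by
  rw [map_sub, (Ind.self μ v f).eq μ hμ1, sub_self]

theorem av_av (μ : α → ℝ) (v w : V) (f : (V → α) → ℝ) :
    Av μ v (Av μ w f) = Av μ w (Av μ v f) := by
  have := congrArg (fun L => L f) (Av_comm μ v w)
  simpa [Module.End.mul_apply] using this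

theorem Ind.ql {v : V} {f : (V → α) → ℝ} (μ : α → ℝ) (c : ℝ) (l : List V) (hf : Ind v f) :
    Ind v (Ql μ c l f) := by
  induction l generalizing f with
  | nil => exact hf.mul hf
  | cons w l ih => exact (ih (hf.av μ w)).add ((ih (hf.sub (hf.av μ w))).smul c)

theorem Ql_nonneg (μ : α → ℝ) {c : ℝ} (hc : 0 ≤ c) (l : List V) (f : (V → α) → ℝ) (x : V → α) :
    0 ≤ Ql μ c l f x := by
  induction l generalizing f with
  | nil => exact mul_self_nonneg _
  | cons w l ih => exact add_nonneg (ih _) (mul_nonneg hc (ih _))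

theorem Ql_mono (μ : α → ℝ) {c c' : ℝ} (hc : 0 ≤ c) (hcc : c ≤ c') (l : List V)
    (f : (V → α) → ℝ) (x : V → α) : Ql μ c l f x ≤ Ql μ c' l f x := by
  induction l generalizing f with
  | nil => exact le_rfl
  | cons w l ih =>
    refine add_le_add (ih _) ?_
    exact mul_le_mul hcc (ih _) (Ql_nonneg μ hc _ _ _) (hc.trans hcc)

theorem Ql_sub (μ : α → ℝ) {c : ℝ} (hc : 0 ≤ c) (l : List V)
    (f g : (V → α) → ℝ) (x : V → α) :
    Ql μ c l (f - g) x ≤ 2 * Ql μ c l f x + 2 * Ql μ c l g x := by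
  induction l generalizing f g with
  | nil =>
    show (f x - g x) * (f x - g x) ≤ 2 * (f x * f x) + 2 * (g x * g x)
    nlinarith [sq_nonneg (f x + g x)]
  | cons w l ih =>
    show Ql μ c l (Av μ w (f - g)) x + c * Ql μ c l (f - g - Av μ w (f - g)) x ≤
      2 * (Ql μ c l (Av μ w f) x + c * Ql μ c l (f - Av μ w f) x) +
      2 * (Ql μ c l (Av μ w g) x + c * Ql μ c l (g - Av μ w g) x)
    have h1 := ih (Av μ w f) (Av μ w g)
    have h2 := ih (f - Av μ w f) (g - Av μ w g)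
    rw [map_sub]
    have e : f - g - (Av μ w f - Av μ w g) = (f - Av μ w f) - (g - Av μ w g) := by abel
    rw [e]
    nlinarith [mul_le_mul_of_nonneg_left h2 hc]

theorem Ql_zero (μ : α → ℝ) (c : ℝ) (l : List V) : Ql μ c l (0 : (V → α) → ℝ) = 0 := by
  induction l with
  | nil => simp [Ql]
  | cons w l ih => simp [Ql, ih]

theorem Ql_perm (μ : α → ℝ) (c : ℝ) {l l' : List V} (h : l.Perm l') (f : (V → α) → ℝ) :
    Ql μ c l f = Ql μ c l' f := by
  induction h generalizing f with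
  | nil => rfl
  | cons w _ ih => simp [Ql, ih]
  | swap v w l =>
    simp only [Ql, map_sub, av_av μ v w, smul_add]
    have e : f - Av μ w f - (Av μ v f - Av μ w (Av μ v f)) =
      f - Av μ v f - (Av μ w f - Av μ w (Av μ v f)) := by abel
    rw [e]
    abel
  | trans _ _ ih1 ih2 => rw [ih1, ih2]

theorem El_mul_Tl (μ : α → ℝ) (hμ1 : ∑ a, μ a = 1) (t : ℝ) (l : List V) (f : (V → α) → ℝ) :
    El μ (f * Tl μ t l f) = El μ (Ql μ t l f) := by
  induction l generalizing f with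
  | nil => simp [Tl, Ql]
  | cons v l ih =>
    have e1 : f = Av μ v f + (f - Av μ v f) := by abel
    have h1 : El μ (Av μ v f * Tl μ t l (f - Av μ v f)) = 0 := by
      rw [El_ind μ hμ1 (Ind.self μ v f), ← Tl_av, av_sub μ hμ1]
      simp
    have h2 : El μ ((f - Av μ v f) * Tl μ t l (Av μ v f)) = 0 := by
      rw [mul_comm, El_ind μ hμ1 (v := v), av_sub μ hμ1]
      · simp
      · rw [Tl_av]; exact Ind.self μ v _
    rw [Tl_cons]
    conv_lhs => rw [show f * (Tl μ t l (Av μ v f) + t • Tl μ t l (f - Av μ v f)) =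
      Av μ v f * Tl μ t l (Av μ v f) + (f - Av μ v f) * Tl μ t l (Av μ v f) +
      t • (Av μ v f * Tl μ t l (f - Av μ v f)) +
      t • ((f - Av μ v f) * Tl μ t l (f - Av μ v f)) by
        simp only [mul_add, sub_mul, mul_smul_comm, smul_sub]
        abel]
    rw [map_add, map_add, map_add, map_smul, map_smul, h1, h2, ih, ih]
    simp [Ql]

/-! ### hypercontractivity -/

theorem pt2 (a1 g1 a2 g2 : ℝ) :
    ((a1 + g1 / 6) * (a2 + g2 / 6)) ^ 2 ≤
      a1 ^ 2 * a2 ^ 2 + (1 / 3) * (a1 * g1 * a2 ^ 2 + a2 * g2 * a1 ^ 2) +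
      (19 / 216) * (a1 ^ 2 * g2 ^ 2 + g1 ^ 2 * a2 ^ 2 + g1 ^ 2 * g2 ^ 2) := by
  nlinarith [sq_nonneg (a1 * g2 - a2 * g1), sq_nonneg (g1 * (a2 - g2)),
    sq_nonneg (g2 * (a1 - g1)), sq_nonneg (g1 * g2)]

theorem pt3 (a1 g1 a2 g2 a3 g3 : ℝ) :
    ((a1 + g1 / 6) * (a2 + g2 / 6) * (a3 + g3 / 6)) ^ 2 ≤
      (a1 ^ 2 + g1 ^ 2) * (a2 ^ 2 + g2 ^ 2) * (a3 ^ 2 + g3 ^ 2) +
      (1 / 3) * (a1 * g1 * (a2 ^ 2 * a3 ^ 2) + a2 * g2 * (a1 ^ 2 * a3 ^ 2) +
        a3 * g3 * (a1 ^ 2 * a2 ^ 2)) := by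
  have h := mul_le_mul_of_nonneg_right (pt2 a1 g1 a2 g2) (sq_nonneg (a3 + g3 / 6))
  rw [mul_pow]
  refine h.trans ?_
  nlinarith [sq_nonneg (a2 * (a1 * g3 - g1 * a3)), sq_nonneg (a1 * (a2 * g3 - g2 * a3)),
    sq_nonneg (a1 * g2 * (a3 - g3)), sq_nonneg (g1 * a2 * (a3 - g3)),
    sq_nonneg (g1 * g2 * (a3 - g3)), sq_nonneg (g3 * a2 * (a1 - g1)),
    sq_nonneg (g3 * a1 * (a2 - g2)), sq_nonneg (a1 * a2 * g3), sq_nonneg (a1 * g2 * a3),
    sq_nonneg (g1 * a2 * a3), sq_nonneg (a1 * g2 * g3), sq_nonneg (g1 * a2 * g3),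
    sq_nonneg (g1 * g2 * a3), sq_nonneg (g1 * g2 * g3)]

theorem hyper (μ : α → ℝ) (hμ0 : ∀ a, 0 ≤ μ a) (hμ1 : ∑ a, μ a = 1) (k : ℝ) (l : List V)
    (h1 h2 h3 : (V → α) → ℝ) :
    El μ ((Tl μ (k / 6) l h1 * Tl μ (k / 6) l h2 * Tl μ (k / 6) l h3) ^ 2) ≤
      El μ (Ql μ (k ^ 2) l h1 * Ql μ (k ^ 2) l h2 * Ql μ (k ^ 2) l h3) := by
  induction l generalizing h1 h2 h3 with
  | nil =>
    refine le_of_eq ?_
    congr 1
    simp only [Tl, Ql, Module.End.one_apply]
    ring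
  | cons v l ih =>
    have hI : ∀ h, Ind v (Tl μ (k / 6) l (Av μ v h)) := fun h => by
      rw [Tl_av]; exact Ind.self μ v _
    have hZ : ∀ h, Av μ v (Tl μ (k / 6) l (h - Av μ v h)) = 0 := fun h => by
      rw [← Tl_av, av_sub μ hμ1, map_zero]
    set a1 := Tl μ (k / 6) l (Av μ v h1) with ha1
    set a2 := Tl μ (k / 6) l (Av μ v h2) with ha2
    set a3 := Tl μ (k / 6) l (Av μ v h3) with ha3
    set d1 := Tl μ (k / 6) l (h1 - Av μ v h1) with hd1
    set d2 := Tl μ (k / 6) l (h2 - Av μ v h2) with hd2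
    set d3 := Tl μ (k / 6) l (h3 - Av μ v h3) with hd3
    have z1 : El μ (a1 * a2 ^ 2 * a3 ^ 2 * d1) = 0 := by
      rw [El_ind μ hμ1 (v := v), hZ]
      · simp
      · simp only [pow_two]
        exact ((hI h1).mul ((hI h2).mul (hI h2))).mul ((hI h3).mul (hI h3))
    have z2 : El μ (a2 * a1 ^ 2 * a3 ^ 2 * d2) = 0 := by
      rw [El_ind μ hμ1 (v := v), hZ]
      · simp
      · simp only [pow_two]
        exact ((hI h2).mul ((hI h1).mul (hI h1))).mul ((hI h3).mul (hI h3))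
    have z3 : El μ (a3 * a1 ^ 2 * a2 ^ 2 * d3) = 0 := by
      rw [El_ind μ hμ1 (v := v), hZ]
      · simp
      · simp only [pow_two]
        exact ((hI h3).mul ((hI h1).mul (hI h1))).mul ((hI h2).mul (hI h2))
    have step : El μ ((Tl μ (k / 6) (v :: l) h1 * Tl μ (k / 6) (v :: l) h2 *
        Tl μ (k / 6) (v :: l) h3) ^ 2) ≤
        El μ ((a1 * a2 * a3) ^ 2 + k ^ 2 • (d1 * a2 * a3) ^ 2 + k ^ 2 • (a1 * d2 * a3) ^ 2 +
          k ^ 2 • (a1 * a2 * d3) ^ 2 + k ^ 4 • (d1 * d2 * a3) ^ 2 + k ^ 4 • (d1 * a2 * d3) ^ 2 +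
          k ^ 4 • (a1 * d2 * d3) ^ 2 + k ^ 6 • (d1 * d2 * d3) ^ 2 +
          (k / 3) • (a1 * a2 ^ 2 * a3 ^ 2 * d1) + (k / 3) • (a2 * a1 ^ 2 * a3 ^ 2 * d2) +
          (k / 3) • (a3 * a1 ^ 2 * a2 ^ 2 * d3)) := by
      refine El_mono μ hμ0 fun x => ?_
      rw [Tl_cons, Tl_cons, Tl_cons]
      have := pt3 (a1 x) (k * d1 x) (a2 x) (k * d2 x) (a3 x) (k * d3 x)
      simp only [Pi.pow_apply, Pi.mul_apply, Pi.add_apply, Pi.smul_apply, smul_eq_mul,
        ← ha1, ← ha2, ← ha3, ← hd1, ← hd2, ← hd3]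
      have e1 : ∀ a d : ℝ, a + k / 6 * d = a + k * d / 6 := fun a d => by ring
      rw [e1, e1, e1]
      refine this.trans (le_of_eq ?_)
      ring
    refine step.trans ?_
    have hk2 : 0 ≤ k ^ 2 := sq_nonneg k
    have hk4 : 0 ≤ k ^ 4 := by positivity
    have hk6 : 0 ≤ k ^ 6 := by positivity
    simp only [map_add, map_smul, z1, z2, z3, smul_eq_mul, mul_zero, add_zero]
    have i0 := ih (Av μ v h1) (Av μ v h2) (Av μ v h3)
    have i1 := mul_le_mul_of_nonneg_left (ih (h1 - Av μ v h1) (Av μ v h2) (Av μ v h3)) hk2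
    have i2 := mul_le_mul_of_nonneg_left (ih (Av μ v h1) (h2 - Av μ v h2) (Av μ v h3)) hk2
    have i3 := mul_le_mul_of_nonneg_left (ih (Av μ v h1) (Av μ v h2) (h3 - Av μ v h3)) hk2
    have i4 := mul_le_mul_of_nonneg_left (ih (h1 - Av μ v h1) (h2 - Av μ v h2) (Av μ v h3)) hk4
    have i5 := mul_le_mul_of_nonneg_left (ih (h1 - Av μ v h1) (Av μ v h2) (h3 - Av μ v h3)) hk4
    have i6 := mul_le_mul_of_nonneg_left (ih (Av μ v h1) (h2 - Av μ v h2) (h3 - Av μ v h3)) hk4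
    have i7 := mul_le_mul_of_nonneg_left
      (ih (h1 - Av μ v h1) (h2 - Av μ v h2) (h3 - Av μ v h3)) hk6
    simp only [← ha1, ← ha2, ← ha3, ← hd1, ← hd2, ← hd3] at i0 i1 i2 i3 i4 i5 i6 i7
    simp only [Ql]
    set A1 := Ql μ (k ^ 2) l (Av μ v h1)
    set A2 := Ql μ (k ^ 2) l (Av μ v h2)
    set A3 := Ql μ (k ^ 2) l (Av μ v h3)
    set D1 := Ql μ (k ^ 2) l (h1 - Av μ v h1)
    set D2 := Ql μ (k ^ 2) l (h2 - Av μ v h2)
    set D3 := Ql μ (k ^ 2) l (h3 - Av μ v h3)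
    have e : (A1 + k ^ 2 • D1) * (A2 + k ^ 2 • D2) * (A3 + k ^ 2 • D3) =
        A1 * A2 * A3 + k ^ 2 • (D1 * A2 * A3) + k ^ 2 • (A1 * D2 * A3) + k ^ 2 • (A1 * A2 * D3) +
        k ^ 4 • (D1 * D2 * A3) + k ^ 4 • (D1 * A2 * D3) + k ^ 4 • (A1 * D2 * D3) +
        k ^ 6 • (D1 * D2 * D3) := by
      funext x
      simp only [Pi.mul_apply, Pi.add_apply, Pi.smul_apply, smul_eq_mul]
      ring
    rw [e]
    simp only [map_add, map_smul, smul_eq_mul]
    linarith

/-! ### removal -/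

/-- average over a list of coordinates -/
noncomputable def AU (μ : α → ℝ) : List V → Module.End ℝ ((V → α) → ℝ)
  | [] => 1
  | v :: U => Av μ v * AU μ U

theorem AU_av (μ : α → ℝ) (v : V) (U : List V) (f : (V → α) → ℝ) :
    AU μ U (Av μ v f) = Av μ v (AU μ U f) := by
  induction U with
  | nil => simp [AU]
  | cons w U ih =>
    show Av μ w (AU μ U (Av μ v f)) = Av μ v (Av μ w (AU μ U f))
    rw [ih, av_av]

theorem Av_mono (μ : α → ℝ) (hμ0 : ∀ a, 0 ≤ μ a) (v : V) {f g : (V → α) → ℝ}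
    (h : ∀ x, f x ≤ g x) (x : V → α) : Av μ v f x ≤ Av μ v g x :=
  Finset.sum_le_sum fun a _ => mul_le_mul_of_nonneg_left (h _) (hμ0 a)

theorem AU_mono (μ : α → ℝ) (hμ0 : ∀ a, 0 ≤ μ a) (U : List V) {f g : (V → α) → ℝ}
    (h : ∀ x, f x ≤ g x) (x : V → α) : AU μ U f x ≤ AU μ U g x := by
  induction U generalizing x with
  | nil => exact h x
  | cons w U ih => exact Av_mono μ hμ0 w ih x

theorem AU_ind (μ : α → ℝ) (U : List V) {v : V} {f : (V → α) → ℝ} (h : Ind v f) :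
    Ind v (AU μ U f) := by
  induction U with
  | nil => exact h
  | cons w U ih => exact ih.av μ w

theorem AU_nonneg (μ : α → ℝ) (hμ0 : ∀ a, 0 ≤ μ a) (U : List V) {f : (V → α) → ℝ}
    (h : ∀ x, 0 ≤ f x) (x : V → α) : 0 ≤ AU μ U f x := by
  have := AU_mono μ hμ0 U (f := 0) (g := f) h x
  simpa using this

theorem AU_mem (μ : α → ℝ) (U : List V) {v : V} (hv : v ∈ U) (f : (V → α) → ℝ) :
    Ind v (AU μ U f) := by
  induction U with
  | nil => simp at hv
  | cons w U ih =>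
    rcases List.mem_cons.1 hv with h | h
    · subst h; exact Ind.self μ v _
    · exact (ih h).av μ w

theorem removal2 (μ : α → ℝ) (hμ0 : ∀ a, 0 ≤ μ a) (hμ1 : ∑ a, μ a = 1) {c G b : ℝ}
    (hc : 0 ≤ c) (hG : 0 ≤ G) (hb : 0 ≤ b) (ψ : (V → α) → ℝ)
    (hcond : ∀ U : List V, U.Nodup → ∀ x, AU μ U (Ql μ c U ψ) x ≤
      b * G ^ (Fintype.card V - U.length)) (l U : List V) (hn : (U ++ l).Nodup)
    (h1 h2 : (V → α) → ℝ) :
    El μ (Ql μ c l h1 * Ql μ c l h2 * AU μ U (Ql μ c (U ++ l) ψ)) ≤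
      b * G ^ (Fintype.card V - (U.length + l.length)) *
        El μ (Ql μ (c * (1 + 2 * c * (1 + G))) l h1 * Ql μ (c * (1 + 2 * c * (1 + G))) l h2) := by
  induction l generalizing U h1 h2 with
  | nil =>
    have e : b * G ^ (Fintype.card V - (U.length + ([] : List V).length)) *
        El μ (Ql μ (c * (1 + 2 * c * (1 + G))) [] h1 * Ql μ (c * (1 + 2 * c * (1 + G))) [] h2) =
        El μ ((b * G ^ (Fintype.card V - U.length)) • (Ql μ c [] h1 * Ql μ c [] h2)) := by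
      rw [map_smul]
      simp [Ql]
    rw [e]
    refine El_mono μ hμ0 fun x => ?_
    have hx := hcond U (by simpa using hn) x
    simp only [List.append_nil, Pi.mul_apply, Pi.smul_apply, smul_eq_mul, Ql]
    have h0 : 0 ≤ h1 x * h1 x * (h2 x * h2 x) :=
      mul_nonneg (mul_self_nonneg _) (mul_self_nonneg _)
    have := mul_le_mul_of_nonneg_left hx h0
    linarith
  | cons v l ih =>
    have hn' : (U ++ l).Nodup := (hn.sublist (by simp))
    have hperm : (U ++ v :: l).Perm ((v :: U) ++ l) := List.perm_middle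
    have hn2 : ((v :: U) ++ l).Nodup := hperm.nodup_iff.1 hn
    have hvU : v ∉ U ++ l := (List.nodup_cons.1 hn2).1
    set c' := c * (1 + 2 * c * (1 + G)) with hc'
    set G2 := 1 + 2 * c * (1 + G) with hG2
    have hG2' : 1 ≤ G2 := by
      have : 0 ≤ c * (1 + G) := mul_nonneg hc (by linarith)
      rw [hG2]; nlinarith
    have hc'0 : 0 ≤ c' := mul_nonneg hc (by linarith)
    have hcard : U.length + (v :: l).length ≤ Fintype.card V := by
      have := hn.length_le_card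
      simpa using this
    set m := Fintype.card V - (U.length + (v :: l).length) with hm
    have hm1 : Fintype.card V - (U.length + l.length) = m + 1 := by
      simp only [List.length_cons] at hcard hm ⊢
      omega
    have hm2 : Fintype.card V - ((v :: U).length + l.length) = m := by
      simp only [List.length_cons] at hcard hm ⊢
      omega
    set X := AU μ U (Ql μ c (U ++ v :: l) ψ) with hX
    set Y := AU μ U (Ql μ c (U ++ l) ψ) with hY
    have hAX : AU μ (v :: U) (Ql μ c ((v :: U) ++ l) ψ) = Av μ v X := by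
      rw [hX, Ql_perm μ c hperm]
      rfl
    have hXexp : X = AU μ U (Ql μ c (U ++ l) (Av μ v ψ)) +
        c • AU μ U (Ql μ c (U ++ l) (ψ - Av μ v ψ)) := by
      rw [hX, Ql_perm μ c hperm]
      simp [Ql, map_add, map_smul]
    have hZ0 : ∀ x, 0 ≤ AU μ U (Ql μ c (U ++ l) (ψ - Av μ v ψ)) x :=
      fun x => AU_nonneg μ hμ0 U (fun y => Ql_nonneg μ hc _ _ y) x
    have hP : ∀ x, AU μ U (Ql μ c (U ++ l) (Av μ v ψ)) x ≤ Av μ v X x := by
      intro x
      have hi : Ind v (AU μ U (Ql μ c (U ++ l) (Av μ v ψ))) :=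
        AU_ind μ U ((Ind.self μ v ψ).ql μ c _)
      have h3 := Av_mono μ hμ0 v (f := AU μ U (Ql μ c (U ++ l) (Av μ v ψ))) (g := X)
        (fun y => by
          rw [hXexp]
          simp only [Pi.add_apply, Pi.smul_apply, smul_eq_mul]
          have := mul_nonneg hc (hZ0 y)
          linarith) x
      rwa [hi.eq μ hμ1] at h3
    have hXle : ∀ x, X x ≤ (1 + 2 * c) * Av μ v X x + 2 * c * Y x := by
      intro x
      have h3 : AU μ U (Ql μ c (U ++ l) (ψ - Av μ v ψ)) x ≤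
          2 * Y x + 2 * AU μ U (Ql μ c (U ++ l) (Av μ v ψ)) x := by
        have := AU_mono μ hμ0 U (f := Ql μ c (U ++ l) (ψ - Av μ v ψ))
          (g := (2 : ℝ) • Ql μ c (U ++ l) ψ + (2 : ℝ) • Ql μ c (U ++ l) (Av μ v ψ))
          (fun y => by
            have := Ql_sub μ hc (U ++ l) ψ (Av μ v ψ) y
            simpa using this) x
        simpa [map_add, map_smul, hY] using this
      have h4 := hP x
      have h5 : X x = AU μ U (Ql μ c (U ++ l) (Av μ v ψ)) x +
          c * AU μ U (Ql μ c (U ++ l) (ψ - Av μ v ψ)) x := by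
        conv_lhs => rw [hXexp]
        rfl
      rw [h5]
      have h6 := mul_le_mul_of_nonneg_left h3 hc
      have h7 := mul_le_mul_of_nonneg_left h4 hc
      nlinarith
    have hQQ : ∀ u w : (V → α) → ℝ, ∀ x, 0 ≤ (Ql μ c l u * Ql μ c l w) x := fun u w x =>
      mul_nonneg (Ql_nonneg μ hc _ _ _) (Ql_nonneg μ hc _ _ _)
    have hQQ' : ∀ u w : (V → α) → ℝ, 0 ≤ El μ (Ql μ c' l u * Ql μ c' l w) := fun u w =>
      El_nonneg μ hμ0 fun x => mul_nonneg (Ql_nonneg μ hc'0 _ _ _) (Ql_nonneg μ hc'0 _ _ _)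
    -- with the hat
    have hat : ∀ u w : (V → α) → ℝ, El μ (Ql μ c l u * Ql μ c l w * Av μ v X) ≤
        b * G ^ m * El μ (Ql μ c' l u * Ql μ c' l w) := by
      intro u w
      have := ih (v :: U) hn2 u w
      rw [hAX, hm2] at this
      exact this
    have keep : ∀ u w : (V → α) → ℝ, El μ (Ql μ c l u * Ql μ c l w * Y) ≤
        b * G ^ (m + 1) * El μ (Ql μ c' l u * Ql μ c' l w) := by
      intro u w
      have := ih U hn' u w
      rw [hm1] at this
      exact this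
    have gen : ∀ u w : (V → α) → ℝ, El μ (Ql μ c l u * Ql μ c l w * X) ≤
        G2 * (b * G ^ m * El μ (Ql μ c' l u * Ql μ c' l w)) := by
      intro u w
      have h3 : El μ (Ql μ c l u * Ql μ c l w * X) ≤
          El μ ((1 + 2 * c) • (Ql μ c l u * Ql μ c l w * Av μ v X) +
            (2 * c) • (Ql μ c l u * Ql μ c l w * Y)) := by
        refine El_mono μ hμ0 fun x => ?_
        have := mul_le_mul_of_nonneg_left (hXle x) (hQQ u w x)
        simp only [Pi.add_apply, Pi.mul_apply, Pi.smul_apply, smul_eq_mul] at this ⊢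
        linarith
      rw [map_add, map_smul, map_smul, smul_eq_mul, smul_eq_mul] at h3
      have h4 := mul_le_mul_of_nonneg_left (hat u w) (show 0 ≤ 1 + 2 * c by linarith)
      have h5 := mul_le_mul_of_nonneg_left (keep u w) (show 0 ≤ 2 * c by linarith)
      have h6 : (1 + 2 * c) * (b * G ^ m * El μ (Ql μ c' l u * Ql μ c' l w)) +
          2 * c * (b * G ^ (m + 1) * El μ (Ql μ c' l u * Ql μ c' l w)) =
          G2 * (b * G ^ m * El μ (Ql μ c' l u * Ql μ c' l w)) := by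
        rw [hG2]; ring
      linarith
    have hfirst : El μ (Ql μ c l (Av μ v h1) * Ql μ c l (Av μ v h2) * X) ≤
        b * G ^ m * El μ (Ql μ c' l (Av μ v h1) * Ql μ c' l (Av μ v h2)) := by
      rw [El_ind μ hμ1 (v := v)
        (((Ind.self μ v h1).ql μ c l).mul ((Ind.self μ v h2).ql μ c l))]
      exact hat _ _
    have hbG : 0 ≤ b * G ^ m := mul_nonneg hb (pow_nonneg hG m)
    set B := b * G ^ m
    have g1 := mul_le_mul_of_nonneg_left (gen (h1 - Av μ v h1) (Av μ v h2)) hc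
    have g2 := mul_le_mul_of_nonneg_left (gen (Av μ v h1) (h2 - Av μ v h2)) hc
    have g3 := mul_le_mul_of_nonneg_left (gen (h1 - Av μ v h1) (h2 - Av μ v h2))
      (mul_nonneg hc hc)
    have q3 := hQQ' (h1 - Av μ v h1) (h2 - Av μ v h2)
    have e : ∀ (d : ℝ) (A1 D1 A2 D2 Z : (V → α) → ℝ),
        El μ ((A1 + d • D1) * (A2 + d • D2) * Z) =
        El μ (A1 * A2 * Z) + d * El μ (D1 * A2 * Z) + d * El μ (A1 * D2 * Z) +
          d * d * El μ (D1 * D2 * Z) := by
      intro d A1 D1 A2 D2 Z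
      rw [show (A1 + d • D1) * (A2 + d • D2) * Z = A1 * A2 * Z + d • (D1 * A2 * Z) +
        d • (A1 * D2 * Z) + (d * d) • (D1 * D2 * Z) by
          funext x
          simp only [Pi.mul_apply, Pi.add_apply, Pi.smul_apply, smul_eq_mul]
          ring]
      simp only [map_add, map_smul, smul_eq_mul]
    have e' : ∀ (d : ℝ) (A1 D1 A2 D2 : (V → α) → ℝ),
        El μ ((A1 + d • D1) * (A2 + d • D2)) =
        El μ (A1 * A2) + d * El μ (D1 * A2) + d * El μ (A1 * D2) +
          d * d * El μ (D1 * D2) := by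
      intro d A1 D1 A2 D2
      have := e d A1 D1 A2 D2 1
      simpa only [mul_one] using this
    simp only [Ql]
    rw [e, e']
    have k1 : c * (G2 * (B * El μ (Ql μ c' l (h1 - Av μ v h1) * Ql μ c' l (Av μ v h2)))) =
      B * (c' * El μ (Ql μ c' l (h1 - Av μ v h1) * Ql μ c' l (Av μ v h2))) := by
      rw [hc']; ring
    have k2 : c * (G2 * (B * El μ (Ql μ c' l (Av μ v h1) * Ql μ c' l (h2 - Av μ v h2)))) =
      B * (c' * El μ (Ql μ c' l (Av μ v h1) * Ql μ c' l (h2 - Av μ v h2))) := by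
      rw [hc']; ring
    have k3 : c * c *
        (G2 * (B * El μ (Ql μ c' l (h1 - Av μ v h1) * Ql μ c' l (h2 - Av μ v h2)))) ≤
      B * (c' * c' * El μ (Ql μ c' l (h1 - Av μ v h1) * Ql μ c' l (h2 - Av μ v h2))) := by
      have h7 : c * c * G2 ≤ c' * c' := by
        rw [hc']
        nlinarith [mul_nonneg (mul_nonneg hc hc) (show 0 ≤ G2 * (G2 - 1) from
          mul_nonneg (by linarith) (by linarith))]
      have h8 := mul_le_mul_of_nonneg_left (mul_le_mul_of_nonneg_right h7 q3) hbG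
      linarith
    rw [k1] at g1
    rw [k2] at g2
    nlinarith

/-! ### restrictions -/

/-- restriction: coordinates in `W` frozen to those of `y` -/
def Cm (W : Finset V) (y : V → α) (F : (V → α) → ℝ) : (V → α) → ℝ := fun z => F (mix W y z)

theorem Cm_av (μ : α → ℝ) (W : Finset V) (y : V → α) (v : V) (hv : v ∉ W) (F : (V → α) → ℝ) :
    Av μ v (Cm W y F) = Cm W y (Av μ v F) := by
  funext z
  simp only [Av_apply, avg, Cm]
  refine Finset.sum_congr rfl fun a _ => ?_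
  congr 2
  funext w
  by_cases hw : w = v
  · subst hw; simp [mix, hv]
  · simp [mix, hw]

theorem Cm_ql (μ : α → ℝ) (c : ℝ) (W : Finset V) (y : V → α) (U : List V)
    (hU : ∀ v ∈ U, v ∉ W) (F : (V → α) → ℝ) :
    Ql μ c U (Cm W y F) = Cm W y (Ql μ c U F) := by
  induction U generalizing F with
  | nil => rfl
  | cons v U ih =>
    have h1 := ih (fun w hw => hU w (List.mem_cons_of_mem _ hw))
    have h2 : Cm W y F - Av μ v (Cm W y F) = Cm W y (F - Av μ v F) := by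
      rw [Cm_av μ W y v (hU v List.mem_cons_self)]; rfl
    show Ql μ c U (Av μ v (Cm W y F)) + c • Ql μ c U (Cm W y F - Av μ v (Cm W y F)) = _
    rw [h2, Cm_av μ W y v (hU v List.mem_cons_self), h1, h1]
    rfl

theorem Cm_au (μ : α → ℝ) (W : Finset V) (y : V → α) (U : List V)
    (hU : ∀ v ∈ U, v ∉ W) (F : (V → α) → ℝ) :
    AU μ U (Cm W y F) = Cm W y (AU μ U F) := by
  induction U with
  | nil => rfl
  | cons v U ih =>
    show Av μ v (AU μ U (Cm W y F)) = _
    rw [ih (fun w hw => hU w (List.mem_cons_of_mem _ hw)),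
      Cm_av μ W y v (hU v List.mem_cons_self)]
    rfl

theorem Cm_ind (W : Finset V) (y : V → α) (v : V) (hv : v ∈ W) (F : (V → α) → ℝ) :
    Ind v (Cm W y F) := by
  intro z a
  simp only [Cm]
  congr 1
  funext w
  by_cases hw : w = v
  · subst hw; simp [mix, hv]
  · simp [mix, hw]

theorem Ql_append_ind (μ : α → ℝ) (hμ1 : ∑ a, μ a = 1) (c : ℝ) (L U : List V)
    (g : (V → α) → ℝ) (h : ∀ w ∈ L, Ind w g) : Ql μ c (L ++ U) g = Ql μ c U g := by
  induction L with
  | nil => rfl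
  | cons w L ih =>
    have h1 := (h w List.mem_cons_self).eq μ hμ1
    show Ql μ c (L ++ U) (Av μ w g) + c • Ql μ c (L ++ U) (g - Av μ w g) = _
    rw [h1, sub_self, Ql_zero, ih (fun v hv => h v (List.mem_cons_of_mem _ hv))]
    simp

theorem ind_agree (F : (V → α) → ℝ) (S : Finset V) (hF : ∀ v ∈ S, Ind v F) (x y : V → α)
    (hxy : ∀ v ∉ S, x v = y v) : F x = F y := by
  induction S using Finset.induction_on generalizing x with
  | empty =>
    have : x = y := funext fun v => hxy v (by simp)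
    rw [this]
  | insert v S _ ih =>
    rw [← hF v (Finset.mem_insert_self v S) x (y v)]
    refine ih (fun w hw => hF w (Finset.mem_insert_of_mem hw)) _ fun w hw => ?_
    by_cases h : w = v
    · subst h; simp
    · rw [Function.update_of_ne h]
      exact hxy w (by simp [h, hw])

theorem El_one (μ : α → ℝ) (hμ1 : ∑ a, μ a = 1) : El μ (1 : (V → α) → ℝ) = 1 := by
  show ∑ x : V → α, (∏ v, μ (x v)) * 1 = 1
  simp only [mul_one]
  have := Finset.prod_univ_sum (fun _ : V => (univ : Finset α)) (fun _ a => μ a)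
  rw [Fintype.piFinset_univ] at this
  rw [← this]
  simp [hμ1]

theorem El_au (μ : α → ℝ) (hμ1 : ∑ a, μ a = 1) (U : List V) (F : (V → α) → ℝ) :
    El μ (AU μ U F) = El μ F := by
  induction U with
  | nil => rfl
  | cons v U ih =>
    show El μ (Av μ v (AU μ U F)) = _
    rw [El_av μ hμ1, ih]

theorem El_Cm (μ : α → ℝ) (hμ1 : ∑ a, μ a = 1) (c : ℝ) (U : List V) (hU : U.Nodup)
    (ψ : (V → α) → ℝ) (y : V → α) :
    El μ (Ql μ c (univ : Finset V).toList (Cm (univ \ U.toFinset) y ψ)) =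
      AU μ U (Ql μ c U ψ) y := by
  set W := univ \ U.toFinset with hW
  have hUW : ∀ v ∈ U, v ∉ W := fun v hv => by simp [hW, hv]
  have hperm : (univ : Finset V).toList.Perm (W.toList ++ U) := by
    rw [List.perm_ext_iff_of_nodup (Finset.nodup_toList _)]
    · intro v
      by_cases hv : v ∈ U
      · simp [hW, hv]
      · simp [hW, hv]
    · rw [List.nodup_append]
      refine ⟨Finset.nodup_toList _, hU, ?_⟩
      intro a ha b hb hab
      subst hab
      exact hUW a hb (by simpa using ha)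
  rw [Ql_perm μ c hperm, Ql_append_ind μ hμ1 c W.toList U _
    (fun w hw => Cm_ind W y w (by simpa using hw) ψ), Cm_ql μ c W y U hUW,
    ← El_au μ hμ1 U, Cm_au μ W y U hUW]
  have : Cm W y (AU μ U (Ql μ c U ψ)) = (AU μ U (Ql μ c U ψ) y) • (1 : (V → α) → ℝ) := by
    funext z
    simp only [Cm, Pi.smul_apply, Pi.one_apply, smul_eq_mul, mul_one]
    refine ind_agree _ U.toFinset (fun v hv => AU_mem μ U (by simpa using hv) _) _ _ ?_
    intro v hv
    simp [mix, hW, hv]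
  rw [this, map_smul, El_one μ hμ1]
  simp

/-! ### the main step -/

theorem jensen (μ : α → ℝ) (hμ0 : ∀ a, 0 ≤ μ a) (ψ t : (V → α) → ℝ)
    (h0 : ∀ x, 0 ≤ ψ x) (h1 : ∀ x, ψ x ≤ 1) :
    (El μ (ψ * t)) ^ 6 ≤ (El μ ψ) ^ 5 * El μ (t ^ 6) := by
  have hm : ∀ x : V → α, 0 ≤ ∏ v, μ (x v) := fun x => Finset.prod_nonneg fun v _ => hμ0 _
  have hw : ∀ x : V → α, 0 ≤ (∏ v, μ (x v)) * ψ x := fun x => mul_nonneg (hm x) (h0 x)
  have e1 : El μ (ψ * t) = ∑ x : V → α, ((∏ v, μ (x v)) * ψ x) * t x := by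
    show ∑ x : V → α, (∏ v, μ (x v)) * (ψ x * t x) = _
    exact Finset.sum_congr rfl fun x _ => by ring
  have e2 : El μ ψ = ∑ x : V → α, ((∏ v, μ (x v)) * ψ x) := rfl
  have e3 : ∑ x : V → α, ((∏ v, μ (x v)) * ψ x) * t x ^ 6 ≤ El μ (t ^ 6) := by
    show _ ≤ ∑ x : V → α, (∏ v, μ (x v)) * (t x ^ 6)
    refine Finset.sum_le_sum fun x _ => ?_
    have : 0 ≤ t x ^ 6 := by positivity
    have h2 : (∏ v, μ (x v)) * ψ x ≤ (∏ v, μ (x v)) * 1 :=
      mul_le_mul_of_nonneg_left (h1 x) (hm x)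
    calc ((∏ v, μ (x v)) * ψ x) * t x ^ 6 ≤ ((∏ v, μ (x v)) * 1) * t x ^ 6 :=
          mul_le_mul_of_nonneg_right h2 this
      _ = _ := by ring
  set S := El μ ψ with hS
  have hS0 : 0 ≤ S := El_nonneg μ hμ0 h0
  rcases hS0.lt_or_eq with hS1 | hS1
  · have hsum : ∑ x : V → α, ((∏ v, μ (x v)) * ψ x) / S = 1 := by
      rw [← Finset.sum_div, ← e2]
      exact div_self hS1.ne'
    have := Real.pow_arith_mean_le_arith_mean_pow_of_even univ
      (fun x : V → α => ((∏ v, μ (x v)) * ψ x) / S) t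
      (fun x _ => div_nonneg (hw x) hS0) hsum (n := 6) (by decide)
    have e4 : ∑ x : V → α, ((∏ v, μ (x v)) * ψ x) / S * t x = El μ (ψ * t) / S := by
      rw [e1, Finset.sum_div]
      exact Finset.sum_congr rfl fun x _ => by ring
    have e5 : ∑ x : V → α, ((∏ v, μ (x v)) * ψ x) / S * t x ^ 6 =
        (∑ x : V → α, ((∏ v, μ (x v)) * ψ x) * t x ^ 6) / S := by
      rw [Finset.sum_div]
      exact Finset.sum_congr rfl fun x _ => by ring
    rw [e4, e5, div_pow, div_le_div_iff₀ (by positivity) hS1] at this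
    have h6 : (El μ (ψ * t)) ^ 6 * S ≤ (S ^ 5 * El μ (t ^ 6)) * S := by
      refine this.trans ?_
      have := mul_le_mul_of_nonneg_right e3 (show 0 ≤ S ^ 6 by positivity)
      nlinarith
    exact le_of_mul_le_mul_right h6 hS1
  · have hz : ∀ x : V → α, (∏ v, μ (x v)) * ψ x = 0 := by
      have h7 := (Finset.sum_eq_zero_iff_of_nonneg (s := (univ : Finset (V → α)))
        (fun x _ => hw x)).1 (by rw [← e2, ← hS1])
      exact fun x => h7 x (mem_univ x)
    have : El μ (ψ * t) = 0 := by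
      rw [e1]
      exact Finset.sum_eq_zero fun x _ => by rw [hz x, zero_mul]
    rw [this, ← hS1]
    simp

theorem main_step (μ : α → ℝ) (hμ0 : ∀ a, 0 ≤ μ a) (hμ1 : ∑ a, μ a = 1) (p G b : ℝ)
    (hG : 0 ≤ G) (hb : 0 ≤ b) (hp0 : 0 ≤ p) (hp1 : p * 144 ≤ 1) (hpG : 144 * p ^ 2 * (1 + G) ≤ 1)
    (ψ : (V → α) → ℝ) (h0 : ∀ x, 0 ≤ ψ x) (h1 : ∀ x, ψ x ≤ 1)
    (hX : ∀ (W : Finset V) (y : V → α),
      El μ (Ql μ p (univ : Finset V).toList (Cm W y ψ)) ≤ b * G ^ W.card) :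
    (El μ (Ql μ p (univ : Finset V).toList ψ)) ^ 6 ≤
      (El μ ψ) ^ 5 * (b ^ 2 * El μ (Ql μ p (univ : Finset V).toList ψ)) := by
  set L := (univ : Finset V).toList with hL
  have hLn : L.Nodup := Finset.nodup_toList _
  have hLl : L.length = Fintype.card V := by simp [hL]
  have hcond : ∀ c, 0 ≤ c → c ≤ p → ∀ U : List V, U.Nodup → ∀ x, AU μ U (Ql μ c U ψ) x ≤
      b * G ^ (Fintype.card V - U.length) := by
    intro c hc hcp U hU x
    have h2 : AU μ U (Ql μ c U ψ) x ≤ AU μ U (Ql μ p U ψ) x :=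
      AU_mono μ hμ0 U (fun y => Ql_mono μ hc hcp U ψ y) x
    rw [← El_Cm μ hμ1 p U hU ψ x] at h2
    refine h2.trans ((hX _ _).trans (le_of_eq ?_))
    congr 2
    rw [Finset.card_sdiff_of_subset (Finset.subset_univ _), List.toFinset_card_of_nodup hU]
    rfl
  have hp2 : 144 * p ^ 2 ≤ p := by nlinarith
  -- first removal
  have r1 : El μ (Ql μ (36 * p ^ 2) L ψ * Ql μ (36 * p ^ 2) L ψ * Ql μ (36 * p ^ 2) L ψ) ≤
      b * El μ (Ql μ (72 * p ^ 2) L ψ * Ql μ (72 * p ^ 2) L ψ) := by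
    have hc : 0 ≤ 36 * p ^ 2 := by positivity
    have := removal2 μ hμ0 hμ1 hc hG hb ψ (hcond _ hc (by linarith [sq_nonneg p])) L []
      (by simpa using hLn) ψ ψ
    simp only [List.nil_append, AU, Module.End.one_apply, List.length_nil, zero_add, hLl,
      Nat.sub_self, pow_zero, mul_one] at this
    refine this.trans (mul_le_mul_of_nonneg_left (El_mono μ hμ0 fun x => ?_) hb)
    have hc2 : 36 * p ^ 2 * (1 + 2 * (36 * p ^ 2) * (1 + G)) ≤ 72 * p ^ 2 := by
      nlinarith [mul_le_mul_of_nonneg_left hpG hc]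
    have hc3 : 0 ≤ 36 * p ^ 2 * (1 + 2 * (36 * p ^ 2) * (1 + G)) := by positivity
    exact mul_le_mul (Ql_mono μ hc3 hc2 L ψ x) (Ql_mono μ hc3 hc2 L ψ x)
      (Ql_nonneg μ hc3 L ψ x) (Ql_nonneg μ (by positivity) L ψ x)
  have r2 : El μ (Ql μ (72 * p ^ 2) L ψ * Ql μ (72 * p ^ 2) L ψ) ≤
      b * El μ (Ql μ p L ψ) := by
    have hc : 0 ≤ 72 * p ^ 2 := by positivity
    have := removal2 μ hμ0 hμ1 hc hG hb ψ (hcond _ hc (by linarith [sq_nonneg p])) L []
      (by simpa using hLn) ψ 1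
    have hone : ∀ c, Ql μ c L (1 : (V → α) → ℝ) = 1 := by
      intro c
      have := Ql_append_ind μ hμ1 c L [] (1 : (V → α) → ℝ) (fun w _ x a => rfl)
      simpa [Ql] using this
    simp only [List.nil_append, AU, Module.End.one_apply, List.length_nil, zero_add, hLl,
      Nat.sub_self, pow_zero, mul_one, hone] at this
    refine this.trans (mul_le_mul_of_nonneg_left (El_mono μ hμ0 fun x => ?_) hb)
    refine Ql_mono μ (by positivity) ?_ L ψ x
    nlinarith [mul_le_mul_of_nonneg_left hpG hc]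
  have hh := hyper μ hμ0 hμ1 (6 * p) L ψ ψ ψ
  have e1 : (6 * p / 6) = p := by ring
  have e2 : (6 * p) ^ 2 = 36 * p ^ 2 := by ring
  rw [e1, e2] at hh
  have hj := jensen μ hμ0 ψ (Tl μ p L ψ) h0 h1
  rw [El_mul_Tl μ hμ1] at hj
  refine hj.trans (mul_le_mul_of_nonneg_left ?_ (pow_nonneg (El_nonneg μ hμ0 h0) 5))
  have e3 : (Tl μ p L ψ * Tl μ p L ψ * Tl μ p L ψ) ^ 2 = (Tl μ p L ψ) ^ 6 := by ring
  rw [e3] at hh
  have h3 := mul_le_mul_of_nonneg_left r2 hb
  calc El μ (Tl μ p L ψ ^ 6) ≤ _ := hh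
    _ ≤ _ := r1
    _ ≤ _ := h3
    _ = _ := by ring

theorem Tl_one (μ : α → ℝ) (l : List V) : Tl μ 1 l = 1 := by
  induction l with
  | nil => rfl
  | cons v l ih => simp [Tl, ih]

theorem Cm_Cm (W W' : Finset V) (y y' : V → α) (F : (V → α) → ℝ) :
    Cm W' y' (Cm W y F) = Cm (W ∪ W') (mix W y y') F := by
  funext z
  simp only [Cm]
  congr 1
  funext v
  by_cases h1 : v ∈ W <;> by_cases h2 : v ∈ W' <;> simp [mix, h1, h2]

theorem extract {X S b : ℝ} (hX : 0 ≤ X) (hS : 0 ≤ S) (hb : 0 ≤ b)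
    (h : X ^ 6 ≤ S ^ 5 * (b ^ 2 * X)) : X ≤ S * b ^ ((2 : ℝ) / 5) := by
  rcases hX.lt_or_eq with h0 | h0
  · have h1 : X ^ 5 ≤ S ^ 5 * b ^ 2 := by
      have : X ^ 5 * X ≤ (S ^ 5 * b ^ 2) * X := by
        calc X ^ 5 * X = X ^ 6 := by ring
          _ ≤ _ := h
          _ = _ := by ring
      exact le_of_mul_le_mul_right this h0
    have h2 : (S * b ^ ((2 : ℝ) / 5)) ^ 5 = S ^ 5 * b ^ 2 := by
      rw [mul_pow, ← Real.rpow_natCast (b ^ ((2 : ℝ) / 5)), ← Real.rpow_mul hb]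
      norm_num
    rw [← h2] at h1
    exact le_of_pow_le_pow_left₀ (by norm_num) (mul_nonneg hS (Real.rpow_nonneg hb _)) h1
  · rw [← h0]
    exact mul_nonneg hS (Real.rpow_nonneg hb _)

theorem step (μ : α → ℝ) (hμ0 : ∀ a, 0 ≤ μ a) (hμ1 : ∑ a, μ a = 1) (Γ r p : ℝ) (hΓ : 1 ≤ Γ)
    (hr : 0 ≤ r) (hp0 : 0 ≤ p) (hp : p * (144 * Γ ^ 2) ≤ 1) (ψ : (V → α) → ℝ)
    (h0 : ∀ x, 0 ≤ ψ x) (h1 : ∀ x, ψ x ≤ 1) (e : ℝ) (he0 : 0 ≤ e) (he1 : e ≤ 1)
    (hP : ∀ (W : Finset V) (y : V → α), El μ (Ql μ p (univ : Finset V).toList (Cm W y ψ)) ≤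
      (r * Γ ^ W.card) ^ (1 + e)) (W : Finset V) (y : V → α) :
    El μ (Ql μ p (univ : Finset V).toList (Cm W y ψ)) ≤
      El μ (Cm W y ψ) * (r * Γ ^ W.card) ^ ((1 + e) * (2 / 5)) := by
  have hΓ0 : 0 ≤ Γ := by linarith
  have hG0 : 0 ≤ Γ ^ (1 + e) := Real.rpow_nonneg hΓ0 _
  have hG2 : Γ ^ (1 + e) ≤ Γ ^ 2 := by
    rw [← Real.rpow_two]
    exact Real.rpow_le_rpow_of_exponent_le hΓ (by linarith)
  have ht : ∀ n : ℕ, 0 ≤ r * Γ ^ n := fun n => mul_nonneg hr (pow_nonneg hΓ0 n)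
  have hΓ2 : 1 ≤ Γ ^ 2 := one_le_pow₀ hΓ
  have hp1 : p * 144 ≤ 1 := by nlinarith
  have hpG : 144 * p ^ 2 * (1 + Γ ^ (1 + e)) ≤ 1 := by
    have h2 : 144 * p ^ 2 * (1 + Γ ^ (1 + e)) ≤ 144 * p ^ 2 * (2 * Γ ^ 2) :=
      mul_le_mul_of_nonneg_left (by linarith) (by positivity)
    have h3 : 144 * p ^ 2 * (2 * Γ ^ 2) = 2 * p * (p * (144 * Γ ^ 2)) := by ring
    rw [h3] at h2
    have h4 : 2 * p * (p * (144 * Γ ^ 2)) ≤ 2 * p * 1 :=
      mul_le_mul_of_nonneg_left hp (by linarith)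
    linarith
  have hb : 0 ≤ (r * Γ ^ W.card) ^ (1 + e) := Real.rpow_nonneg (ht _) _
  have hm := main_step μ hμ0 hμ1 p (Γ ^ (1 + e)) ((r * Γ ^ W.card) ^ (1 + e)) hG0 hb hp0 hp1 hpG
    (Cm W y ψ) (fun x => h0 _) (fun x => h1 _) (by
      intro W' y'
      rw [Cm_Cm]
      refine (hP _ _).trans ?_
      have e1 : (r * Γ ^ W.card) ^ (1 + e) * (Γ ^ (1 + e)) ^ W'.card =
          (r * Γ ^ (W.card + W'.card)) ^ (1 + e) := by
        rw [← Real.rpow_natCast (Γ ^ (1 + e)), ← Real.rpow_mul hΓ0, mul_comm (1 + e),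
          Real.rpow_mul hΓ0, Real.rpow_natCast, ← Real.mul_rpow (ht _) (pow_nonneg hΓ0 _)]
        congr 1
        ring
      rw [e1]
      refine Real.rpow_le_rpow (ht _) ?_ (by linarith)
      exact mul_le_mul_of_nonneg_left (pow_le_pow_right₀ hΓ (Finset.card_union_le W W')) hr)
  have hx := extract (El_nonneg μ hμ0 fun x => Ql_nonneg μ hp0 _ _ x)
    (El_nonneg μ hμ0 fun x => h0 _) hb hm
  rwa [← Real.rpow_mul (ht _)] at hx

end SSE

variable {V α : Type} [Fintype V] [DecidableEq V] [Fintype α] [DecidableEq α]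

open SSE in
theorem sse (μ : α → ℝ) (hμ0 : ∀ a, 0 ≤ μ a) (hμ1 : ∑ a, μ a = 1) (Γ r p : ℝ) (hΓ : 1 ≤ Γ)
    (hr : 0 ≤ r) (hp0 : 0 ≤ p) (hp : p * (144 * Γ ^ 2) ≤ 1) (ψ : (V → α) → ℝ)
    (h0 : ∀ x, 0 ≤ ψ x) (h1 : ∀ x, ψ x ≤ 1)
    (hg : ∀ (W : Finset V) (y : V → α), EE μ (fun x => ψ (mix W y x)) ≤ r * Γ ^ W.card) :
    EE μ (fun x => ψ x * TT μ p ψ x) ≤ EE μ ψ * r ^ ((78 : ℝ) / 125) := by
  have hΓ0 : 0 ≤ Γ := by linarith
  have ht : ∀ n : ℕ, 0 ≤ r * Γ ^ n := fun n => mul_nonneg hr (pow_nonneg hΓ0 n)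
  have hα : Nonempty α := by
    by_contra h
    rw [not_nonempty_iff] at h
    simp at hμ1
  obtain ⟨a⟩ := hα
  have hΓ2 : 1 ≤ Γ ^ 2 := one_le_pow₀ hΓ
  have hp1 : p ≤ 1 := by nlinarith
  have hgE : ∀ (W : Finset V) (y : V → α), El μ (Cm W y ψ) ≤ r * Γ ^ W.card := hg
  have P0 : ∀ (W : Finset V) (y : V → α), El μ (Ql μ p (univ : Finset V).toList (Cm W y ψ)) ≤
      (r * Γ ^ W.card) ^ (1 + (0 : ℝ)) := by
    intro W y
    rw [add_zero, Real.rpow_one]
    refine le_trans ?_ (hgE W y)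
    refine le_trans (El_mono μ hμ0 fun x => Ql_mono μ hp0 hp1 _ _ x) ?_
    rw [← El_mul_Tl μ hμ1, Tl_one]
    refine El_mono μ hμ0 fun x => ?_
    show ψ (mix W y x) * ψ (mix W y x) ≤ ψ (mix W y x)
    nlinarith [h0 (mix W y x), h1 (mix W y x)]
  have nxt : ∀ e : ℝ, 0 ≤ e → e ≤ 1 →
      (∀ (W : Finset V) (y : V → α), El μ (Ql μ p (univ : Finset V).toList (Cm W y ψ)) ≤
        (r * Γ ^ W.card) ^ (1 + e)) →
      (∀ (W : Finset V) (y : V → α), El μ (Ql μ p (univ : Finset V).toList (Cm W y ψ)) ≤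
        (r * Γ ^ W.card) ^ (1 + (1 + e) * (2 / 5))) := by
    intro e he0 he1 hP W y
    refine (step μ hμ0 hμ1 Γ r p hΓ hr hp0 hp ψ h0 h1 e he0 he1 hP W y).trans ?_
    refine (mul_le_mul_of_nonneg_right (hgE W y) (Real.rpow_nonneg (ht _) _)).trans ?_
    rw [Real.rpow_one_add' (ht _)]
    have : 0 ≤ (1 + e) * (2 / 5) := by positivity
    linarith
  have P1 := nxt 0 le_rfl zero_le_one P0
  have P2 := nxt _ (by norm_num) (by norm_num) P1
  have h3 := step μ hμ0 hμ1 Γ r p hΓ hr hp0 hp ψ h0 h1 _ (by norm_num) (by norm_num) P2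
    ∅ (fun _ => a)
  have e0 : Cm ∅ (fun _ => a) ψ = ψ := by
    funext x
    show ψ (mix ∅ (fun _ => a) x) = ψ x
    congr 1
  rw [e0, Finset.card_empty, pow_zero, mul_one, ← El_mul_Tl μ hμ1, ← TT_eq] at h3
  have e4 : ((1 : ℝ) + (1 + (1 + 0) * (2 / 5)) * (2 / 5)) * (2 / 5) = 78 / 125 := by norm_num
  rw [e4] at h3
  exact h3

end Pool.Agent.MP2c
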