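import Pool.Agent.Work.MP_2c6138_pr.Bd.B01
import Pool.Agent.Work.MP_2c6138_pr.Bd.B02
import Pool.Agent.Work.MP_2c6138_pr.SSE

/-! `SmallCov` from `NearGeoBound`. (helper41, MP_2c6138_pr) -/

set_option autoImplicit false
set_option linter.unusedVariables false
set_option linter.unusedSectionVars false

namespace Pool.Agent.MP2c

open MeasureTheory ProbabilityTheory Finset

namespace SC

section comb

variable {n : ℕ}

theorem le_Tch (x : Fin n × Fin n → ℕ) {S : Finset (Fin n × Fin n)}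
    (hS : IsChain (· ≤ ·) (S : Set (Fin n × Fin n))) : ∑ v ∈ S, x v ≤ Tch x := by
  classical
  unfold Tch
  exact Finset.le_sup (f := fun S : Finset (Fin n × Fin n) => ∑ v ∈ S, x v)
    (Finset.mem_filter.2 ⟨Finset.mem_univ _, hS⟩)

theorem exists_Tch (x : Fin n × Fin n → ℕ) : ∃ S : Finset (Fin n × Fin n),
    IsChain (· ≤ ·) (S : Set (Fin n × Fin n)) ∧ Tch x = ∑ v ∈ S, x v := by
  classical
  unfold Tch
  obtain ⟨S, hS, h⟩ := Finset.exists_mem_eq_sup
    (Finset.univ.filter (fun S : Finset (Fin n × Fin n) =>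
      IsChain (· ≤ ·) (S : Set (Fin n × Fin n))))
    ⟨∅, Finset.mem_filter.2 ⟨Finset.mem_univ _, by simp⟩⟩ (fun S => ∑ v ∈ S, x v)
  refine ⟨S, (Finset.mem_filter.1 hS).2, ?_⟩
  convert h

theorem sum_le_of_diff (S D : Finset (Fin n × Fin n)) (x z : Fin n × Fin n → ℕ) (M : ℕ)
    (hout : ∀ v, v ∉ D → x v = z v) (hM : ∀ v, x v ≤ z v + M) :
    ∑ v ∈ S, x v ≤ ∑ v ∈ S, z v + D.card * M := by
  calc ∑ v ∈ S, x v ≤ ∑ v ∈ S, (z v + if v ∈ D then M else 0) := by
        refine Finset.sum_le_sum fun v _ => ?_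
        split_ifs with h
        · exact hM v
        · rw [hout v h]; simp
    _ = ∑ v ∈ S, z v + ∑ v ∈ S, (if v ∈ D then M else 0) := Finset.sum_add_distrib
    _ ≤ ∑ v ∈ S, z v + D.card * M := by
        gcongr
        rw [← Finset.sum_filter, Finset.sum_const, smul_eq_mul]
        gcongr
        intro v hv
        exact (Finset.mem_filter.1 hv).2

theorem Tch_le_of_diff (D : Finset (Fin n × Fin n)) (x z : Fin n × Fin n → ℕ) (M : ℕ)
    (hout : ∀ v, v ∉ D → x v = z v) (hM : ∀ v, x v ≤ z v + M) :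
    Tch x ≤ Tch z + D.card * M := by
  obtain ⟨S, hS, h⟩ := exists_Tch x
  rw [h]
  exact (sum_le_of_diff S D x z M hout hM).trans (by gcongr; exact le_Tch z hS)

theorem NG_of_diff {y : ℕ} {v : Fin n × Fin n} (D : Finset (Fin n × Fin n))
    {x z : Fin n × Fin n → ℕ} (M : ℕ) (hout : ∀ v, v ∉ D → x v = z v)
    (hM : ∀ v, x v ≤ z v + M) (hM' : ∀ v, z v ≤ x v + M) (h : NG y v x) :
    NG (y + 2 * D.card * M) v z := by
  obtain ⟨S, hS, hv, h⟩ := h
  refine ⟨S, hS, hv, ?_⟩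
  have h1 := Tch_le_of_diff D z x M (fun v hv => (hout v hv).symm) hM'
  have h2 := sum_le_of_diff S D x z M hout hM
  have : 2 * D.card * M = D.card * M + D.card * M := by ring
  omega

theorem Tch_eq_of_not_NG {v : Fin n × Fin n} {x z : Fin n × Fin n → ℕ} (M : ℕ)
    (hout : ∀ w, w ≠ v → x w = z w) (hM : z v ≤ x v + M) (h : ¬ NG M v x) : Tch z = Tch x := by
  have hlt : ∀ S : Finset (Fin n × Fin n), IsChain (· ≤ ·) (S : Set (Fin n × Fin n)) → v ∈ S →
      ∑ w ∈ S, x w + M < Tch x := by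
    intro S hS hv
    by_contra hc
    exact h ⟨S, hS, hv, not_lt.1 hc⟩
  have hnot : ∀ S : Finset (Fin n × Fin n), v ∉ S → ∑ w ∈ S, z w = ∑ w ∈ S, x w := by
    intro S hv
    refine Finset.sum_congr rfl fun w hw => (hout w ?_).symm
    rintro rfl; exact hv hw
  apply le_antisymm
  · obtain ⟨S, hS, e⟩ := exists_Tch z
    rw [e]
    by_cases hv : v ∈ S
    · have h1 := sum_le_of_diff S {v} z x M (fun w hw => (hout w (by simpa using hw)).symm)
        (fun w => by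
          by_cases hw : w = v
          · rw [hw]; exact hM
          · rw [hout w hw]; exact Nat.le_add_right _ _)
      have h2 := hlt S hS hv
      simp only [Finset.card_singleton, one_mul] at h1
      omega
    · rw [hnot S hv]; exact le_Tch x hS
  · obtain ⟨S, hS, e⟩ := exists_Tch x
    have hv : v ∉ S := by
      intro hv
      have := hlt S hS hv
      omega
    rw [e, ← hnot S hv]
    exact le_Tch z hS

end comb

section fin

open Classical in
/-- indicator of a near geodesic through `v` -/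
noncomputable def psi (n M : ℕ) (v : Fin n × Fin n) (x : Fin n × Fin n → Fin (M + 1)) : ℝ :=
  if NG M v (fun w => (x w : ℕ)) then 1 else 0

theorem psi_nonneg (n M : ℕ) (v : Fin n × Fin n) (x : Fin n × Fin n → Fin (M + 1)) :
    0 ≤ psi n M v x := by
  unfold psi; split_ifs <;> norm_num

theorem psi_le_one (n M : ℕ) (v : Fin n × Fin n) (x : Fin n × Fin n → Fin (M + 1)) :
    psi n M v x ≤ 1 := by
  unfold psi; split_ifs <;> norm_num

theorem tg_nonneg {q : ℝ} (h0 : 0 < q) (h1 : q < 1) (M : ℕ) (k : Fin (M + 1)) : 0 ≤ tg q M k := by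
  unfold tg
  have : 0 < 1 - q := by linarith
  split_ifs <;> positivity

theorem tg_sum {q : ℝ} (h1 : q < 1) (M : ℕ) : ∑ k, tg q M k = 1 := by
  rw [Fin.sum_univ_castSucc]
  have h : ∀ k : Fin M, tg q M k.castSucc = (1 - q) * q ^ (k : ℕ) := by
    intro k
    simp [tg]
  have hl : tg q M (Fin.last M) = q ^ M := by simp [tg]
  simp only [h, hl]
  rw [← Finset.mul_sum, Fin.sum_univ_eq_sum_range (fun k => q ^ k) M, mul_comm,
    geom_sum_mul_neg]
  ring

section gen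
variable {V α : Type} [Fintype V] [DecidableEq V] [Fintype α] [DecidableEq α]

theorem EE_const (μ : α → ℝ) (hμ1 : ∑ a, μ a = 1) (c : ℝ) :
    EE μ (fun _ : V → α => c) = c := by
  unfold EE
  rw [← Finset.sum_mul]
  have : ∑ x : V → α, ∏ v, μ (x v) = ∏ _v : V, ∑ a, μ a := by
    rw [Finset.prod_univ_sum, Fintype.piFinset_univ]
  rw [this]; simp [hμ1]

theorem EE_mono (μ : α → ℝ) (hμ0 : ∀ a, 0 ≤ μ a) {f g : (V → α) → ℝ} (h : ∀ x, f x ≤ g x) :
    EE μ f ≤ EE μ g := by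
  unfold EE
  refine Finset.sum_le_sum fun x _ => mul_le_mul_of_nonneg_left (h x)
    (Finset.prod_nonneg fun v _ => hμ0 _)

theorem EE_coord (μ : α → ℝ) (hμ1 : ∑ a, μ a = 1) (v : V) (a : α) :
    EE μ (fun x : V → α => if x v = a then (1 : ℝ) else 0) = μ a := by
  rw [← Spec.EE_avg μ hμ1 v]
  have : avg μ v (fun x : V → α => if x v = a then (1 : ℝ) else 0) = fun _ => μ a := by
    funext x
    simp [avg]
  rw [this]
  exact EE_const μ hμ1 _

theorem EE_sum {ι : Type} (s : Finset ι) (μ : α → ℝ) (f : ι → (V → α) → ℝ) :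
    EE μ (fun x => ∑ i ∈ s, f i x) = ∑ i ∈ s, EE μ (f i) := by
  unfold EE
  simp_rw [Finset.mul_sum]
  rw [Finset.sum_comm]

/-- the self noise correlation of an indicator is at most its mean -/
theorem noise_le_mean (μ : α → ℝ) (hμ0 : ∀ a, 0 ≤ μ a) (hμ1 : ∑ a, μ a = 1) (p : ℝ) (hp0 : 0 ≤ p)
    (hp1 : p ≤ 1) (ψ : (V → α) → ℝ) (h0 : ∀ x, 0 ≤ ψ x) (h1 : ∀ x, ψ x ≤ 1) :
    EE μ (fun x => ψ x * TT μ p ψ x) ≤ EE μ ψ := by
  refine (noise_mono μ hμ0 hμ1 ψ p 1 hp0 hp1).2.trans ?_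
  rw [noise_one μ hμ0 hμ1]
  refine EE_mono μ hμ0 fun x => ?_
  nlinarith [h0 x, h1 x]

theorem sub_avg_abs_le (μ : α → ℝ) (hμ0 : ∀ a, 0 ≤ μ a) (hμ1 : ∑ a, μ a = 1) (v : V)
    (f : (V → α) → ℝ) (x : V → α) (c : ℝ) (h : ∀ a, |f x - f (Function.update x v a)| ≤ c) :
    |f x - avg μ v f x| ≤ c := by
  have e : f x - avg μ v f x = ∑ a, μ a * (f x - f (Function.update x v a)) := by
    have e0 : f x = ∑ a, μ a * f x := by rw [← Finset.sum_mul, hμ1, one_mul]
    calc f x - avg μ v f x = ∑ a, μ a * f x - ∑ a, μ a * f (Function.update x v a) := by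
          rw [← e0]; rfl
      _ = _ := by
          rw [← Finset.sum_sub_distrib]
          exact Finset.sum_congr rfl fun a _ => by ring
  rw [e]
  refine (Finset.abs_sum_le_sum_abs _ _).trans ?_
  calc ∑ a, |μ a * (f x - f (Function.update x v a))| ≤ ∑ a, μ a * c := by
        refine Finset.sum_le_sum fun a _ => ?_
        rw [abs_mul, abs_of_nonneg (hμ0 a)]
        exact mul_le_mul_of_nonneg_left (h a) (hμ0 a)
    _ = c := by rw [← Finset.sum_mul, hμ1, one_mul]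

end gen

open Classical in
/-- Comparison of the truncated law with the geometric law. -/
theorem EE_ind_le {V : Type} [Fintype V] [DecidableEq V] {q : ℝ} (h0 : 0 < q) (h1 : q < 1) (M : ℕ)
    (S : Set (V → ℕ)) (B : ℝ) (hB : 0 ≤ B)
    (h : Measure.pi (fun _ : V => geo q) S ≤ ENNReal.ofReal B) :
    EE (tg q M) (fun x : V → Fin (M + 1) => if (fun w => (x w : ℕ)) ∈ S then (1 : ℝ) else 0) ≤
      B + Fintype.card V * q ^ M := by
  have hq : 0 < 1 - q := by linarith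
  let F : Finset (V → Fin (M + 1)) :=
    univ.filter (fun x => (∀ v, (x v : ℕ) < M) ∧ (fun w => (x w : ℕ)) ∈ S)
  have hF : ∑ x ∈ F, ∏ v, tg q M (x v) ≤ B := by
    have e1 : ∀ x ∈ F, ENNReal.ofReal (∏ v, tg q M (x v)) =
        Measure.pi (fun _ : V => geo q) {fun w => (x w : ℕ)} := by
      intro x hx
      have hx' := (Finset.mem_filter.1 hx).2.1
      rw [Measure.pi_singleton, ENNReal.ofReal_prod_of_nonneg (fun v _ => tg_nonneg h0 h1 M _)]
      refine Finset.prod_congr rfl fun v _ => ?_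
      rw [geo_singleton, tg, if_pos (hx' v)]
    have e2 : ENNReal.ofReal (∑ x ∈ F, ∏ v, tg q M (x v)) ≤ ENNReal.ofReal B := by
      rw [ENNReal.ofReal_sum_of_nonneg (fun x _ => Finset.prod_nonneg fun v _ => tg_nonneg h0 h1 M _),
        Finset.sum_congr rfl e1, ← measure_biUnion_finset]
      · refine le_trans (measure_mono ?_) h
        intro z hz
        simp only [Set.mem_iUnion, Set.mem_singleton_iff, exists_prop] at hz
        obtain ⟨x, hx, rfl⟩ := hz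
        exact (Finset.mem_filter.1 hx).2.2
      · intro x _ y _ hxy
        simp only [Function.onFun, Set.disjoint_singleton]
        intro he
        apply hxy
        funext v
        exact Fin.ext (congrFun he v)
      · intro x _; exact measurableSet_singleton _
    exact (ENNReal.ofReal_le_ofReal_iff hB).1 e2
  have hpt : ∀ x : V → Fin (M + 1), (∏ v, tg q M (x v)) *
      (if (fun w => (x w : ℕ)) ∈ S then (1 : ℝ) else 0) ≤
      (if x ∈ F then ∏ v, tg q M (x v) else 0) +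
        (∏ v, tg q M (x v)) * ∑ v, (if x v = Fin.last M then (1 : ℝ) else 0) := by
    intro x
    have hP : 0 ≤ ∏ v, tg q M (x v) := Finset.prod_nonneg fun v _ => tg_nonneg h0 h1 M _
    have hs : 0 ≤ ∑ v, (if x v = Fin.last M then (1 : ℝ) else 0) :=
      Finset.sum_nonneg fun v _ => by split_ifs <;> norm_num
    by_cases hS : (fun w => (x w : ℕ)) ∈ S
    · rw [if_pos hS, mul_one]
      by_cases hx : ∀ v, (x v : ℕ) < M
      · have : x ∈ F := Finset.mem_filter.2 ⟨Finset.mem_univ _, hx, hS⟩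
        rw [if_pos this]
        have := mul_nonneg hP hs
        linarith
      · push Not at hx
        obtain ⟨v, hv⟩ := hx
        have hv' : x v = Fin.last M := Fin.ext (le_antisymm (Nat.lt_succ_iff.1 (x v).2) hv)
        have h1' : (1 : ℝ) ≤ ∑ v, (if x v = Fin.last M then (1 : ℝ) else 0) := by
          refine le_trans ?_ (Finset.single_le_sum (f := fun v =>
            if x v = Fin.last M then (1 : ℝ) else 0) (fun w _ => by
              show (0 : ℝ) ≤ if x w = Fin.last M then (1 : ℝ) else 0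
              split_ifs <;> norm_num) (Finset.mem_univ v))
          simp [hv']
        have h2 : 0 ≤ (if x ∈ F then ∏ v, tg q M (x v) else 0) := by
          split_ifs; exacts [hP, le_rfl]
        have h3 := mul_le_mul_of_nonneg_left h1' hP
        linarith
    · rw [if_neg hS, mul_zero]
      have h2 : 0 ≤ (if x ∈ F then ∏ v, tg q M (x v) else 0) := by
        split_ifs; exacts [hP, le_rfl]
      have := mul_nonneg hP hs
      linarith
  calc EE (tg q M) (fun x : V → Fin (M + 1) => if (fun w => (x w : ℕ)) ∈ S then (1 : ℝ) else 0)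
      ≤ ∑ x, ((if x ∈ F then ∏ v, tg q M (x v) else 0) +
        (∏ v, tg q M (x v)) * ∑ v, (if x v = Fin.last M then (1 : ℝ) else 0)) :=
        Finset.sum_le_sum fun x _ => hpt x
    _ = ∑ x ∈ F, ∏ v, tg q M (x v) +
        ∑ v, EE (tg q M) (fun x : V → Fin (M + 1) => if x v = Fin.last M then (1 : ℝ) else 0) := by
        rw [Finset.sum_add_distrib, Finset.sum_ite_mem, Finset.univ_inter, ← EE_sum]
        rfl
    _ ≤ B + Fintype.card V * q ^ M := by
        refine add_le_add hF ?_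
        simp only [EE_coord (tg q M) (tg_sum h1 M)]
        simp [tg]

end fin

section bound

variable {n M : ℕ}

theorem psi_mix_le (v : Fin n × Fin n) (W : Finset (Fin n × Fin n))
    (y x : Fin n × Fin n → Fin (M + 1)) (h : psi n M v (mix W y x) = 1) :
    NG (M + 2 * W.card * M) v (fun w => (x w : ℕ)) := by
  unfold psi at h
  split_ifs at h with hh
  · refine NG_of_diff W M ?_ ?_ ?_ hh
    · intro w hw; simp [mix, hw]
    · intro w
      have := (mix W y x w).2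
      omega
    · intro w
      have := (x w).2
      omega
  · norm_num at h

theorem psi_sub_avg {q : ℝ} (h0 : 0 < q) (h1 : q < 1) (v : Fin n × Fin n)
    (x : Fin n × Fin n → Fin (M + 1)) :
    |TM n M x - avg (tg q M) v (TM n M) x| ≤ M * psi n M v x := by
  refine sub_avg_abs_le (tg q M) (tg_nonneg h0 h1 M) (tg_sum h1 M) v (TM n M) x _ fun a => ?_
  have hout : ∀ w, w ≠ v → ((x w : ℕ)) = ((Function.update x v a w : Fin (M + 1)) : ℕ) := by
    intro w hw; rw [Function.update_of_ne hw]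
  unfold psi TM
  split_ifs with h
  · rw [mul_one]
    have ha := a.2
    have h2 := Tch_le_of_diff {v} (fun w => (x w : ℕ))
      (fun w => ((Function.update x v a w : Fin (M + 1)) : ℕ)) M
      (fun w hw => hout w (by simpa using hw)) (fun w => by
        have := (x w).2; omega)
    have h3 := Tch_le_of_diff {v} (fun w => ((Function.update x v a w : Fin (M + 1)) : ℕ))
      (fun w => (x w : ℕ)) M
      (fun w hw => (hout w (by simpa using hw)).symm) (fun w => by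
        have := (Function.update x v a w).2; omega)
    simp only [Finset.card_singleton, one_mul] at h2 h3
    rw [abs_le]
    constructor
    · have : ((Tch fun w => ((Function.update x v a w : Fin (M + 1)) : ℕ) : ℕ) : ℝ) ≤
        (Tch fun w => (x w : ℕ) : ℕ) + M := by exact_mod_cast h3
      linarith
    · have : ((Tch fun w => (x w : ℕ) : ℕ) : ℝ) ≤
        (Tch fun w => ((Function.update x v a w : Fin (M + 1)) : ℕ) : ℕ) + M := by
          exact_mod_cast h2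
      linarith
  · have h2 := Tch_eq_of_not_NG M hout (by
      have := (Function.update x v a v).2; omega) h
    rw [h2]; simp

theorem TM_noise_le {q p : ℝ} (h0 : 0 < q) (h1 : q < 1) (hp0 : 0 ≤ p) (hp1 : p ≤ 1) :
    EE (tg q M) (fun x => TM n M x * TT (tg q M) p (TM n M) x) - (EE (tg q M) (TM n M)) ^ 2 ≤
      ∑ v, (M : ℝ) ^ 2 * EE (tg q M) (fun x => psi n M v x * TT (tg q M) p (psi n M v) x) := by
  refine (noise_efron_stein (tg q M) (tg_nonneg h0 h1 M) (tg_sum h1 M) (TM n M) p hp0).trans ?_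
  refine Finset.sum_le_sum fun v _ => ?_
  refine (noise_abs_le (tg q M) (tg_nonneg h0 h1 M) p hp0 hp1 _ (fun x => M * psi n M v x)
    (psi_sub_avg h0 h1 v)).trans ?_
  apply le_of_eq
  unfold EE
  rw [Finset.mul_sum]
  refine Finset.sum_congr rfl fun x _ => ?_
  have : TT (tg q M) p (fun x => M * psi n M v x) x = M * TT (tg q M) p (psi n M v) x := by
    unfold TT
    rw [Finset.mul_sum]
    refine Finset.sum_congr rfl fun y _ => by ring
  beta_reduce
  rw [this]; ring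


/-- The basic estimate for the near geodesic indicators. -/
theorem EE_NG_le {q : ℝ} (h0 : 0 < q) (h1 : q < 1) (hn : 1 ≤ n)
    (hq : q ^ M ≤ ((n : ℝ) ^ (10 : ℕ))⁻¹) (v : Fin n × Fin n) (W : Finset (Fin n × Fin n))
    (y : Fin n × Fin n → Fin (M + 1)) (B : ℝ) (hB : 0 ≤ B)
    (h : (Measure.pi (fun _ : Fin n × Fin n => geo q)) {x | NG (M + 2 * W.card * M) v x} ≤
      ENNReal.ofReal B) :
    EE (tg q M) (fun x => psi n M v (mix W y x)) ≤ B + ((n : ℝ) ^ (8 : ℕ))⁻¹ := by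
  classical
  have h2 := EE_ind_le h0 h1 M {x | NG (M + 2 * W.card * M) v x} B hB h
  have h3 : EE (tg q M) (fun x => psi n M v (mix W y x)) ≤
      EE (tg q M) (fun x : Fin n × Fin n → Fin (M + 1) =>
        if (fun w => (x w : ℕ)) ∈ {x | NG (M + 2 * W.card * M) v x} then (1 : ℝ) else 0) := by
    refine EE_mono _ (tg_nonneg h0 h1 M) fun x => ?_
    by_cases hx : psi n M v (mix W y x) = 1
    · have := psi_mix_le v W y x hx
      rw [if_pos (by exact this), hx]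
    · have h4 : psi n M v (mix W y x) = 0 := by
        unfold psi at hx ⊢
        split_ifs at hx ⊢ with h5
        · exact absurd rfl hx
        · rfl
      rw [h4]
      split_ifs <;> norm_num
  have hn0 : (0 : ℝ) < n := by exact_mod_cast hn
  have h4 : (Fintype.card (Fin n × Fin n) : ℝ) * q ^ M ≤ ((n : ℝ) ^ (8 : ℕ))⁻¹ := by
    calc (Fintype.card (Fin n × Fin n) : ℝ) * q ^ M = (n : ℝ) ^ 2 * q ^ M := by
          simp [pow_two]
      _ ≤ (n : ℝ) ^ 2 * ((n : ℝ) ^ (10 : ℕ))⁻¹ := by gcongr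
      _ = ((n : ℝ) ^ (8 : ℕ))⁻¹ := by field_simp
  have h5 : EE (tg q M) (fun x : Fin n × Fin n → Fin (M + 1) =>
        if (fun w => (x w : ℕ)) ∈ {x | NG (M + 2 * W.card * M) v x} then (1 : ℝ) else 0) ≤
      B + Fintype.card (Fin n × Fin n) * q ^ M := by
    convert h2
  linarith

theorem psi_mix_empty (v : Fin n × Fin n) (y : Fin n × Fin n → Fin (M + 1)) :
    (fun x => psi n M v (mix ∅ y x)) = psi n M v := by
  funext x
  congr 1

/-- The growth estimate in the form needed for `sse`. -/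
theorem EE_mix_le {q : ℝ} (h0 : 0 < q) (h1 : q < 1) (hn : 1 ≤ n) (hM : 1 ≤ M)
    (hq : q ^ M ≤ ((n : ℝ) ^ (10 : ℕ))⁻¹) (v : Fin n × Fin n) (C D E : ℝ) (hC : 0 ≤ C)
    (hD : 0 ≤ D) (hE : 0 ≤ E)
    (h : ∀ y : ℕ, (Measure.pi (fun _ : Fin n × Fin n => geo q)) {x | NG y v x} ≤
      ENNReal.ofReal (C * ((y : ℝ) + 1) ^ 2 * D + E))
    (W : Finset (Fin n × Fin n)) (y : Fin n × Fin n → Fin (M + 1)) :
    EE (tg q M) (fun x => psi n M v (mix W y x)) ≤
      (4 * C * (M : ℝ) ^ 2 * D + E + ((n : ℝ) ^ (8 : ℕ))⁻¹) * 4 ^ W.card := by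
  have h2 := EE_NG_le h0 h1 hn hq v W y _ (by positivity) (h (M + 2 * W.card * M))
  refine h2.trans ?_
  have hM1 : (1 : ℝ) ≤ M := by exact_mod_cast hM
  have hw : ((W.card : ℝ) + 1) ^ 2 ≤ 4 ^ W.card := by
    have h3 : ((W.card : ℝ) + 1) ≤ 2 ^ W.card := by
      have h4 : W.card + 1 ≤ 2 ^ W.card := Nat.lt_two_pow_self
      exact_mod_cast h4
    calc ((W.card : ℝ) + 1) ^ 2 ≤ (2 ^ W.card) ^ 2 := by gcongr
      _ = 4 ^ W.card := by rw [← pow_mul, mul_comm, pow_mul]; norm_num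
  have h4 : (((M + 2 * W.card * M : ℕ) : ℝ) + 1) ^ 2 ≤ 4 * (M : ℝ) ^ 2 * 4 ^ W.card := by
    have h5 : ((M + 2 * W.card * M : ℕ) : ℝ) + 1 ≤ 2 * M * ((W.card : ℝ) + 1) := by
      push_cast
      nlinarith
    calc (((M + 2 * W.card * M : ℕ) : ℝ) + 1) ^ 2 ≤ (2 * M * ((W.card : ℝ) + 1)) ^ 2 := by
          gcongr
      _ = 4 * (M : ℝ) ^ 2 * ((W.card : ℝ) + 1) ^ 2 := by ring
      _ ≤ 4 * (M : ℝ) ^ 2 * 4 ^ W.card := by gcongr
  have h6 : (1 : ℝ) ≤ 4 ^ W.card := one_le_pow₀ (by norm_num)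
  have h7 : (0 : ℝ) ≤ ((n : ℝ) ^ (8 : ℕ))⁻¹ := by positivity
  calc C * (((M + 2 * W.card * M : ℕ) : ℝ) + 1) ^ 2 * D + E + ((n : ℝ) ^ (8 : ℕ))⁻¹
      ≤ C * (4 * (M : ℝ) ^ 2 * 4 ^ W.card) * D + E * 4 ^ W.card +
        ((n : ℝ) ^ (8 : ℕ))⁻¹ * 4 ^ W.card := by
        gcongr
        · exact le_mul_of_one_le_right hE h6
        · exact le_mul_of_one_le_right h7 h6
    _ = _ := by ring

theorem near_le {q : ℝ} (h0 : 0 < q) (h1 : q < 1) (hn : 1 ≤ n) (hM : 1 ≤ M)
    (hq : q ^ M ≤ ((n : ℝ) ^ (10 : ℕ))⁻¹) (v : Fin n × Fin n) (C D E r : ℝ) (hC : 0 ≤ C)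
    (hD : 0 ≤ D) (hE : 0 ≤ E)
    (h : ∀ y : ℕ, (Measure.pi (fun _ : Fin n × Fin n => geo q)) {x | NG y v x} ≤
      ENNReal.ofReal (C * ((y : ℝ) + 1) ^ 2 * D + E))
    (hr : 4 * C * (M : ℝ) ^ 2 * D + E + ((n : ℝ) ^ (8 : ℕ))⁻¹ ≤ r) :
    EE (tg q M) (fun x => psi n M v x * TT (tg q M) (1 / 2304) (psi n M v) x) ≤
      r ^ ((203 : ℝ) / 125) := by
  have hr0 : 0 ≤ r := le_trans (by positivity) hr
  have hg : ∀ (W : Finset (Fin n × Fin n)) (y : Fin n × Fin n → Fin (M + 1)),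
      EE (tg q M) (fun x => psi n M v (mix W y x)) ≤ r * 4 ^ W.card := fun W y =>
    (EE_mix_le h0 h1 hn hM hq v C D E hC hD hE h W y).trans (by gcongr)
  have h2 := sse (tg q M) (tg_nonneg h0 h1 M) (tg_sum h1 M) 4 r (1 / 2304) (by norm_num) hr0
    (by norm_num) (by norm_num) (psi n M v) (psi_nonneg n M v) (psi_le_one n M v) hg
  have h3 : EE (tg q M) (psi n M v) ≤ r := by
    have := hg ∅ (fun _ => 0)
    rw [psi_mix_empty] at this
    simpa using this
  refine h2.trans ?_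
  have e : (203 : ℝ) / 125 = 1 + 78 / 125 := by norm_num
  rw [e, Real.rpow_one_add' hr0 (by norm_num)]
  exact mul_le_mul_of_nonneg_right h3 (Real.rpow_nonneg hr0 _)

theorem far_le {q : ℝ} (h0 : 0 < q) (h1 : q < 1) (hn : 1 ≤ n)
    (hq : q ^ M ≤ ((n : ℝ) ^ (10 : ℕ))⁻¹) (v : Fin n × Fin n) (E : ℝ) (hE : 0 ≤ E)
    (h : (Measure.pi (fun _ : Fin n × Fin n => geo q)) {x | NG M v x} ≤ ENNReal.ofReal E) :
    EE (tg q M) (fun x => psi n M v x * TT (tg q M) (1 / 2304) (psi n M v) x) ≤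
      E + ((n : ℝ) ^ (8 : ℕ))⁻¹ := by
  refine (noise_le_mean (tg q M) (tg_nonneg h0 h1 M) (tg_sum h1 M) _ (by norm_num) (by norm_num)
    (psi n M v) (psi_nonneg n M v) (psi_le_one n M v)).trans ?_
  have h2 := EE_NG_le h0 h1 hn hq v ∅ (fun _ => 0) E hE (by simpa using h)
  rwa [psi_mix_empty] at h2

theorem triv_le {q : ℝ} (h0 : 0 < q) (h1 : q < 1) (v : Fin n × Fin n) :
    EE (tg q M) (fun x => psi n M v x * TT (tg q M) (1 / 2304) (psi n M v) x) ≤ 1 := by
  refine (noise_le_mean (tg q M) (tg_nonneg h0 h1 M) (tg_sum h1 M) _ (by norm_num) (by norm_num)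
    (psi n M v) (psi_nonneg n M v) (psi_le_one n M v)).trans ?_
  refine (EE_mono _ (tg_nonneg h0 h1 M) (psi_le_one n M v)).trans ?_
  rw [EE_const _ (tg_sum h1 M)]

end bound

section count

variable {n : ℕ}

theorem card_small (D : ℕ) :
    ((univ : Finset (Fin n × Fin n)).filter (fun v => dd v < D)).card ≤ 2 * D ^ 2 := by
  classical
  have hsub : (univ : Finset (Fin n × Fin n)).filter (fun v => dd v < D) ⊆
      (univ.filter (fun v : Fin n × Fin n => v.1.1 + v.2.1 < D)) ∪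
      (univ.filter (fun v : Fin n × Fin n => (n - 1 - v.1.1) + (n - 1 - v.2.1) < D)) := by
    intro v hv
    simp only [mem_filter, mem_univ, true_and, mem_union] at hv ⊢
    unfold dd at hv
    have h1 := v.1.2
    have h2 := v.2.2
    rcases min_lt_iff.1 hv with h | h
    · left; exact h
    · right; omega
  have hc1 : (univ.filter (fun v : Fin n × Fin n => v.1.1 + v.2.1 < D)).card ≤ D ^ 2 := by
    have : (univ.filter (fun v : Fin n × Fin n => v.1.1 + v.2.1 < D)).card ≤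
        ((range D) ×ˢ (range D)).card := by
      refine Finset.card_le_card_of_injOn (fun v => (v.1.1, v.2.1)) ?_ ?_
      · intro v hv
        simp only [coe_filter, mem_univ, true_and, Set.mem_ofPred_eq] at hv
        simp only [coe_product, coe_range, Set.mem_prod, Set.mem_Iio]
        omega
      · intro v _ w _ h
        simp only [Prod.mk.injEq] at h
        exact Prod.ext (Fin.ext h.1) (Fin.ext h.2)
    simpa [pow_two] using this
  have hc2 : (univ.filter (fun v : Fin n × Fin n => (n - 1 - v.1.1) + (n - 1 - v.2.1) < D)).card ≤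
      D ^ 2 := by
    have : (univ.filter (fun v : Fin n × Fin n =>
        (n - 1 - v.1.1) + (n - 1 - v.2.1) < D)).card ≤ ((range D) ×ˢ (range D)).card := by
      refine Finset.card_le_card_of_injOn (fun v => (n - 1 - v.1.1, n - 1 - v.2.1)) ?_ ?_
      · intro v hv
        simp only [coe_filter, mem_univ, true_and, Set.mem_ofPred_eq] at hv
        simp only [coe_product, coe_range, Set.mem_prod, Set.mem_Iio]
        omega
      · intro v _ w _ h
        simp only [Prod.mk.injEq] at h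
        have h1 := v.1.2
        have h2 := v.2.2
        have h3 := w.1.2
        have h4 := w.2.2
        exact Prod.ext (Fin.ext (by omega)) (Fin.ext (by omega))
    simpa [pow_two] using this
  calc _ ≤ _ := Finset.card_le_card hsub
    _ ≤ _ := Finset.card_union_le _ _
    _ ≤ D ^ 2 + D ^ 2 := add_le_add hc1 hc2
    _ = _ := by ring

open Classical in
theorem card_near (d : ℕ) (R : ℝ) (hR : 0 ≤ R) :
    (((univ : Finset (Fin n × Fin n)).filter (fun v => dd v = d ∧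
      |(v.1.1 : ℝ) - (v.2.1 : ℝ)| < R)).card : ℝ) ≤ 2 * (2 * R + 1) := by
  let K : ℤ := ⌊R⌋
  have hK : 0 ≤ K := Int.floor_nonneg.2 hR
  have h1 : ((univ : Finset (Fin n × Fin n)).filter (fun v => dd v = d ∧
      |(v.1.1 : ℝ) - (v.2.1 : ℝ)| < R)).card ≤
      ((({d, 2 * (n - 1) - d} : Finset ℕ) ×ˢ (Finset.Icc (-K) K))).card := by
    refine Finset.card_le_card_of_injOn
      (fun v => (v.1.1 + v.2.1, (v.1.1 : ℤ) - (v.2.1 : ℤ))) ?_ ?_
    · intro v hv
      obtain ⟨-, hv1, hv2⟩ := Finset.mem_filter.1 (Finset.mem_coe.1 hv)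
      unfold dd at hv1
      have h3 := v.1.2
      have h4 := v.2.2
      have h5 : |((v.1.1 : ℤ) - (v.2.1 : ℤ))| ≤ K := by
        rw [Int.le_floor]
        push_cast
        exact hv2.le
      rw [abs_le] at h5
      simp only [coe_product, Set.mem_prod, coe_insert, coe_singleton, Set.mem_insert_iff,
        Set.mem_singleton_iff, coe_Icc, Set.mem_Icc]
      refine ⟨by omega, h5⟩
    · intro v _ w _ h
      simp only [Prod.mk.injEq] at h
      exact Prod.ext (Fin.ext (by omega)) (Fin.ext (by omega))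
  have h2 : ((({d, 2 * (n - 1) - d} : Finset ℕ) ×ˢ (Finset.Icc (-K) K))).card ≤
      2 * (2 * K + 1).toNat := by
    rw [Finset.card_product, Int.card_Icc]
    refine Nat.mul_le_mul Finset.card_le_two ?_
    omega
  have h3 : (((2 * K + 1).toNat : ℕ) : ℝ) ≤ 2 * R + 1 := by
    have : (((2 * K + 1).toNat : ℤ) : ℝ) = ((2 * K + 1 : ℤ) : ℝ) := by
      rw [Int.toNat_of_nonneg (by omega)]
    have h4 : ((2 * K + 1 : ℤ) : ℝ) ≤ 2 * R + 1 := by
      push_cast
      linarith [Int.floor_le R]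
    calc (((2 * K + 1).toNat : ℕ) : ℝ) = (((2 * K + 1).toNat : ℤ) : ℝ) := by norm_cast
      _ ≤ _ := by rw [this]; exact h4
  calc _ ≤ ((2 * (2 * K + 1).toNat : ℕ) : ℝ) := by exact_mod_cast h1.trans h2
    _ ≤ _ := by push_cast; linarith

theorem dd_lt (v : Fin n × Fin n) : dd v ≤ n := by
  have h1 := v.1.2
  have h2 := v.2.2
  unfold dd
  omega

theorem sum_rpow_le (a : ℝ) (ha : a ≤ 1) (n : ℕ) :
    ∑ d ∈ Finset.Icc 1 n, (d : ℝ) ^ (-a) ≤ (n : ℝ) ^ (1 - a) * (1 + Real.log n) := by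
  have h1 : ∀ d ∈ Finset.Icc 1 n, (d : ℝ) ^ (-a) ≤ (n : ℝ) ^ (1 - a) * (d : ℝ)⁻¹ := by
    intro d hd
    rw [Finset.mem_Icc] at hd
    have hd0 : (0 : ℝ) < d := by exact_mod_cast hd.1
    have e : (d : ℝ) ^ (-a) = (d : ℝ) ^ (1 - a) * (d : ℝ)⁻¹ := by
      rw [← Real.rpow_neg_one, ← Real.rpow_add hd0]; ring_nf
    rw [e]
    refine mul_le_mul_of_nonneg_right ?_ (by positivity)
    exact Real.rpow_le_rpow hd0.le (by exact_mod_cast hd.2) (by linarith)
  refine (Finset.sum_le_sum h1).trans ?_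
  rw [← Finset.mul_sum]
  refine mul_le_mul_of_nonneg_left ?_ (by positivity)
  have h2 := harmonic_le_one_add_log n
  rw [harmonic_eq_sum_Icc] at h2
  push_cast at h2
  exact h2

open Classical in
theorem sum_near (b e : ℝ) (hb : 0 ≤ b) (he : e - b ≤ 1) :
    ∑ v ∈ (univ : Finset (Fin n × Fin n)).filter (fun v => 1 ≤ dd v ∧
      |(v.1.1 : ℝ) - (v.2.1 : ℝ)| < (dd v : ℝ) ^ b), (dd v : ℝ) ^ (-e) ≤
      6 * ((n : ℝ) ^ (1 - (e - b)) * (1 + Real.log n)) := by
  set F := (univ : Finset (Fin n × Fin n)).filter (fun v => 1 ≤ dd v ∧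
      |(v.1.1 : ℝ) - (v.2.1 : ℝ)| < (dd v : ℝ) ^ b) with hF
  rw [← Finset.sum_fiberwise_of_maps_to (t := Finset.Icc 1 n) (g := fun v => dd v)
    (fun v hv => Finset.mem_Icc.2 ⟨(Finset.mem_filter.1 hv).2.1, dd_lt v⟩)]
  have h1 : ∀ d ∈ Finset.Icc 1 n, ∑ v ∈ F with dd v = d, (dd v : ℝ) ^ (-e) ≤
      6 * (d : ℝ) ^ (-(e - b)) := by
    intro d hd
    rw [Finset.mem_Icc] at hd
    have hd1 : (1 : ℝ) ≤ d := by exact_mod_cast hd.1
    have hd0 : (0 : ℝ) < d := by linarith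
    have h2 : ∑ v ∈ F with dd v = d, (dd v : ℝ) ^ (-e) = ((F.filter (fun v => dd v = d)).card : ℝ) *
        (d : ℝ) ^ (-e) := by
      rw [Finset.sum_congr rfl (g := fun _ => (d : ℝ) ^ (-e)) (fun v hv => by
        rw [(Finset.mem_filter.1 hv).2]), Finset.sum_const, nsmul_eq_mul]
    have h3 : ((F.filter (fun v => dd v = d)).card : ℝ) ≤ 2 * (2 * (d : ℝ) ^ b + 1) := by
      refine le_trans ?_ (card_near (n := n) d ((d : ℝ) ^ b) (by positivity))
      have : F.filter (fun v => dd v = d) ⊆ (univ : Finset (Fin n × Fin n)).filter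
          (fun v => dd v = d ∧ |(v.1.1 : ℝ) - (v.2.1 : ℝ)| < (d : ℝ) ^ b) := by
        intro v hv
        rw [Finset.mem_filter] at hv
        obtain ⟨hv1, hv2⟩ := hv
        have hv3 := (Finset.mem_filter.1 hv1).2.2
        rw [hv2] at hv3
        exact Finset.mem_filter.2 ⟨Finset.mem_univ _, hv2, hv3⟩
      exact_mod_cast Finset.card_le_card this
    have h4 : (1 : ℝ) ≤ (d : ℝ) ^ b := Real.one_le_rpow hd1 hb
    rw [h2]
    calc ((F.filter (fun v => dd v = d)).card : ℝ) * (d : ℝ) ^ (-e)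
        ≤ (6 * (d : ℝ) ^ b) * (d : ℝ) ^ (-e) := by
          refine mul_le_mul_of_nonneg_right (h3.trans ?_) (by positivity)
          linarith
      _ = 6 * (d : ℝ) ^ (-(e - b)) := by
          rw [mul_assoc, ← Real.rpow_add hd0]; ring_nf
  refine (Finset.sum_le_sum h1).trans ?_
  rw [← Finset.mul_sum]
  refine mul_le_mul_of_nonneg_left ?_ (by norm_num)
  exact sum_rpow_le (e - b) he n

end count

section asym

open Filter

theorem ev_pow (A r : ℝ) (hr : 0 < r) : ∀ᶠ n : ℕ in atTop, A ≤ (n : ℝ) ^ r :=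
  ((tendsto_rpow_atTop hr).comp tendsto_natCast_atTop_atTop).eventually_ge_atTop A

theorem ev_log (B r : ℝ) (hr : 0 < r) : ∀ᶠ n : ℕ in atTop, B * Real.log n ≤ (n : ℝ) ^ r := by
  have hB : 0 < |B| + 1 := by positivity
  have h := (isLittleO_log_rpow_atTop hr).bound (c := 1 / (|B| + 1)) (by positivity)
  have h2 := tendsto_natCast_atTop_atTop (R := ℝ) |>.eventually h
  filter_upwards [h2] with n hn
  rw [Real.norm_eq_abs, Real.norm_eq_abs, abs_of_nonneg (Real.rpow_nonneg (Nat.cast_nonneg n) r)]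
    at hn
  have h3 : 0 ≤ (n : ℝ) ^ r := Real.rpow_nonneg (Nat.cast_nonneg n) r
  calc B * Real.log n ≤ |B| * |Real.log n| := by
        rw [← abs_mul]; exact le_abs_self _
    _ ≤ |B| * (1 / (|B| + 1) * (n : ℝ) ^ r) := by gcongr
    _ = (|B| / (|B| + 1)) * (n : ℝ) ^ r := by ring
    _ ≤ 1 * (n : ℝ) ^ r := by
        gcongr
        rw [div_le_one hB]; linarith
    _ = _ := one_mul _

end asym

end SC

open SC in
open Classical in
theorem smallCov_of_near (q : ℝ) (h0 : 0 < q) (h1 : q < 1) (h : NearGeoBound q) : SmallCov q := by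
  obtain ⟨C, c, hC, hc, d0, hd0, H⟩ := h (1 / 100) (by norm_num)
  refine ⟨1 / 25, 1 / 2304, by norm_num, by norm_num, by norm_num, fun K => ?_⟩
  have hev : ∀ᶠ n : ℕ in Filter.atTop, 2 ≤ n ∧ (K : ℝ) * Real.log n ≤ (n : ℝ) ^ (1 / 1000 : ℝ) ∧
      4 * C + 2 ≤ (n : ℝ) ^ (1 / 1000 : ℝ) ∧ 8 * Real.log n ≤ (n : ℝ) ^ (c / 4) ∧
      2 * Real.log n ≤ (n : ℝ) ^ (1 / 1000 : ℝ) ∧ (d0 : ℝ) ≤ (n : ℝ) ^ (1 / 4 : ℝ) ∧
      16 ≤ (n : ℝ) ^ (1 / 1000 : ℝ) := by
    filter_upwards [Filter.eventually_ge_atTop 2, ev_log K (1 / 1000) (by norm_num),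
      ev_pow (4 * C + 2) (1 / 1000) (by norm_num), ev_log 8 (c / 4) (by positivity),
      ev_log 2 (1 / 1000) (by norm_num), ev_pow d0 (1 / 4) (by norm_num),
      ev_pow 16 (1 / 1000) (by norm_num)] with n a1 a2 a3 a4 a5 a6 a7
    exact ⟨a1, a2, a3, a4, a5, a6, a7⟩
  obtain ⟨n0, hn0⟩ := Filter.eventually_atTop.1 hev
  refine ⟨n0, fun n M hn hq hMK => ?_⟩
  obtain ⟨a1, a2, a3, a4, a5, a6, a7⟩ := hn0 n hn
  have hn1 : (1 : ℝ) ≤ n := by exact_mod_cast (by omega : 1 ≤ n)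
  have hn2 : (0 : ℝ) < n := by linarith
  have hM1 : 1 ≤ M := by
    by_contra hM
    have : M = 0 := by omega
    rw [this, pow_zero] at hq
    have h3 : (2 : ℝ) ≤ n := by exact_mod_cast a1
    have h4 : ((n : ℝ) ^ (10 : ℕ))⁻¹ ≤ ((2 : ℝ) ^ (10 : ℕ))⁻¹ := by gcongr
    norm_num at h4
    linarith
  have hMn : (M : ℝ) ≤ (n : ℝ) ^ (1 / 1000 : ℝ) := hMK.trans a2
  -- the exponents
  have hadd : ∀ x y : ℝ, (n : ℝ) ^ x * (n : ℝ) ^ y = (n : ℝ) ^ (x + y) := fun x y =>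
    (Real.rpow_add hn2 x y).symm
  have hmono : ∀ x y : ℝ, x ≤ y → (n : ℝ) ^ x ≤ (n : ℝ) ^ y := fun x y hxy =>
    Real.rpow_le_rpow_of_exponent_le hn1 hxy
  have hM2 : (M : ℝ) ^ 2 ≤ (n : ℝ) ^ (2 / 1000 : ℝ) := by
    calc (M : ℝ) ^ 2 ≤ ((n : ℝ) ^ (1 / 1000 : ℝ)) ^ 2 := by gcongr
      _ = (n : ℝ) ^ (2 / 1000 : ℝ) := by
          rw [pow_two, hadd]; norm_num
  have hn8 : ((n : ℝ) ^ (8 : ℕ))⁻¹ = (n : ℝ) ^ (-8 : ℝ) := by
    rw [Real.rpow_neg hn2.le]; norm_num
  have hlog : 1 + Real.log n ≤ (n : ℝ) ^ (1 / 1000 : ℝ) := by linarith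
  set D0 : ℕ := ⌈(n : ℝ) ^ (1 / 4 : ℝ)⌉₊ with hD0
  have hD0le : (D0 : ℝ) ≤ 2 * (n : ℝ) ^ (1 / 4 : ℝ) := by
    have h3 := (Nat.ceil_lt_add_one (Real.rpow_nonneg hn2.le (1 / 4 : ℝ))).le
    have h4 : (1 : ℝ) ≤ (n : ℝ) ^ (1 / 4 : ℝ) := Real.one_le_rpow hn1 (by norm_num)
    linarith
  set F := (univ : Finset (Fin n × Fin n)).filter (fun v => 1 ≤ dd v ∧
      |(v.1.1 : ℝ) - (v.2.1 : ℝ)| < (dd v : ℝ) ^ (203 / 300 : ℝ)) with hF
  -- pointwise bound
  have hpt : ∀ v : Fin n × Fin n,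
      EE (tg q M) (fun x => psi n M v x * TT (tg q M) (1 / 2304) (psi n M v) x) ≤
      (if dd v < D0 then 1 else 0) + 2 * (n : ℝ) ^ (-8 : ℝ) +
      (if v ∈ F then (n : ℝ) ^ (5 / 1000 : ℝ) * (dd v : ℝ) ^ (-(39991 / 37500) : ℝ) else 0) := by
    intro v
    have hpos2 : 0 ≤ (n : ℝ) ^ (-8 : ℝ) := Real.rpow_nonneg hn2.le _
    have hpos3 : 0 ≤ (if v ∈ F then (n : ℝ) ^ (5 / 1000 : ℝ) *
        (dd v : ℝ) ^ (-(39991 / 37500) : ℝ) else 0) := by
      split_ifs
      · positivity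
      · exact le_rfl
    by_cases hd : dd v < D0
    · rw [if_pos hd]
      have := triv_le (M := M) h0 h1 v
      linarith
    · rw [if_neg hd]
      push Not at hd
      have hdn : (n : ℝ) ^ (1 / 4 : ℝ) ≤ dd v := (Nat.le_ceil _).trans (by exact_mod_cast hd)
      have hdd0 : d0 ≤ dd v := by exact_mod_cast a6.trans hdn
      have hd1 : 1 ≤ dd v := hd0.trans hdd0
      have hd1' : (1 : ℝ) ≤ dd v := by exact_mod_cast hd1
      have hd2 : (0 : ℝ) < dd v := by linarith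
      have hddn : (dd v : ℝ) ≤ n := by exact_mod_cast dd_lt v
      obtain ⟨H1, H2⟩ := H n v hdd0
      have hexp : Real.exp (-(dd v : ℝ) ^ c) ≤ (n : ℝ) ^ (-8 : ℝ) := by
        rw [Real.rpow_def_of_pos hn2]
        apply Real.exp_le_exp.2
        have h3 : (n : ℝ) ^ (c / 4) ≤ (dd v : ℝ) ^ c := by
          calc (n : ℝ) ^ (c / 4) = ((n : ℝ) ^ (1 / 4 : ℝ)) ^ c := by
                rw [← Real.rpow_mul hn2.le]; ring_nf
            _ ≤ (dd v : ℝ) ^ c := Real.rpow_le_rpow (by positivity) hdn hc.le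
        linarith
      by_cases hnear : |(v.1.1 : ℝ) - (v.2.1 : ℝ)| < (dd v : ℝ) ^ (203 / 300 : ℝ)
      · have hvF : v ∈ F := Finset.mem_filter.2 ⟨Finset.mem_univ _, hd1, hnear⟩
        rw [if_pos hvF]
        have hDpos : 0 ≤ (dd v : ℝ) ^ (-(2 / 3 : ℝ) + 1 / 100) := by positivity
        have hr : 4 * C * (M : ℝ) ^ 2 * (dd v : ℝ) ^ (-(2 / 3 : ℝ) + 1 / 100) +
            Real.exp (-(dd v : ℝ) ^ c) + ((n : ℝ) ^ (8 : ℕ))⁻¹ ≤
            (n : ℝ) ^ (3 / 1000 : ℝ) * (dd v : ℝ) ^ (-(2 / 3 : ℝ) + 1 / 100) := by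
          have h8 : (n : ℝ) ^ (-8 : ℝ) ≤ (dd v : ℝ) ^ (-(2 / 3 : ℝ) + 1 / 100) := by
            calc (n : ℝ) ^ (-8 : ℝ) ≤ (n : ℝ) ^ (-(2 / 3 : ℝ) + 1 / 100) :=
                  hmono _ _ (by norm_num)
              _ ≤ (dd v : ℝ) ^ (-(2 / 3 : ℝ) + 1 / 100) :=
                  Real.rpow_le_rpow_of_nonpos hd2 hddn (by norm_num)
          rw [hn8]
          calc _ ≤ 4 * C * (n : ℝ) ^ (2 / 1000 : ℝ) * (dd v : ℝ) ^ (-(2 / 3 : ℝ) + 1 / 100) +
                (dd v : ℝ) ^ (-(2 / 3 : ℝ) + 1 / 100) + (dd v : ℝ) ^ (-(2 / 3 : ℝ) + 1 / 100) := by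
                gcongr
                exact hexp.trans h8
            _ = (4 * C * (n : ℝ) ^ (2 / 1000 : ℝ) + 2) * (dd v : ℝ) ^ (-(2 / 3 : ℝ) + 1 / 100) := by
                ring
            _ ≤ (n : ℝ) ^ (3 / 1000 : ℝ) * (dd v : ℝ) ^ (-(2 / 3 : ℝ) + 1 / 100) := by
                gcongr
                have h9 : (1 : ℝ) ≤ (n : ℝ) ^ (2 / 1000 : ℝ) := Real.one_le_rpow hn1 (by norm_num)
                calc 4 * C * (n : ℝ) ^ (2 / 1000 : ℝ) + 2 ≤
                    (4 * C + 2) * (n : ℝ) ^ (2 / 1000 : ℝ) := by nlinarith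
                  _ ≤ (n : ℝ) ^ (1 / 1000 : ℝ) * (n : ℝ) ^ (2 / 1000 : ℝ) := by gcongr
                  _ = (n : ℝ) ^ (3 / 1000 : ℝ) := by rw [hadd]; norm_num
        have h3 := near_le h0 h1 (by omega) hM1 hq v C _ _ _ hC.le hDpos (Real.exp_pos _).le H1 hr
        have h4 : ((n : ℝ) ^ (3 / 1000 : ℝ) * (dd v : ℝ) ^ (-(2 / 3 : ℝ) + 1 / 100)) ^
            ((203 : ℝ) / 125) ≤ (n : ℝ) ^ (5 / 1000 : ℝ) * (dd v : ℝ) ^ (-(39991 / 37500) : ℝ) := by
          rw [Real.mul_rpow (by positivity) (by positivity), ← Real.rpow_mul hn2.le,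
            ← Real.rpow_mul hd2.le]
          have e1 : (-(2 / 3 : ℝ) + 1 / 100) * (203 / 125) = -(39991 / 37500) := by norm_num
          rw [e1]
          gcongr
          norm_num
        linarith
      · push Not at hnear
        have hMd : (M : ℝ) ≤ (dd v : ℝ) ^ (1 / 4 : ℝ) := by
          calc (M : ℝ) ≤ (n : ℝ) ^ (1 / 1000 : ℝ) := hMn
            _ ≤ (n : ℝ) ^ (1 / 4 * (1 / 4) : ℝ) := hmono _ _ (by norm_num)
            _ = ((n : ℝ) ^ (1 / 4 : ℝ)) ^ (1 / 4 : ℝ) := Real.rpow_mul hn2.le _ _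
            _ ≤ (dd v : ℝ) ^ (1 / 4 : ℝ) := Real.rpow_le_rpow (by positivity) hdn (by norm_num)
        have hfar : (dd v : ℝ) ^ (2 / 3 + 1 / 100 : ℝ) ≤ |(v.1.1 : ℝ) - (v.2.1 : ℝ)| := by
          have e1 : (2 / 3 + 1 / 100 : ℝ) = 203 / 300 := by norm_num
          rw [e1]; exact hnear
        have h3 := far_le (M := M) h0 h1 (by omega) hq v _ (Real.exp_pos _).le (H2 M hMd hfar)
        rw [hn8] at h3
        linarith
  -- summation
  refine (TM_noise_le h0 h1 (by norm_num) (by norm_num)).trans ?_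
  rw [← Finset.mul_sum]
  have hsum1 : ∑ v : Fin n × Fin n, (if dd v < D0 then (1 : ℝ) else 0) ≤
      8 * (n : ℝ) ^ (1 / 2 : ℝ) := by
    rw [← Finset.sum_filter, Finset.sum_const, nsmul_eq_mul, mul_one]
    calc (((univ : Finset (Fin n × Fin n)).filter (fun v => dd v < D0)).card : ℝ) ≤
        ((2 * D0 ^ 2 : ℕ) : ℝ) := by exact_mod_cast card_small D0
      _ = 2 * (D0 : ℝ) ^ 2 := by push_cast; ring
      _ ≤ 2 * (2 * (n : ℝ) ^ (1 / 4 : ℝ)) ^ 2 := by gcongr
      _ = 8 * ((n : ℝ) ^ (1 / 4 : ℝ) * (n : ℝ) ^ (1 / 4 : ℝ)) := by ring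
      _ = 8 * (n : ℝ) ^ (1 / 2 : ℝ) := by rw [hadd]; norm_num
  have hsum2 : ∑ v : Fin n × Fin n, 2 * (n : ℝ) ^ (-8 : ℝ) ≤ 2 := by
    rw [Finset.sum_const, nsmul_eq_mul]
    have : ((univ : Finset (Fin n × Fin n)).card : ℝ) = (n : ℝ) ^ (2 : ℝ) := by
      simp [pow_two]
    rw [this]
    calc (n : ℝ) ^ (2 : ℝ) * (2 * (n : ℝ) ^ (-8 : ℝ)) =
        2 * ((n : ℝ) ^ (2 : ℝ) * (n : ℝ) ^ (-8 : ℝ)) := by ring
      _ = 2 * (n : ℝ) ^ (2 + -8 : ℝ) := by rw [hadd]
      _ ≤ 2 * 1 := by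
          gcongr
          exact Real.rpow_le_one_of_one_le_of_nonpos hn1 (by norm_num)
      _ = 2 := by norm_num
  have hsum3 : ∑ v : Fin n × Fin n, (if v ∈ F then (n : ℝ) ^ (5 / 1000 : ℝ) *
      (dd v : ℝ) ^ (-(39991 / 37500) : ℝ) else 0) ≤ 6 * (n : ℝ) ^ (61624 / 100000 : ℝ) := by
    rw [Finset.sum_ite_mem, Finset.univ_inter, ← Finset.mul_sum]
    have h3 := sum_near (n := n) (203 / 300) (39991 / 37500) (by norm_num) (by norm_num)
    have e1 : (1 : ℝ) - (39991 / 37500 - 203 / 300) = 61024 / 100000 := by norm_num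
    rw [e1] at h3
    calc (n : ℝ) ^ (5 / 1000 : ℝ) * ∑ v ∈ F, (dd v : ℝ) ^ (-(39991 / 37500) : ℝ) ≤
        (n : ℝ) ^ (5 / 1000 : ℝ) * (6 * ((n : ℝ) ^ (61024 / 100000 : ℝ) * (1 + Real.log n))) := by
          gcongr
      _ ≤ (n : ℝ) ^ (5 / 1000 : ℝ) * (6 * ((n : ℝ) ^ (61024 / 100000 : ℝ) *
          (n : ℝ) ^ (1 / 1000 : ℝ))) := by gcongr
      _ = 6 * (((n : ℝ) ^ (5 / 1000 : ℝ) * (n : ℝ) ^ (61024 / 100000 : ℝ)) *
          (n : ℝ) ^ (1 / 1000 : ℝ)) := by ring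
      _ = 6 * (n : ℝ) ^ (61624 / 100000 : ℝ) := by rw [hadd, hadd]; norm_num
  have htot : ∑ v : Fin n × Fin n,
      EE (tg q M) (fun x => psi n M v x * TT (tg q M) (1 / 2304) (psi n M v) x) ≤
      16 * (n : ℝ) ^ (61624 / 100000 : ℝ) := by
    calc _ ≤ ∑ v : Fin n × Fin n, ((if dd v < D0 then (1 : ℝ) else 0) + 2 * (n : ℝ) ^ (-8 : ℝ) +
          (if v ∈ F then (n : ℝ) ^ (5 / 1000 : ℝ) *
            (dd v : ℝ) ^ (-(39991 / 37500) : ℝ) else 0)) := Finset.sum_le_sum fun v _ => hpt v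
      _ = ∑ v : Fin n × Fin n, (if dd v < D0 then (1 : ℝ) else 0) +
          ∑ v : Fin n × Fin n, 2 * (n : ℝ) ^ (-8 : ℝ) +
          ∑ v : Fin n × Fin n, (if v ∈ F then (n : ℝ) ^ (5 / 1000 : ℝ) *
            (dd v : ℝ) ^ (-(39991 / 37500) : ℝ) else 0) := by
          rw [Finset.sum_add_distrib, Finset.sum_add_distrib]
      _ ≤ 8 * (n : ℝ) ^ (1 / 2 : ℝ) + 2 + 6 * (n : ℝ) ^ (61624 / 100000 : ℝ) := by
          gcongr
      _ ≤ 8 * (n : ℝ) ^ (61624 / 100000 : ℝ) + 2 * (n : ℝ) ^ (61624 / 100000 : ℝ) +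
          6 * (n : ℝ) ^ (61624 / 100000 : ℝ) := by
          have h3 := hmono (1 / 2) (61624 / 100000) (by norm_num)
          have h4 : (1 : ℝ) ≤ (n : ℝ) ^ (61624 / 100000 : ℝ) := Real.one_le_rpow hn1 (by norm_num)
          linarith
      _ = _ := by ring
  calc (M : ℝ) ^ 2 * ∑ v : Fin n × Fin n,
      EE (tg q M) (fun x => psi n M v x * TT (tg q M) (1 / 2304) (psi n M v) x) ≤
      (n : ℝ) ^ (2 / 1000 : ℝ) * (16 * (n : ℝ) ^ (61624 / 100000 : ℝ)) := by
        refine mul_le_mul hM2 htot ?_ (by positivity)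
        refine Finset.sum_nonneg fun v _ => ?_
        have h3 := (noise_mono (tg q M) (tg_nonneg h0 h1 M) (tg_sum h1 M) (psi n M v) (1 / 2304)
          1 (by norm_num) (by norm_num)).1
        have h4 := sq_nonneg (EE (tg q M) (psi n M v))
        linarith
    _ ≤ (n : ℝ) ^ (2 / 1000 : ℝ) * ((n : ℝ) ^ (1 / 1000 : ℝ) *
        (n : ℝ) ^ (61624 / 100000 : ℝ)) := by gcongr
    _ = (n : ℝ) ^ (2 / 1000 + (1 / 1000 + 61624 / 100000) : ℝ) := by rw [hadd, hadd]
    _ ≤ (n : ℝ) ^ ((2 / 3 : ℝ) - 1 / 25) := hmono _ _ (by norm_num)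

end Pool.Agent.MP2c
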