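import Pool.Agent.Work.MP_2c6138_pr.Bd.B04
import Pool.Agent.Work.MP_2c6138_pr.Bd.B01

/-! Lower bound for the variance from the key estimate. (helper80 for helper96, MP_2c6138_pr) -/

set_option autoImplicit false
set_option linter.unusedSectionVars false
set_option linter.unusedVariables false

namespace Pool.Agent.MP2c

open MeasureTheory Finset ProbabilityTheory
open scoped ENNReal

namespace VL

theorem bb_eq (m N : ℕ) : bb m N = Ioc 0 N ×ˢ Ioc 0 m := by
  ext p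
  rw [mem_bb, mem_product, mem_Ioc, mem_Ioc]
  omega

theorem dep_GG (m N : ℕ) : Dep (bb m N) (fun e => GG (bz e) N m) := by
  intro e e' h
  simp only
  rw [GG_bz, GG_bz]
  refine cmax_congr (fun p hp => h p ?_)
  rwa [bb_eq]

section
variable {Ω : Type} [MeasurableSpace Ω] [DiscreteMeasurableSpace Ω]

theorem LT_of_law {P : Measure Ω} {W : Ω → ℕ × ℕ → ℕ} {m N : ℕ} {q : ℝ} (t : ℝ)
    (hW : EnvLaw P (bb m N) (fun _ => q) W) :
    P {ω | t ≤ (GG (bz (W ω)) N m : ℝ)} = LT q m N t := by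
  classical
  have h := hW.lintegral_same (envLaw_pi (bb m N) (fun _ => q))
    (fun e => if t ≤ (GG (bz e) N m : ℝ) then 1 else 0) (by
      intro e e' he
      have := dep_GG m N e e' he
      simp only at this ⊢
      rw [this])
  rw [lint_ite, lint_ite] at h
  exact h
end

theorem LT_mono (q : ℝ) (m N : ℕ) {t t' : ℝ} (h : t ≤ t') : LT q m N t' ≤ LT q m N t := by
  refine measure_mono (fun x hx => ?_)
  exact h.trans hx

theorem LT_swap (q : ℝ) (m N : ℕ) (t : ℝ) : LT q m N t = LT q N m t := by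
  have h1 := envLaw_pi (bb m N) (fun _ => q)
  have himg : (bb N m).image Prod.swap = bb m N := by
    ext p
    simp only [mem_image, mem_bb]
    constructor
    · rintro ⟨a, h, rfl⟩
      simp only [Prod.fst_swap, Prod.snd_swap]
      tauto
    · intro h
      exact ⟨p.swap, by simp only [Prod.fst_swap, Prod.snd_swap]; tauto, by simp⟩
  have h2 : EnvLaw (Measure.pi (fun _ : ↥(bb m N) => geo q)) (bb N m) (fun _ => q)
      (fun x p => ext (bb m N) x p.swap) :=
    EnvLaw.rename (S' := bb N m) (ren := Prod.swap) (θ := fun _ => q)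
      (E := fun x : ↥(bb m N) → ℕ => ext (bb m N) x) Prod.swap_injective (himg.symm ▸ h1)
  rw [← LT_of_law t h2, LT]
  congr 1
  ext x
  simp only [Set.mem_ofPred_eq]
  rw [GG_bz, GG_bz, cmax_swap]

theorem LT_super (q : ℝ) (hq0 : 0 ≤ q) (hq1 : q < 1) (m N m' N' : ℕ) (t t' : ℝ) :
    LT q m N t * LT q m' N' t' ≤ LT q (m + m') (N + N') (t + t') := by
  classical
  set S := bb (m + m') (N + N') with hS
  have h := envLaw_pi S (fun _ => q)
  have hθ : ∀ p ∈ S, 0 ≤ (fun _ : ℕ × ℕ => q) p ∧ (fun _ : ℕ × ℕ => q) p < 1 := fun _ _ => ⟨hq0, hq1⟩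
  set S1 := bb m N with hS1
  set S2 := (bb m' N').image (fun p : ℕ × ℕ => (N + p.1, m + p.2)) with hS2
  have hS2' : S2 = Ioc N (N + N') ×ˢ Ioc m (m + m') := by
    ext p
    simp only [hS2, mem_image, mem_bb, mem_product, mem_Ioc]
    constructor
    · rintro ⟨a, h, rfl⟩
      simp only
      omega
    · intro h
      exact ⟨(p.1 - N, p.2 - m), by simp only; omega, by ext <;> simp only <;> omega⟩
  have h1 : S1 ⊆ S := by
    intro p hp
    rw [hS1, mem_bb] at hp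
    rw [hS, mem_bb]
    omega
  have h2 : S2 ⊆ S := by
    intro p hp
    rw [hS2', mem_product, mem_Ioc, mem_Ioc] at hp
    rw [hS, mem_bb]
    omega
  have hd : Disjoint S1 S2 := by
    rw [Finset.disjoint_left]
    intro p hp hp2
    rw [hS2', mem_product, mem_Ioc, mem_Ioc] at hp2
    rw [hS1, mem_bb] at hp
    omega
  have hl1 := h.subset h1 hθ
  have hl2 := h.subset h2 hθ
  have hl2' : EnvLaw (Measure.pi (fun _ : ↥S => geo q)) (bb m' N') (fun _ => q)
      (fun x p => ext S x (N + p.1, m + p.2)) :=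
    EnvLaw.rename (S' := bb m' N') (ren := fun p : ℕ × ℕ => (N + p.1, m + p.2)) (θ := fun _ => q)
      (E := fun x : ↥S → ℕ => ext S x) (by
        intro a b hab
        simp only [Prod.mk.injEq] at hab
        ext <;> omega) hl2
  have key := h.indep hθ h1 h2 hd (fun e => if t ≤ (cmax e 0 N 0 m : ℝ) then 1 else 0)
    (fun e => if t' ≤ (cmax e N (N + N') m (m + m') : ℝ) then 1 else 0) (by
      intro e e' he
      simp only
      rw [cmax_congr (fun p hp => he p (by rwa [hS1, bb_eq]))])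
    (by
      intro e e' he
      simp only
      rw [cmax_congr (fun p hp => he p (by rwa [hS2']))])
  rw [lint_ite, lint_ite] at key
  have e1 : (Measure.pi (fun _ : ↥S => geo q)) {x | t ≤ (cmax (ext S x) 0 N 0 m : ℝ)} = LT q m N t := by
    rw [← LT_of_law t hl1]
    congr 1
    ext x
    simp only [Set.mem_ofPred_eq]
    rw [GG_bz]
  have e2 : (Measure.pi (fun _ : ↥S => geo q))
      {x | t' ≤ (cmax (ext S x) N (N + N') m (m + m') : ℝ)} = LT q m' N' t' := by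
    rw [← LT_of_law t' hl2']
    congr 1
    ext x
    simp only [Set.mem_ofPred_eq]
    rw [GG_bz, cmax_shift]
    simp
  rw [e1, e2] at key
  rw [← key, ← LT_of_law (t + t') h, ← lint_ite]
  refine lintegral_mono (fun x => ?_)
  simp only
  split_ifs with a1 a2 a3 a3 <;> simp only [mul_one, mul_zero, zero_le, le_refl]
  · exfalso
    apply a3
    rw [GG_bz]
    have := cmax_add (ext S x) (a := 0) (b := N) (b' := N + N') (c := 0) (d := m) (d1 := m)
      (d' := m + m') (by omega) (by omega) (by omega) (by omega) (by omega)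
    have h3 : ((cmax (ext S x) 0 N 0 m : ℕ) : ℝ) + (cmax (ext S x) N (N + N') m (m + m') : ℕ) ≤
        (cmax (ext S x) 0 (N + N') 0 (m + m') : ℕ) := by exact_mod_cast this
    linarith

theorem LT_zero (q : ℝ) (hq0 : 0 ≤ q) (hq1 : q < 1) (m N : ℕ) {t : ℝ} (ht : t ≤ 0) :
    LT q m N t = 1 := by
  have : IsProbabilityMeasure (geo q) := isProbabilityMeasure_geo q hq0 hq1
  rw [LT]
  have : {x : ↥(bb m N) → ℕ | t ≤ (GG (bz (ext (bb m N) x)) N m : ℝ)} = Set.univ := by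
    ext x
    simp only [Set.mem_ofPred_eq, Set.mem_univ, iff_true]
    exact ht.trans (Nat.cast_nonneg _)
  rw [this]
  simp

theorem LT_le_one (q : ℝ) (hq0 : 0 ≤ q) (hq1 : q < 1) (m N : ℕ) (t : ℝ) : LT q m N t ≤ 1 := by
  have : IsProbabilityMeasure (geo q) := isProbabilityMeasure_geo q hq0 hq1
  exact prob_le_one

theorem LT_pos (q : ℝ) (hq0 : 0 < q) (hq1 : q < 1) (m N : ℕ) (hm : 1 ≤ m) (hN : 1 ≤ N) (t : ℝ) :
    0 < LT q m N t := by
  set k := ⌈t⌉₊ with hk
  have h := envLaw_pi (bb m N) (fun _ => q) (fun _ => k)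
  have h1 : 0 < ∏ p ∈ bb m N, geo ((fun _ : ℕ × ℕ => q) p) {(fun _ => k) p} := by
    rw [pos_iff_ne_zero, Finset.prod_ne_zero_iff]
    intro p _
    rw [geo_singleton, ← pos_iff_ne_zero, ENNReal.ofReal_pos]
    have : 0 < 1 - q := by linarith
    positivity
  rw [← h] at h1
  refine h1.trans_le (measure_mono (fun x hx => ?_))
  simp only [Set.mem_ofPred_eq] at hx ⊢
  rw [GG_bz]
  have h11 : ((1, 1) : ℕ × ℕ) ∈ bb m N := by rw [mem_bb]; simp only; omega
  have h2 := le_cmax (ext (bb m N) x) 0 N 0 m (S := {(1, 1)}) (by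
    rw [singleton_subset_iff, ← bb_eq]; exact h11) (by simp)
  rw [sum_singleton, hx _ h11] at h2
  have h3 : t ≤ (k : ℝ) := Nat.le_ceil t
  exact h3.trans (by exact_mod_cast h2)

/-! ### the mean -/

theorem bz_le (e : ℕ × ℕ → ℕ) (p : ℕ × ℕ) : bz e p ≤ e p := by
  simp only [bz]; split_ifs <;> simp

theorem mgf_Tch (s : ℝ) (hs0 : 0 < s) (hs1 : s < 1) (n : ℕ) (τ : ℝ) (hτ0 : 0 < τ)
    (hτ : s * Real.exp (τ / 2) < 1) :
    ∫⁻ x : Fin n × Fin n → ℕ, ENNReal.ofReal (Real.exp (τ * Tch x))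
      ∂(Measure.pi (fun _ : Fin n × Fin n => geo (s ^ 2))) ≤
    ENNReal.ofReal (((1 - s * Real.exp (-(τ / 2))) / (1 - s * Real.exp (τ / 2))) ^ (2 * n)) := by
  set α := s * Real.exp (-(τ / 2)) with hα
  set u := Real.exp τ with hu
  have hα0 : 0 < α := by positivity
  have hexp1 : Real.exp (-(τ / 2)) < 1 := by rw [Real.exp_lt_one_iff]; linarith
  have hα1 : α < 1 := by
    have : α < s * 1 := by rw [hα]; exact mul_lt_mul_of_pos_left hexp1 hs0
    linarith
  have hαu : α * u = s * Real.exp (τ / 2) := by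
    rw [hα, hu, mul_assoc, ← Real.exp_add]; congr 2; ring
  have hαuα : α * u * α = s ^ 2 := by
    rw [hαu, hα, mul_mul_mul_comm, ← Real.exp_add]
    have : τ / 2 + -(τ / 2) = 0 := by ring
    rw [this, Real.exp_zero]; ring
  set θ := sth α (fun _ => α) (fun _ => s ^ 2) with hθ
  have hs2 : s ^ 2 < 1 := by nlinarith
  have h01 : ∀ p ∈ bx n n, 0 ≤ θ p ∧ θ p < 1 := fun p _ =>
    sth_mem01 hα0.le hα1 (fun _ => hα0.le) (fun _ => hα1) (fun _ => by positivity)
      (fun _ => hs2) p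
  have hcan := envLaw_pi (bx n n) θ
  have h1 : EnvLaw (Measure.pi (fun p : ↥(bx n n) => geo (θ p))) (bb n n) (fun _ => s ^ 2)
      (fun x => ext (bx n n) x) := by
    refine (hcan.subset (filter_subset _ _) h01).congr' (fun _ _ _ => rfl) (fun p hp => ?_)
    change p ∈ bb n n at hp
    rw [mem_bb] at hp
    have h2 : p.1 ≠ 0 := by omega
    have h3 : p.2 ≠ 0 := by omega
    simp [hθ, sth, h2, h3]
  have hsame := (envLaw_WA n (s ^ 2)).lintegral_same h1
    (fun e => ENNReal.ofReal (u ^ (GG (bz e) n n))) (by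
      intro e e' he
      have := dep_GG n n e e' he
      simp only at this ⊢
      rw [this])
  have hcan' : EnvLaw (Measure.pi (fun p : ↥(bx n n) => geo (θ p))) (bx n n)
      (sth α (fun _ => α) (fun j => α * u * (fun _ => α) j)) (fun x => ext (bx n n) x) := by
    have : (fun j : ℕ => α * u * (fun _ => α) j) = (fun _ => s ^ 2) := by
      funext j; exact hαuα
    rw [this]; exact hcan
  have hm := mgf_GG n n α u (fun _ => α) (Real.exp_pos _) hα0.le hα1 (by rw [hαu]; exact hτ)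
    (fun _ => hα0.le) (fun _ => hα1) (fun _ => by rw [hαu]; exact hτ) hcan'
  calc ∫⁻ x : Fin n × Fin n → ℕ, ENNReal.ofReal (Real.exp (τ * Tch x))
      ∂(Measure.pi (fun _ : Fin n × Fin n => geo (s ^ 2)))
      = ∫⁻ x : Fin n × Fin n → ℕ, ENNReal.ofReal (u ^ (GG (bz (WA x)) n n))
      ∂(Measure.pi (fun _ : Fin n × Fin n => geo (s ^ 2))) := by
        refine lintegral_congr (fun x => ?_)
        rw [Tch_eq, mul_comm, Real.exp_nat_mul]
    _ = _ := hsame
    _ ≤ ∫⁻ x, ENNReal.ofReal (u ^ (GG (ext (bx n n) x) n n))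
        ∂(Measure.pi (fun p : ↥(bx n n) => geo (θ p))) := by
        refine lintegral_mono (fun x => ENNReal.ofReal_le_ofReal ?_)
        have hu1 : 1 ≤ u := by rw [hu]; exact Real.one_le_exp hτ0.le
        exact pow_le_pow_right₀ hu1 (GG_mono (bz_le _) n n)
    _ = _ := hm
    _ = _ := by
        congr 1
        rw [hαu, prod_const, card_range, ← pow_add]
        congr 1
        omega

theorem mean_le_aux {Ω : Type} [MeasurableSpace Ω] (P : Measure Ω) [IsProbabilityMeasure P]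
    (T : Ω → ℝ) (hT : Integrable T P) (hTm : Measurable T) (τ a : ℝ) (hτ : 0 < τ)
    (h : ∫⁻ ω, ENNReal.ofReal (Real.exp (τ * T ω)) ∂P ≤ ENNReal.ofReal (Real.exp a)) :
    τ * ∫ ω, T ω ∂P ≤ a := by
  have hm : Measurable (fun ω => Real.exp (τ * T ω)) := by fun_prop
  have hint : Integrable (fun ω => Real.exp (τ * T ω)) P := by
    refine ⟨hm.aestronglyMeasurable, ?_⟩
    rw [hasFiniteIntegral_iff_norm]
    have : ∀ ω, ENNReal.ofReal ‖Real.exp (τ * T ω)‖ = ENNReal.ofReal (Real.exp (τ * T ω)) := by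
      intro ω; rw [Real.norm_of_nonneg (Real.exp_pos _).le]
    simp only [this]
    exact h.trans_lt ENNReal.ofReal_lt_top
  have h1 : ∫ ω, Real.exp (τ * T ω) ∂P ≤ Real.exp a := by
    rw [← ofReal_integral_eq_lintegral_ofReal hint
      (Filter.Eventually.of_forall (fun ω => (Real.exp_pos _).le))] at h
    exact (ENNReal.ofReal_le_ofReal_iff (Real.exp_pos _).le).1 h
  have h2 : ∫ ω, (Real.exp a * (1 - a) + Real.exp a * τ * T ω) ∂P ≤ ∫ ω, Real.exp (τ * T ω) ∂P := by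
    refine integral_mono ((integrable_const _).add (hT.const_mul _)) hint (fun ω => ?_)
    have := Real.add_one_le_exp (τ * T ω - a)
    calc Real.exp a * (1 - a) + Real.exp a * τ * T ω = Real.exp a * (1 + (τ * T ω - a)) := by ring
      _ ≤ Real.exp a * Real.exp (τ * T ω - a) := by
          refine mul_le_mul_of_nonneg_left ?_ (Real.exp_pos _).le
          linarith
      _ = Real.exp (τ * T ω) := by rw [← Real.exp_add]; congr 1; ring
  have h3 : ∫ ω, (Real.exp a * (1 - a) + Real.exp a * τ * T ω) ∂P =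
      Real.exp a * (1 + (τ * ∫ ω, T ω ∂P - a)) := by
    have h4 : ∫ ω, Real.exp a * τ * T ω ∂P = Real.exp a * τ * ∫ ω, T ω ∂P :=
      integral_const_mul _ _
    rw [integral_add (integrable_const _) (hT.const_mul _), h4]
    simp
    ring
  rw [h3] at h2
  have h4 := h2.trans h1
  have h5 : 1 + (τ * ∫ ω, T ω ∂P - a) ≤ 1 := by
    by_contra hcon
    push Not at hcon
    have := mul_lt_mul_of_pos_left hcon (Real.exp_pos a)
    rw [mul_one] at this
    linarith
  linarith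

theorem measurable_Tch {n : ℕ} : Measurable (fun x : Fin n × Fin n → ℕ => (Tch x : ℝ)) :=
  Measurable.of_discrete

theorem integrable_Tch_sq (s : ℝ) (hs0 : 0 < s) (hs1 : s < 1) (n : ℕ) :
    MemLp (fun x : Fin n × Fin n → ℕ => (Tch x : ℝ)) 2
      (Measure.pi (fun _ : Fin n × Fin n => geo (s ^ 2))) := by
  have hprob : IsProbabilityMeasure (geo (s ^ 2)) :=
    isProbabilityMeasure_geo _ (by positivity) (by nlinarith)
  obtain ⟨c, C, t0, hc, hC, ht0, hcb⟩ := cube_bound s hs0 hs1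
  obtain ⟨h1, -, -⟩ := hcb t0 ht0 le_rfl
  have hm := mgf_Tch s hs0 hs1 n t0 ht0 h1
  rw [memLp_two_iff_integrable_sq measurable_Tch.aestronglyMeasurable]
  have hint : Integrable (fun x : Fin n × Fin n → ℕ => Real.exp (t0 * Tch x))
      (Measure.pi (fun _ : Fin n × Fin n => geo (s ^ 2))) := by
    refine ⟨(Measurable.of_discrete).aestronglyMeasurable, ?_⟩
    rw [hasFiniteIntegral_iff_norm]
    have : ∀ x : Fin n × Fin n → ℕ, ENNReal.ofReal ‖Real.exp (t0 * Tch x)‖ =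
        ENNReal.ofReal (Real.exp (t0 * Tch x)) := by
      intro ω; rw [Real.norm_of_nonneg (Real.exp_pos _).le]
    simp only [this]
    exact hm.trans_lt ENNReal.ofReal_lt_top
  refine (hint.const_mul (2 / t0 ^ 2)).mono' (Measurable.of_discrete).aestronglyMeasurable
    (Filter.Eventually.of_forall (fun x => ?_))
  rw [Real.norm_of_nonneg (by positivity)]
  have h2 := Real.quadratic_le_exp_of_nonneg (x := t0 * Tch x) (by positivity)
  have h3 : (t0 * Tch x) ^ 2 / 2 ≤ Real.exp (t0 * Tch x) := by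
    have : 0 ≤ t0 * (Tch x : ℝ) := by positivity
    linarith
  rw [div_mul_eq_mul_div, le_div_iff₀ (by positivity)]
  nlinarith

theorem mean_le (s : ℝ) (hs0 : 0 < s) (hs1 : s < 1) (n : ℕ) :
    ∫ x : Fin n × Fin n → ℕ, (Tch x : ℝ) ∂(Measure.pi (fun _ : Fin n × Fin n => geo (s ^ 2))) ≤
      2 * s / (1 - s) * n := by
  have hprob : IsProbabilityMeasure (geo (s ^ 2)) :=
    isProbabilityMeasure_geo _ (by positivity) (by nlinarith)
  obtain ⟨c, C, t0, hc, hC, ht0, hcb⟩ := cube_bound s hs0 hs1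
  have hI : Integrable (fun x : Fin n × Fin n → ℕ => (Tch x : ℝ))
      (Measure.pi (fun _ : Fin n × Fin n => geo (s ^ 2))) :=
    (integrable_Tch_sq s hs0 hs1 n).integrable (by norm_num)
  have key : ∀ τ : ℝ, 0 < τ → τ ≤ t0 →
      ∫ x : Fin n × Fin n → ℕ, (Tch x : ℝ) ∂(Measure.pi (fun _ : Fin n × Fin n => geo (s ^ 2))) ≤
        2 * s / (1 - s) * n + 2 * n * C * τ ^ 2 := by
    intro τ hτ0 hτ
    obtain ⟨h1, -, h3⟩ := hcb τ hτ0 hτ
    have hm := mgf_Tch s hs0 hs1 n τ hτ0 h1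
    set r := (1 - s * Real.exp (-(τ / 2))) / (1 - s * Real.exp (τ / 2)) with hr
    have hexp1 : Real.exp (-(τ / 2)) < 1 := by rw [Real.exp_lt_one_iff]; linarith
    have hr0 : 0 < r := by
      refine div_pos ?_ (by linarith)
      have := mul_lt_mul_of_pos_left hexp1 hs0
      linarith
    have h4 : r ^ (2 * n) ≤ Real.exp (((2 * n : ℕ) : ℝ) * (s / (1 - s) * τ + C * τ ^ 3)) := by
      rw [Real.exp_nat_mul]
      refine pow_le_pow_left₀ hr0.le ?_ _
      rw [← Real.log_le_iff_le_exp hr0]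
      exact h3
    have h5 := mean_le_aux _ _ hI measurable_Tch τ _ hτ0 (hm.trans (ENNReal.ofReal_le_ofReal h4))
    push_cast at h5
    have h6 : τ * ∫ x : Fin n × Fin n → ℕ, (Tch x : ℝ)
        ∂(Measure.pi (fun _ : Fin n × Fin n => geo (s ^ 2))) ≤
        τ * (2 * s / (1 - s) * n + 2 * n * C * τ ^ 2) := by
      refine h5.trans (le_of_eq ?_)
      ring
    exact le_of_mul_le_mul_left h6 hτ0
  refine le_of_forall_pos_le_add (fun δ hδ => ?_)
  have hX : 0 < 2 * n * C + 1 := by positivity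
  set τ := min t0 (min 1 (δ / (2 * n * C + 1))) with hτ
  have hτ0 : 0 < τ := lt_min ht0 (lt_min one_pos (by positivity))
  have hτ1 : τ ≤ 1 := (min_le_right _ _).trans (min_le_left _ _)
  have hτ2 : τ ≤ δ / (2 * n * C + 1) := (min_le_right _ _).trans (min_le_right _ _)
  have h1 := key τ hτ0 (min_le_left _ _)
  refine h1.trans (add_le_add le_rfl ?_)
  have h2 : τ ^ 2 ≤ τ := by nlinarith
  calc 2 * n * C * τ ^ 2 ≤ (2 * n * C + 1) * τ := by
        have : 0 ≤ 2 * (n : ℝ) * C := by positivity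
        nlinarith
    _ ≤ (2 * n * C + 1) * (δ / (2 * n * C + 1)) := mul_le_mul_of_nonneg_left hτ2 hX.le
    _ = δ := by field_simp

/-! ### the lower bound for the upper tail -/

theorem fin_lower {f : ℕ → ℝ≥0∞} (h0 : ∀ n, 1 ≤ n → 0 < f n) (h1 : ∀ n, f n ≤ 1) (K : ℕ) :
    ∃ c : ℝ, 0 < c ∧ c ≤ 1 ∧ ∀ n, 1 ≤ n → n ≤ K → ENNReal.ofReal c ≤ f n := by
  induction K with
  | zero => exact ⟨1, one_pos, le_rfl, fun n h1 h2 => by omega⟩
  | succ K ih =>
    obtain ⟨c, hc0, hc1, hc⟩ := ih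
    have hfin : f (K + 1) ≠ ⊤ := ((h1 (K + 1)).trans_lt ENNReal.one_lt_top).ne
    refine ⟨min c (f (K + 1)).toReal, lt_min hc0 (ENNReal.toReal_pos (h0 _ (by omega)).ne' hfin),
      (min_le_left _ _).trans hc1, fun n hn1 hn2 => ?_⟩
    rcases Nat.lt_or_ge K n with h | h
    · obtain rfl : n = K + 1 := by omega
      rw [← ENNReal.ofReal_toReal hfin]
      refine ENNReal.ofReal_le_ofReal ?_
      rw [ENNReal.ofReal_toReal hfin]
      exact min_le_right _ _
    · exact (ENNReal.ofReal_le_ofReal (min_le_left _ _)).trans (hc n hn1 h)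

theorem growth (a b : ℝ) (ha0 : 0 ≤ a) (hab : a < b) :
    ∃ N0 : ℕ, ∀ N : ℕ, N0 ≤ N → 1 + (N : ℝ) ^ a ≤ (N : ℝ) ^ b := by
  have h := (tendsto_rpow_atTop (sub_pos.2 hab)).comp tendsto_natCast_atTop_atTop
  obtain ⟨N0, hN0⟩ := Filter.eventually_atTop.1 (h.eventually_ge_atTop 2)
  refine ⟨max N0 1, fun N hN => ?_⟩
  have h1 : 1 ≤ N := (le_max_right _ _).trans hN
  have hN' : (0 : ℝ) < N := by exact_mod_cast h1
  have h2 := hN0 N ((le_max_left _ _).trans hN)
  simp only [Function.comp_apply] at h2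
  have h3 : (N : ℝ) ^ b = (N : ℝ) ^ a * (N : ℝ) ^ (b - a) := by
    rw [← Real.rpow_add hN']; congr 1; ring
  have h4 : 1 ≤ (N : ℝ) ^ a := Real.one_le_rpow (by exact_mod_cast h1) ha0
  rw [h3]
  nlinarith

theorem step (s : ℝ) (hs0 : 0 < s) (hs1 : s < 1) (hk : KeyZ s) (ε : ℝ) (hε0 : 0 < ε)
    (hε1 : ε ≤ 1 / 24) :
    ∃ N1 : ℕ, 2 ≤ N1 ∧ ∀ N : ℕ, N1 ≤ N → ∃ R : ℕ, R < N ∧ (R : ℝ) ≤ (N : ℝ) ^ (3 / 4 : ℝ) ∧
      ENNReal.ofReal ((N : ℝ) ^ (-(2 * ε))) * LT (s ^ 2) R R (2 * s / (1 - s) * R) ≤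
        LT (s ^ 2) N N (2 * s / (1 - s) * N + (N : ℝ) ^ (1 / 3 : ℝ)) := by
  obtain ⟨n0, hn0⟩ := hk ε hε0
  obtain ⟨N2, hN2⟩ := growth (17 / 24) (3 / 4) (by norm_num) (by norm_num)
  have hq0 : (0 : ℝ) ≤ s ^ 2 := by positivity
  have hq1 : s ^ 2 < 1 := by nlinarith
  refine ⟨max (2 * n0 + 2) N2, by omega, fun N hN => ?_⟩
  have hN1 : 2 * n0 + 2 ≤ N := (le_max_left _ _).trans hN
  have hN3 := hN2 N ((le_max_right _ _).trans hN)
  set n := N / 2 with hn
  have hnn0 : n0 ≤ n := by omega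
  have hn1 : 1 ≤ n := by omega
  have hnN : n ≤ N := by omega
  have hn8 : N ≤ 8 * n := by omega
  obtain ⟨z, hz1, hz2, hz3⟩ := hn0 n hnn0
  have hnpos : (0 : ℝ) < n := by exact_mod_cast hn1
  have hNpos : (0 : ℝ) < N := by exact_mod_cast (by omega : 0 < N)
  have hN1' : (1 : ℝ) ≤ N := by exact_mod_cast (by omega : 1 ≤ N)
  have hn1' : (1 : ℝ) ≤ n := by exact_mod_cast hn1
  have hnN' : (n : ℝ) ≤ N := by exact_mod_cast hnN
  set R := N - (n - z + n) with hR
  have hRN : R < N := by omega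
  have hRz : R ≤ 1 + z := by omega
  have hR2 : (R : ℝ) ≤ (N : ℝ) ^ (3 / 4 : ℝ) := by
    have h1 : (R : ℝ) ≤ 1 + z := by exact_mod_cast hRz
    have h2 : (n : ℝ) ^ (2 / 3 + ε : ℝ) ≤ (N : ℝ) ^ (17 / 24 : ℝ) := by
      calc (n : ℝ) ^ (2 / 3 + ε : ℝ) ≤ (n : ℝ) ^ (17 / 24 : ℝ) :=
            Real.rpow_le_rpow_of_exponent_le hn1' (by linarith)
        _ ≤ (N : ℝ) ^ (17 / 24 : ℝ) := Real.rpow_le_rpow hnpos.le hnN' (by norm_num)
    linarith
  refine ⟨R, hRN, hR2, ?_⟩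
  set γ := 2 * s / (1 - s) with hγ
  set T := γ * ((n : ℝ) - z / 2) + (n : ℝ) ^ (1 / 3 : ℝ) with hT
  have h1 := LT_super (s ^ 2) hq0 hq1 (n - z) n n (n - z) T T
  have h2 := LT_super (s ^ 2) hq0 hq1 (n - z + n) (n + (n - z)) R R (T + T) (γ * R)
  have e1 : n - z + n + R = N := by omega
  have e2 : n + (n - z) + R = N := by omega
  rw [e1, e2] at h2
  have h3 : ENNReal.ofReal ((N : ℝ) ^ (-(2 * ε))) ≤
      LT (s ^ 2) (n - z) n T * LT (s ^ 2) n (n - z) T := by
    rw [LT_swap (s ^ 2) n (n - z)]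
    have h4 : ENNReal.ofReal ((N : ℝ) ^ (-ε)) ≤ LT (s ^ 2) (n - z) n T := by
      refine le_trans (ENNReal.ofReal_le_ofReal ?_) hz3
      exact Real.rpow_le_rpow_of_nonpos hnpos hnN' (by linarith)
    have h5 : (N : ℝ) ^ (-(2 * ε)) = (N : ℝ) ^ (-ε) * (N : ℝ) ^ (-ε) := by
      rw [← Real.rpow_add hNpos]; congr 1; ring
    rw [h5, ENNReal.ofReal_mul (by positivity)]
    exact mul_le_mul' h4 h4
  have h6 : γ * N + (N : ℝ) ^ (1 / 3 : ℝ) ≤ T + T + γ * R := by
    have h7 : (R : ℝ) = N - (2 * n - z) := by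
      have : R + (n - z + n) = N := by omega
      have h8 : (R : ℝ) + ((n - z : ℕ) + n) = N := by exact_mod_cast this
      rw [Nat.cast_sub hz1.le] at h8
      linarith
    have h8 : (N : ℝ) ^ (1 / 3 : ℝ) ≤ 2 * (n : ℝ) ^ (1 / 3 : ℝ) := by
      have h9 : (8 : ℝ) ^ (1 / 3 : ℝ) = 2 := by
        rw [show (8 : ℝ) = 2 ^ (3 : ℝ) by norm_num, ← Real.rpow_mul (by norm_num)]
        norm_num
      rw [← h9, ← Real.mul_rpow (by norm_num) hnpos.le]
      exact Real.rpow_le_rpow hNpos.le (by exact_mod_cast hn8) (by norm_num)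
    rw [hT, h7]
    nlinarith
  calc _ ≤ (LT (s ^ 2) (n - z) n T * LT (s ^ 2) n (n - z) T) * LT (s ^ 2) R R (γ * R) :=
        mul_le_mul_left h3 _
    _ ≤ LT (s ^ 2) (n - z + n) (n + (n - z)) (T + T) * LT (s ^ 2) R R (γ * R) :=
        mul_le_mul_left h1 _
    _ ≤ _ := h2
    _ ≤ _ := LT_mono _ _ _ h6

theorem tail_lower (s : ℝ) (hs0 : 0 < s) (hs1 : s < 1) (hk : KeyZ s) (ε : ℝ) (hε : 0 < ε) :
    ∃ (c : ℝ) (N1 : ℕ), 0 < c ∧ 1 ≤ N1 ∧ ∀ N : ℕ, N1 ≤ N →
      ENNReal.ofReal (c * (N : ℝ) ^ (-ε)) ≤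
        LT (s ^ 2) N N (2 * s / (1 - s) * N + (N : ℝ) ^ (1 / 3 : ℝ)) := by
  set ε' := min (ε / 8) (1 / 24) with hε'
  have hε'0 : 0 < ε' := lt_min (by positivity) (by norm_num)
  have hε'1 : ε' ≤ ε / 8 := min_le_left _ _
  obtain ⟨N1, hN1, hstep⟩ := step s hs0 hs1 hk ε' hε'0 (min_le_right _ _)
  have hq0 : (0 : ℝ) < s ^ 2 := by positivity
  have hq1 : s ^ 2 < 1 := by nlinarith
  set γ := 2 * s / (1 - s) with hγ
  have hγ0 : 0 ≤ γ := div_nonneg (by positivity) (by linarith)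
  obtain ⟨c, hc0, hc1, hc⟩ := fin_lower (f := fun N => LT (s ^ 2) N N (γ * N))
    (fun N hN => LT_pos _ hq0 hq1 N N hN hN _) (fun N => LT_le_one _ hq0.le hq1 _ _ _) N1
  -- one step of the induction
  have hone : ∀ N : ℕ, N1 ≤ N → (∀ R : ℕ, 1 ≤ R → R < N →
      ENNReal.ofReal (c * (R : ℝ) ^ (-ε)) ≤ LT (s ^ 2) R R (γ * R)) →
      ENNReal.ofReal (c * (N : ℝ) ^ (-ε)) ≤ LT (s ^ 2) N N (γ * N + (N : ℝ) ^ (1 / 3 : ℝ)) := by
    intro N hN ih
    obtain ⟨R, hR1, hR2, hR3⟩ := hstep N hN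
    have hNpos : (0 : ℝ) < N := by exact_mod_cast (by omega : 0 < N)
    have hN1' : (1 : ℝ) ≤ N := by exact_mod_cast (by omega : 1 ≤ N)
    refine le_trans ?_ hR3
    have h1 : ENNReal.ofReal (c * (N : ℝ) ^ (-(3 / 4 * ε))) ≤ LT (s ^ 2) R R (γ * R) := by
      rcases Nat.eq_zero_or_pos R with h0 | h0
      · subst h0
        rw [LT_zero _ hq0.le hq1 _ _ (by simp)]
        rw [← ENNReal.ofReal_one]
        refine ENNReal.ofReal_le_ofReal ?_
        have : (N : ℝ) ^ (-(3 / 4 * ε)) ≤ 1 := Real.rpow_le_one_of_one_le_of_nonpos hN1' (by linarith)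
        have h2 : 0 ≤ (N : ℝ) ^ (-(3 / 4 * ε)) := by positivity
        nlinarith
      · refine le_trans (ENNReal.ofReal_le_ofReal ?_) (ih R h0 hR1)
        refine mul_le_mul_of_nonneg_left ?_ hc0.le
        have hRpos : (0 : ℝ) < R := by exact_mod_cast h0
        calc (N : ℝ) ^ (-(3 / 4 * ε)) = ((N : ℝ) ^ (3 / 4 : ℝ)) ^ (-ε) := by
              rw [← Real.rpow_mul hNpos.le]; congr 1; ring
          _ ≤ (R : ℝ) ^ (-ε) := Real.rpow_le_rpow_of_nonpos hRpos hR2 (by linarith)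
    refine le_trans ?_ (mul_le_mul_right h1 _)
    rw [← ENNReal.ofReal_mul (by positivity)]
    refine ENNReal.ofReal_le_ofReal ?_
    have h2 : (N : ℝ) ^ (-(2 * ε')) * (c * (N : ℝ) ^ (-(3 / 4 * ε))) =
        c * (N : ℝ) ^ (-(2 * ε') + -(3 / 4 * ε)) := by
      rw [Real.rpow_add hNpos]; ring
    rw [h2]
    refine mul_le_mul_of_nonneg_left ?_ hc0.le
    exact Real.rpow_le_rpow_of_exponent_le hN1' (by linarith)
  have hall : ∀ N : ℕ, 1 ≤ N → ENNReal.ofReal (c * (N : ℝ) ^ (-ε)) ≤ LT (s ^ 2) N N (γ * N) := by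
    intro N
    induction N using Nat.strong_induction_on with
    | _ N ih =>
      intro hN
      have hN1' : (1 : ℝ) ≤ N := by exact_mod_cast hN
      rcases Nat.lt_or_ge N N1 with h | h
      · refine le_trans (ENNReal.ofReal_le_ofReal ?_) (hc N hN h.le)
        have : (N : ℝ) ^ (-ε) ≤ 1 := Real.rpow_le_one_of_one_le_of_nonpos hN1' (by linarith)
        nlinarith
      · refine (hone N h (fun R hR1 hR2 => ih R hR2 hR1)).trans (LT_mono _ _ _ ?_)
        have : 0 ≤ (N : ℝ) ^ (1 / 3 : ℝ) := by positivity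
        linarith
  exact ⟨c, N1, hc0, by omega, fun N hN => hone N hN (fun R hR _ => hall R hR)⟩

end VL

theorem varLower_of_keyZ (s : ℝ) (hs0 : 0 < s) (hs1 : s < 1) (hk : KeyZ s) : VarLower (s ^ 2) := by
  intro ε hε
  obtain ⟨c, N1, hc0, hN1, hc⟩ := VL.tail_lower s hs0 hs1 hk (ε / 2) (by positivity)
  have hq0 : (0 : ℝ) ≤ s ^ 2 := by positivity
  have hq1 : s ^ 2 < 1 := by nlinarith
  have hprob : IsProbabilityMeasure (geo (s ^ 2)) := isProbabilityMeasure_geo _ hq0 hq1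
  have h := (tendsto_rpow_atTop (half_pos hε)).comp tendsto_natCast_atTop_atTop
  obtain ⟨N0, hN0⟩ := Filter.eventually_atTop.1 (h.eventually_ge_atTop (1 / c))
  refine ⟨max N0 N1, fun n hn => ?_⟩
  have hn1 : N1 ≤ n := (le_max_right _ _).trans hn
  have hn0 := hN0 n ((le_max_left _ _).trans hn)
  simp only [Function.comp_apply] at hn0
  have hnpos : (0 : ℝ) < n := by exact_mod_cast (by omega : 0 < n)
  set P := Measure.pi (fun _ : Fin n × Fin n => geo (s ^ 2)) with hP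
  set γ := 2 * s / (1 - s) with hγ
  have h1 := hc n hn1
  rw [← VL.LT_of_law _ (envLaw_WA n (s ^ 2))] at h1
  set a := (n : ℝ) ^ (1 / 3 : ℝ) with ha
  have ha0 : 0 < a := by positivity
  have h2 := meas_ge_le_variance_div_sq (VL.integrable_Tch_sq s hs0 hs1 n) ha0
  have hmean := VL.mean_le s hs0 hs1 n
  have h3 : ENNReal.ofReal (c * (n : ℝ) ^ (-(ε / 2))) ≤
      ENNReal.ofReal (variance (fun x : Fin n × Fin n → ℕ => (Tch x : ℝ)) P / a ^ 2) := by
    refine h1.trans (le_trans (measure_mono (fun x hx => ?_)) h2)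
    simp only [Set.mem_ofPred_eq] at hx ⊢
    rw [← Tch_eq] at hx
    refine le_trans ?_ (le_abs_self _)
    linarith
  have h4 : 0 < c * (n : ℝ) ^ (-(ε / 2)) := by positivity
  have h5 := (ENNReal.ofReal_le_ofReal_iff' .. ).1 h3
  have h6 : c * (n : ℝ) ^ (-(ε / 2)) ≤
      variance (fun x : Fin n × Fin n → ℕ => (Tch x : ℝ)) P / a ^ 2 := by
    rcases h5 with h5 | h5
    · exact h5
    · linarith
  rw [le_div_iff₀ (by positivity)] at h6
  refine le_trans ?_ h6
  have h7 : a ^ 2 = (n : ℝ) ^ (2 / 3 : ℝ) := by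
    rw [ha, ← Real.rpow_natCast, ← Real.rpow_mul hnpos.le]; norm_num
  have h8 : (n : ℝ) ^ (2 / 3 - ε : ℝ) = (n : ℝ) ^ (-ε) * (n : ℝ) ^ (2 / 3 : ℝ) := by
    rw [← Real.rpow_add hnpos]; congr 1; ring
  rw [h7, h8]
  refine mul_le_mul_of_nonneg_right ?_ (by positivity)
  have h9 : (n : ℝ) ^ (-(ε / 2)) = (n : ℝ) ^ (-ε) * (n : ℝ) ^ (ε / 2) := by
    rw [← Real.rpow_add hnpos]; congr 1; ring
  rw [h9]
  have h10 : 1 ≤ c * (n : ℝ) ^ (ε / 2) := by
    rw [div_le_iff₀ hc0] at hn0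
    linarith
  have h11 : 0 < (n : ℝ) ^ (-ε) := by positivity
  nlinarith

end Pool.Agent.MP2c
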