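import Pool.Agent.Work.MP_2c6138_pr.Cross2
import Pool.Agent.Work.MP_2c6138_pr.NearGeo
import Pool.Agent.Work.MP_2c6138_pr.VarLow
import Pool.Agent.Work.MP_2c6138_pr.Bd.B05
import Pool.Agent.Work.MP_2c6138_pr.SmallCov
import Pool.Agent.Work.MP_2c6138_pr.Bd.B02

/-! Assembly. (helper96, MP_2c6138_pr) -/

set_option autoImplicit false

namespace Pool.Agent.MP2c

theorem all_bounds (q : ℝ) (h0 : 0 < q) (h1 : q < 1) : SmallCov q ∧ VarLower q := by
  set s := Real.sqrt q with hs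
  have hs0 : 0 < s := Real.sqrt_pos.2 h0
  have hs2 : s ^ 2 = q := Real.sq_sqrt h0.le
  have hs1 : s < 1 := by
    rw [hs, Real.sqrt_lt' one_pos]
    simpa using h1
  have hn := nearCross s hs0 hs1
  have hf := farCross s hs0 hs1
  have hv := varLower_of_keyZ s hs0 hs1 (keyZ s hs0 hs1)
  rw [hs2] at hn hf hv
  exact ⟨smallCov_of_near q h0 h1 (nearGeoBound_of_cross q h0 h1 hn hf), hv⟩

end Pool.Agent.MP2c
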