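import Pool.Agent.Work.MP_2c6138_pr.Bd.B04

/-! Crossing estimates near and far from the diagonal. (helper96, MP_2c6138_pr) -/

set_option autoImplicit false
set_option linter.unusedSectionVars false
set_option linter.unusedVariables false

namespace Pool.Agent.MP2c

open MeasureTheory Finset
open scoped ENNReal

open Classical in
/-- indicator -/
noncomputable def ind (p : Prop) : ℝ≥0∞ := if p then 1 else 0

theorem ind_le_one (p : Prop) : ind p ≤ 1 := by
  unfold ind; split_ifs <;> simp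

theorem ind_congr {p r : Prop} (h : p ↔ r) : ind p = ind r := by
  rw [propext h]

theorem ind_ite {p r : Prop} [inst : Decidable r] (hpr : p ↔ r) : ind p = if r then 1 else 0 := by
  rw [ind_congr hpr]
  by_cases h : r <;> simp [ind, h]

theorem ind_mono {p r : Prop} (h : p → r) : ind p ≤ ind r := by
  unfold ind
  by_cases hp : p
  · rw [if_pos hp, if_pos (h hp)]
  · rw [if_neg hp]; exact bot_le

theorem ind_and (p r : Prop) : ind (p ∧ r) = ind p * ind r := by
  unfold ind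
  by_cases hp : p <;> by_cases hr : r <;> simp [hp, hr]

theorem measure_eq_ind {Ω : Type} [MeasurableSpace Ω] [DiscreteMeasurableSpace Ω] (P : Measure Ω)
    (p : Ω → Prop) : P {ω | p ω} = ∫⁻ ω, ind (p ω) ∂P := by
  classical
  rw [← lint_ite (Q := P) p]
  exact lintegral_congr (fun ω => by unfold ind; congr)

theorem RR_congr_left {K y wA wB : ℕ} {u v u' : ℕ → ℕ} (h : ∀ i ∈ Ioc wA (wA + K), u i = v i) :
    RR K y wA wB u u' ↔ RR K y wA wB v u' := by
  unfold RR
  refine forall₂_congr (fun k hk => ?_)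
  rw [Finset.sum_congr rfl (fun l hl => h (wA + l + 1) (by
    rw [mem_range] at hl; rw [mem_Ioc]; omega))]

theorem RR_congr_right {K y wA wB : ℕ} (hK : K ≤ wB) {u u' v' : ℕ → ℕ}
    (h : ∀ i ∈ Ioc (wB - K) wB, u' i = v' i) :
    RR K y wA wB u u' ↔ RR K y wA wB u v' := by
  unfold RR
  refine forall₂_congr (fun k hk => ?_)
  rw [Finset.sum_congr (g := fun l => v' (wB - l)) rfl (fun l hl => h (wB - l) (by
    rw [mem_range] at hl; rw [mem_Ioc]; omega))]

theorem RR_anti {K y wA wB : ℕ} {u v u' : ℕ → ℕ} (h : ∀ i ∈ Ioc wA (wA + K), u i ≤ v i) 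
    (hv : RR K y wA wB v u') : RR K y wA wB u u' := by
  intro k hk
  refine le_trans (Finset.sum_le_sum (fun l hl => h (wA + l + 1) ?_)) (hv k hk)
  rw [mem_range] at hl; rw [mem_Ioc]; omega

theorem RR_mono {K y wA wB : ℕ} (hK : K ≤ wB) {u u' v' : ℕ → ℕ} (h : ∀ i ∈ Ioc (wB - K) wB, u' i ≤ v' i)
    (hv : RR K y wA wB u u') : RR K y wA wB u v' := by
  intro k hk
  refine le_trans (hv k hk) (Nat.add_le_add_left (Finset.sum_le_sum (fun l hl => h (wB - l) ?_)) _)
  rw [mem_range] at hl; rw [mem_Ioc]; omega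

theorem ext_apply_mono {A : Finset ℕ} {x x' : ↥A → ℕ} (h : ∀ i, x i ≤ x' i) (i : ℕ) :
    ext A x i ≤ ext A x' i := by
  unfold ext
  split_ifs
  · exact h _
  · exact le_rfl

theorem GE_mono {A : Finset ℕ} {a : ℝ} {φ ψ : (ℕ → ℕ) → ℝ≥0∞} (h : ∀ u, φ u ≤ ψ u) :
    GE A a φ ≤ GE A a ψ := lintegral_mono (fun x => h _)

theorem GE_congr {A : Finset ℕ} {a : ℝ} {φ ψ : (ℕ → ℕ) → ℝ≥0∞} (h : ∀ u, φ u = ψ u) :
    GE A a φ = GE A a ψ := lintegral_congr (fun x => h _)

theorem GE_le_one {A : Finset ℕ} {a : ℝ} (h0 : 0 ≤ a) (h1 : a < 1) {φ : (ℕ → ℕ) → ℝ≥0∞}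
    (h : ∀ u, φ u ≤ 1) : GE A a φ ≤ 1 := by
  have : ∀ i : ↥A, IsProbabilityMeasure (geo a) := fun _ => isProbabilityMeasure_geo a h0 h1
  have h3 : IsProbabilityMeasure (Measure.pi (fun _ : ↥A => geo a)) := by infer_instance
  calc GE A a φ ≤ ∫⁻ _, 1 ∂(Measure.pi (fun _ : ↥A => geo a)) := lintegral_mono (fun x => h _)
    _ = 1 := by rw [lintegral_one, measure_univ]

/-- error term -/
noncomputable def er (s h : ℝ) (N : ℕ) : ℝ≥0∞ := ENNReal.ofReal (Real.exp (-(s * h ^ 3 * N / 4)))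

theorem er_two (s h : ℝ) (N : ℕ) : ENNReal.ofReal (2 * Real.exp (-(s * h ^ 3 * N / 4))) = 2 * er s h N := by
  unfold er
  rw [ENNReal.ofReal_mul (by norm_num)]
  norm_num

theorem GE_subset {A B : Finset ℕ} {a : ℝ} (h0 : 0 ≤ a) (h1 : a < 1) (hAB : A ⊆ B)
    {φ : (ℕ → ℕ) → ℝ≥0∞} (hφ : Dep A φ) : GE B a φ = GE A a φ := by
  have h := (envLaw_pi B (fun _ : ℕ => a)).subset hAB (fun _ _ => ⟨h0, h1⟩)
  exact lint_eq_GE h φ hφ

section near
variable {s : ℝ} (cs : Cst s) {h : ℝ} (hh0 : 0 < h) (hh1 : h ≤ cs.h0)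
include hh0 hh1

theorem er_mono {N N' : ℕ} (hN : N ≤ N') : er s h N' ≤ er s h N := by
  unfold er
  have hs := cs.hs0
  refine ENNReal.ofReal_le_ofReal (Real.exp_le_exp.2 ?_)
  have : (N : ℝ) ≤ N' := by exact_mod_cast hN
  have : s * h ^ 3 * N ≤ s * h ^ 3 * N' := by gcongr
  linarith

theorem near_raw {n r0 c0 K N y : ℕ} (hc0 : c0 < n) (hN1 : N ≤ r0) (hN2 : N ≤ n - r0)
    (hcl : |(c0 : ℝ) - r0| + 1 + K ≤ cs.c1 * h * N) (hK1 : c0 + 1 + K ≤ n) (hK2 : K ≤ c0) :
    (Measure.pi (fun _ : Fin n × Fin n => geo (s ^ 2))) {x | crossE y c0 r0 x} ≤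
      (GE (Ioc (n - c0 - K) (n - c0)) (s * Real.exp (2 * h)) (fun u' =>
        GE (Ioc (c0 + 1) (c0 + 1 + K)) (s * Real.exp (-(2 * h))) (fun u =>
          ind (RR K y (c0 + 1) (n - c0) u u'))) + 2 * er s h N) *
      GE (Ioc (n - c0) (n - c0 + K)) (s * Real.exp (-(2 * h))) (fun u' =>
        GE (Ioc (c0 + 1 - K) (c0 + 1)) (s * Real.exp (2 * h)) (fun u =>
          ind (RR K y (n - c0) (c0 + 1) u' u))) + 4 * er s h N := by
  have hs := cs.hs0
  have hs1 := cs.hs1
  have hq0 : (0 : ℝ) ≤ s ^ 2 := by positivity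
  have hq1 : s ^ 2 < 1 := by nlinarith
  have habs : |2 * h| ≤ 5 * h := by rw [abs_of_pos (by positivity)]; linarith
  have habs' : |-(2 * h)| ≤ 5 * h := by rwa [abs_neg]
  have hp := exp4_lt_one cs hh0 hh1 habs
  have hm := exp4_lt_one cs hh0 hh1 habs'
  set P := Measure.pi (fun _ : Fin n × Fin n => geo (s ^ 2)) with hP
  have : IsProbabilityMeasure (geo (s ^ 2)) := isProbabilityMeasure_geo _ hq0 hq1
  have hprob : IsProbabilityMeasure P := by rw [hP]; infer_instance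
  have hr0n : r0 ≤ n := by
    have h1 : (0 : ℝ) ≤ |(c0 : ℝ) - r0| := abs_nonneg _
    have h2 : 0 < cs.c1 * h * N := by
      have : (0 : ℝ) ≤ K := Nat.cast_nonneg _
      linarith
    have h3 : N ≠ 0 := by
      rintro rfl
      simp at h2
    omega
  have hc1 := cs.hc1
  have habs1 : (c0 : ℝ) - r0 ≤ |(c0 : ℝ) - r0| := le_abs_self _
  have habs2 : (r0 : ℝ) - c0 ≤ |(c0 : ℝ) - r0| := by rw [abs_sub_comm]; exact le_abs_self _
  have hNA : (N : ℝ) ≤ r0 := by exact_mod_cast hN1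
  have hNB : (N : ℝ) ≤ (n : ℝ) - r0 := by
    have : ((n - r0 : ℕ) : ℝ) = (n : ℝ) - r0 := by rw [Nat.cast_sub hr0n]
    rw [← this]; exact_mod_cast hN2
  have hch : 0 ≤ cs.c1 * h := by positivity
  have hA := mul_le_mul_of_nonneg_left hNA hch
  have hB := mul_le_mul_of_nonneg_left hNB hch
  -- the two events
  set wA := c0 + 1 with hwA
  set wB := n - c0 with hwB
  have hwBr : (wB : ℝ) = (n : ℝ) - c0 := by rw [hwB, Nat.cast_sub hc0.le]
  have hKA : K ≤ wA := by omega
  have hKB : K ≤ wB := by omega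
  have step0 : P {x | crossE y c0 r0 x} ≤
      ∫⁻ x, (fun u u' => ind (RR K y wB wA u' u) * ind (RR K y wA wB u u'))
        (UU (bz (WA x)) r0) (UU (bz (WB x)) (n - r0)) ∂P := by
    rw [measure_eq_ind]
    refine lintegral_mono (fun x => ?_)
    simp only
    rw [← ind_and]
    exact ind_mono (fun hx => ⟨crossE_left hc0 hK2 hx, crossE_right (by omega) hx⟩)
  have step1 : ∫⁻ x, (fun u u' => ind (RR K y wB wA u' u) * ind (RR K y wA wB u u'))
        (UU (bz (WA x)) r0) (UU (bz (WB x)) (n - r0)) ∂P =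
      ∫⁻ x', ∫⁻ x, (ind (RR K y wB wA (UU (bz (WB x')) (n - r0)) (UU (bz (WA x)) r0)) *
        ind (RR K y wA wB (UU (bz (WA x)) r0) (UU (bz (WB x')) (n - r0)))) ∂P ∂P := by
    refine fubini_AB hq0 hq1 r0 (wA + K) (wB + K) hr0n (by omega) (by omega)
      (fun u u' => ind (RR K y wB wA u' u) * ind (RR K y wA wB u u')) ?_ ?_
    · intro u' u v huv
      simp only
      rw [ind_congr (RR_congr_right hKA (fun i hi => huv i (by rw [mem_Ioc] at hi ⊢; omega))),
        ind_congr (RR_congr_left (fun i hi => huv i (by rw [mem_Ioc] at hi ⊢; omega)))]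
    · intro u u' v' huv
      simp only
      rw [ind_congr (RR_congr_left (fun i hi => huv i (by rw [mem_Ioc] at hi ⊢; omega))),
        ind_congr (RR_congr_right hKB (fun i hi => huv i (by rw [mem_Ioc] at hi ⊢; omega)))]
  set Φ : (ℕ → ℕ) → ℝ≥0∞ := fun u' => GE (Ioc wA (wA + K)) (s * Real.exp (-(2 * h))) (fun u =>
          ind (RR K y wA wB u u')) with hΦ
  set Ψ : (ℕ → ℕ) → ℝ≥0∞ := fun u' => GE (Ioc (wA - K) wA) (s * Real.exp (2 * h)) (fun u =>
          ind (RR K y wB wA u' u)) with hΨ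
  have hΦ1 : ∀ u', Φ u' ≤ 1 := fun u' => GE_le_one hm.1.le hm.2 (fun _ => ind_le_one _)
  have hΨ1 : ∀ u', Ψ u' ≤ 1 := fun u' => GE_le_one hp.1.le hp.2 (fun _ => ind_le_one _)
  -- two-sided bound for the lower half
  have stepA : ∀ u' : ℕ → ℕ, ∫⁻ x, (ind (RR K y wB wA u' (UU (bz (WA x)) r0)) *
        ind (RR K y wA wB (UU (bz (WA x)) r0) u')) ∂P ≤
      Φ u' * Ψ u' + 3 * er s h N := by
    intro u'
    have hEA : EnvLaw P (bb (wA + K) r0) (fun _ => s ^ 2) (fun x => WA x) :=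
      (envLaw_WA n (s ^ 2)).subset (bb_mono (by omega) hr0n) (geo_par hq0 hq1 _)
    have := two_sided_bulk cs hh0 hh1 (w := wA) (K := K) (N := r0) hKA ?_ ?_ hEA
      (fun u => ind (RR K y wB wA u' u)) (fun u => ind (RR K y wA wB u u')) ?_ ?_
      (fun _ => ind_le_one _) (fun _ => ind_le_one _) ?_ ?_
    · refine this.trans ?_
      rw [er_two]
      have hεA : er s h r0 ≤ er s h N := er_mono cs hh0 hh1 hN1
      calc (Ψ u' + 2 * er s h r0) * Φ u' + er s h r0 = Φ u' * Ψ u' + 2 * er s h r0 * Φ u' + er s h r0 := by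
            ring
        _ ≤ Φ u' * Ψ u' + 2 * er s h N * 1 + er s h N := by
            gcongr
            exact hΦ1 u'
        _ = _ := by ring
    · rw [hwA]; push_cast; linarith
    · rw [Nat.cast_sub hKA, hwA]; push_cast; linarith
    · intro u v huv
      exact ind_congr (RR_congr_right hKA huv)
    · intro u v huv
      exact ind_congr (RR_congr_left huv)
    · intro u v huv
      exact ind_mono (RR_mono hKA huv)
    · intro u v huv
      exact ind_mono (RR_anti huv)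
  -- two-sided bound for the upper half
  have stepB : ∫⁻ x', Φ (UU (bz (WB x')) (n - r0)) * Ψ (UU (bz (WB x')) (n - r0)) ∂P ≤
      (GE (Ioc (wB - K) wB) (s * Real.exp (2 * h)) Φ + 2 * er s h N) *
        GE (Ioc wB (wB + K)) (s * Real.exp (-(2 * h))) Ψ + er s h N := by
    have hEB : EnvLaw P (bb (wB + K) (n - r0)) (fun _ => s ^ 2) (fun x => WB x) :=
      (envLaw_WB n (s ^ 2)).subset (bb_mono (by omega) (Nat.sub_le _ _)) (geo_par hq0 hq1 _)
    have := two_sided_bulk cs hh0 hh1 (w := wB) (K := K) (N := n - r0) hKB ?_ ?_ hEB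
      Φ Ψ ?_ ?_ hΦ1 hΨ1 ?_ ?_
    · refine this.trans ?_
      rw [er_two]
      have hεB : er s h (n - r0) ≤ er s h N := er_mono cs hh0 hh1 hN2
      change _ + er s h (n - r0) ≤ _
      gcongr
    · push_cast
      rw [hwBr, Nat.cast_sub hr0n]
      linarith
    · rw [Nat.cast_sub hKB, hwBr, Nat.cast_sub hr0n]
      linarith
    · intro u v huv
      exact GE_congr (fun w => ind_congr (RR_congr_right hKB huv))
    · intro u v huv
      exact GE_congr (fun w => ind_congr (RR_congr_left huv))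
    · intro u v huv
      exact GE_mono (fun w => ind_mono (RR_mono hKB huv))
    · intro u v huv
      exact GE_mono (fun w => ind_mono (RR_anti huv))
  calc P {x | crossE y c0 r0 x} ≤ _ := step0
    _ = _ := step1
    _ ≤ ∫⁻ x', (Φ (UU (bz (WB x')) (n - r0)) * Ψ (UU (bz (WB x')) (n - r0)) + 3 * er s h N) ∂P :=
        lintegral_mono (fun x' => stepA _)
    _ = ∫⁻ x', Φ (UU (bz (WB x')) (n - r0)) * Ψ (UU (bz (WB x')) (n - r0)) ∂P + 3 * er s h N := by
        rw [lintegral_add_right _ (Measurable.of_discrete), lintegral_const, measure_univ, mul_one]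
    _ ≤ _ := by
        refine (add_le_add stepB le_rfl).trans (le_of_eq ?_)
        rw [add_assoc]
        congr 1
        ring

/-- far event -/
def FF (K y wA wB : ℕ) (u u' : ℕ → ℕ) : Prop :=
  ∑ l ∈ range K, u (wA + l + 1) ≤ y + ∑ l ∈ range K, u' (wB - l)

theorem far_raw {n r0 c0 K N y : ℕ} (hN0 : N ≠ 0) (hc0 : c0 < n) (hN1 : N ≤ r0) (hN2 : N ≤ n - r0)
    (hcl : (c0 : ℝ) + 1 + K ≤ r0 * (1 - cs.C1 * h)) :
    (Measure.pi (fun _ : Fin n × Fin n => geo (s ^ 2))) {x | crossE y c0 r0 x} ≤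
      GE (Ioc (n - c0 - K) (n - c0)) (s * Real.exp (2 * h)) (fun u' =>
        GE (Ioc (c0 + 1) (c0 + 1 + K)) (s * Real.exp (4 * h)) (fun u =>
          ind (FF K y (c0 + 1) (n - c0) u u'))) + 2 * er s h N := by
  have hs := cs.hs0
  have hs1 := cs.hs1
  have hq0 : (0 : ℝ) ≤ s ^ 2 := by positivity
  have hq1 : s ^ 2 < 1 := by nlinarith
  have habs : |4 * h| ≤ 5 * h := by rw [abs_of_pos (by positivity)]; linarith
  have hm := exp4_lt_one cs hh0 hh1 habs
  set P := Measure.pi (fun _ : Fin n × Fin n => geo (s ^ 2)) with hP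
  have : IsProbabilityMeasure (geo (s ^ 2)) := isProbabilityMeasure_geo _ hq0 hq1
  have hprob : IsProbabilityMeasure P := by rw [hP]; infer_instance
  have hr0n : r0 ≤ n := by omega
  have hC1 := cs.hC1
  have hc1 := cs.hc1
  have hKr : c0 + 1 + K ≤ r0 := by
    have h1 : (c0 : ℝ) + 1 + K ≤ r0 := by
      have : (r0 : ℝ) * (1 - cs.C1 * h) ≤ r0 * 1 := by
        have : 0 ≤ cs.C1 * h := by positivity
        gcongr
        linarith
      linarith
    exact_mod_cast h1
  set wA := c0 + 1 with hwA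
  set wB := n - c0 with hwB
  have hwBr : (wB : ℝ) = (n : ℝ) - c0 := by rw [hwB, Nat.cast_sub hc0.le]
  have hKB : K ≤ wB := by omega
  have hcongr_left : ∀ {u v u' : ℕ → ℕ}, (∀ i ∈ Ioc wA (wA + K), u i = v i) →
      (FF K y wA wB u u' ↔ FF K y wA wB v u') := by
    intro u v u' huv
    unfold FF
    rw [Finset.sum_congr rfl (fun l hl => huv (wA + l + 1) (by
      rw [mem_range] at hl; rw [mem_Ioc]; omega))]
  have hcongr_right : ∀ {u u' v' : ℕ → ℕ}, (∀ i ∈ Ioc (wB - K) wB, u' i = v' i) →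
      (FF K y wA wB u u' ↔ FF K y wA wB u v') := by
    intro u u' v' huv
    unfold FF
    rw [Finset.sum_congr (g := fun l => v' (wB - l)) rfl (fun l hl => huv (wB - l) (by
      rw [mem_range] at hl; rw [mem_Ioc]; omega))]
  have hanti : ∀ {u v u' : ℕ → ℕ}, (∀ i ∈ Ioc wA (wA + K), u i ≤ v i) →
      FF K y wA wB v u' → FF K y wA wB u u' := by
    intro u v u' huv hv
    refine le_trans (Finset.sum_le_sum (fun l hl => huv (wA + l + 1) ?_)) hv
    rw [mem_range] at hl; rw [mem_Ioc]; omega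
  have hmono : ∀ {u u' v' : ℕ → ℕ}, (∀ i ∈ Ioc (wB - K) wB, u' i ≤ v' i) →
      FF K y wA wB u u' → FF K y wA wB u v' := by
    intro u u' v' huv hv
    refine le_trans hv (Nat.add_le_add_left (Finset.sum_le_sum (fun l hl => huv (wB - l) ?_)) _)
    rw [mem_range] at hl; rw [mem_Ioc]; omega
  have step0 : P {x | crossE y c0 r0 x} ≤
      ∫⁻ x, (fun u u' => ind (FF K y wA wB u u'))
        (UU (bz (WA x)) r0) (UU (bz (WB x)) (n - r0)) ∂P := by
    rw [measure_eq_ind]
    refine lintegral_mono (fun x => ?_)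
    exact ind_mono (fun hx => crossE_right (K := K) (by omega) hx K le_rfl)
  have step1 : ∫⁻ x, (fun u u' => ind (FF K y wA wB u u'))
        (UU (bz (WA x)) r0) (UU (bz (WB x)) (n - r0)) ∂P =
      ∫⁻ x', ∫⁻ x, ind (FF K y wA wB (UU (bz (WA x)) r0) (UU (bz (WB x')) (n - r0))) ∂P ∂P := by
    refine fubini_AB hq0 hq1 r0 (wA + K) wB hr0n (by omega) (by omega)
      (fun u u' => ind (FF K y wA wB u u')) ?_ ?_
    · intro u' u v huv
      exact ind_congr (hcongr_left (fun i hi => huv i (by rw [mem_Ioc] at hi ⊢; omega)))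
    · intro u u' v' huv
      exact ind_congr (hcongr_right (fun i hi => huv i (by rw [mem_Ioc] at hi ⊢; omega)))
  set Φ : (ℕ → ℕ) → ℝ≥0∞ := fun u' => GE (Ioc wA (wA + K)) (s * Real.exp (4 * h)) (fun u =>
          ind (FF K y wA wB u u')) with hΦ
  have hΦ1 : ∀ u', Φ u' ≤ 1 := fun u' => GE_le_one hm.1.le hm.2 (fun _ => ind_le_one _)
  have stepA : ∀ u' : ℕ → ℕ, ∫⁻ x, ind (FF K y wA wB (UU (bz (WA x)) r0) u') ∂P ≤
      Φ u' + er s h N := by
    intro u'
    have hEA : EnvLaw P (bb (wA + K) r0) (fun _ => s ^ 2) (fun x => WA x) :=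
      (envLaw_WA n (s ^ 2)).subset (bb_mono (by omega) hr0n) (geo_par hq0 hq1 _)
    have := lower_far cs hh0 hh1 (m := wA + K) (N := r0) ?_ hEA
      (fun u => ind (FF K y wA wB u u')) ?_ (fun _ => ind_le_one _) ?_
    · refine this.trans (add_le_add (le_of_eq ?_) (er_mono cs hh0 hh1 hN1))
      refine GE_subset hm.1.le hm.2 (fun i hi => by rw [mem_Ioc] at hi ⊢; omega) ?_
      intro u v huv
      exact ind_congr (hcongr_left huv)
    · rw [hwA]; push_cast; linarith
    · intro u v huv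
      exact ind_congr (hcongr_left (fun i hi => huv i (by rw [mem_Ioc] at hi ⊢; omega)))
    · intro u v huv
      exact ind_mono (hanti (fun i hi => huv i (by rw [mem_Ioc] at hi ⊢; omega)))
  have stepB : ∫⁻ x', Φ (UU (bz (WB x')) (n - r0)) ∂P ≤
      GE (Ioc (wB - K) wB) (s * Real.exp (2 * h)) Φ + er s h N := by
    have hEB : EnvLaw P (bb wB (n - r0)) (fun _ => s ^ 2) (fun x => WB x) :=
      (envLaw_WB n (s ^ 2)).subset (bb_mono (by omega) (Nat.sub_le _ _)) (geo_par hq0 hq1 _)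
    have := upper_near cs hh0 hh1 (m := wB) (x0 := wB - K) (N := n - r0) (Nat.sub_le _ _) ?_ hEB
      Φ ?_ hΦ1 ?_
    · exact this.trans (add_le_add le_rfl (er_mono cs hh0 hh1 hN2))
    · rw [Nat.cast_sub hKB, hwBr, Nat.cast_sub hr0n]
      have h1 : (c0 : ℝ) + 1 + K ≤ r0 := by exact_mod_cast hKr
      have h2 : 0 ≤ ((n : ℝ) - r0) * (cs.c1 * h) := by
        have : (r0 : ℝ) ≤ n := by exact_mod_cast hr0n
        have : 0 ≤ (n : ℝ) - r0 := by linarith
        positivity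
      linarith
    · intro u v huv
      exact GE_congr (fun w => ind_congr (hcongr_right huv))
    · intro u v huv
      exact GE_mono (fun w => ind_mono (hmono huv))
  calc P {x | crossE y c0 r0 x} ≤ _ := step0
    _ = _ := step1
    _ ≤ ∫⁻ x', (Φ (UU (bz (WB x')) (n - r0)) + er s h N) ∂P := lintegral_mono (fun x' => stepA _)
    _ = ∫⁻ x', Φ (UU (bz (WB x')) (n - r0)) ∂P + er s h N := by
        rw [lintegral_add_right _ (Measurable.of_discrete), lintegral_const, measure_univ, mul_one]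
    _ ≤ _ := by
        refine (add_le_add stepB le_rfl).trans (le_of_eq ?_)
        rw [add_assoc]
        congr 1
        ring

end near

theorem prob_crossE_le_one {n : ℕ} {q : ℝ} (hq0 : 0 ≤ q) (hq1 : q < 1) (A : Set (Fin n × Fin n → ℕ)) :
    (Measure.pi (fun _ : Fin n × Fin n => geo q)) A ≤ 1 := by
  have : IsProbabilityMeasure (geo q) := isProbabilityMeasure_geo _ hq0 hq1
  exact prob_le_one

theorem farCross (s : ℝ) (hs0 : 0 < s) (hs1 : s < 1) : FarCross (s ^ 2) := by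
  obtain ⟨cs⟩ := exists_cst s hs0 hs1
  have hq0 : (0 : ℝ) ≤ s ^ 2 := by positivity
  have hq1 : s ^ 2 < 1 := by nlinarith
  refine ⟨s / 4, cs.C1, cs.h0, by positivity, by have := cs.hC1; linarith, cs.hh0, ?_⟩
  intro h hh0 hh1 n N K r0 c0 y hc0 hN1 hN2 hcl
  rcases Nat.eq_zero_or_pos N with hN | hN
  · subst hN
    refine (prob_crossE_le_one hq0 hq1 _).trans ?_
    rw [← ENNReal.ofReal_one]
    refine ENNReal.ofReal_le_ofReal ?_
    simp only [Nat.cast_zero, mul_zero, neg_zero, Real.exp_zero]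
    have := Real.exp_pos (h * y - s / 4 * h ^ 2 * K)
    linarith
  · refine (far_raw cs hh0 hh1 (by omega) hc0 hN1 hN2 hcl).trans ?_
    have hKB : K ≤ n - c0 := by
      have hC1 := cs.hC1
      have h1 : (c0 : ℝ) + 1 + K ≤ r0 := by
        have : (r0 : ℝ) * (1 - cs.C1 * h) ≤ r0 * 1 := by
          have : 0 ≤ cs.C1 * h := by positivity
          gcongr
          linarith
        linarith
      have h2 : c0 + 1 + K ≤ r0 := by exact_mod_cast h1
      omega
    have h1 := far_GE cs hh0 hh1 (c0 + 1) (n - c0) K y hKB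
    have h2 : GE (Ioc (n - c0 - K) (n - c0)) (s * Real.exp (2 * h)) (fun u' =>
        GE (Ioc (c0 + 1) (c0 + 1 + K)) (s * Real.exp (4 * h)) (fun u =>
          ind (FF K y (c0 + 1) (n - c0) u u'))) ≤
        ENNReal.ofReal (Real.exp (h * y - s * h ^ 2 * K)) := by
      refine le_trans (le_of_eq ?_) h1
      refine GE_congr (fun u' => GE_congr (fun u => ?_))
      exact ind_ite Iff.rfl
    refine (add_le_add h2 le_rfl).trans ?_
    rw [← er_two, ← ENNReal.ofReal_add (Real.exp_pos _).le (by positivity)]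
    refine ENNReal.ofReal_le_ofReal (add_le_add (Real.exp_le_exp.2 ?_) (le_of_eq ?_))
    · have : s / 4 * h ^ 2 * K ≤ s * h ^ 2 * K := by
        gcongr
        linarith
      linarith
    · congr 2
      ring

theorem nearCross (s : ℝ) (hs0 : 0 < s) (hs1 : s < 1) : NearCross (s ^ 2) := by
  obtain ⟨cs⟩ := exists_cst s hs0 hs1
  obtain ⟨C0, c, hC0, hc, hnum⟩ := persist_num cs
  have hq0 : (0 : ℝ) ≤ s ^ 2 := by positivity
  have hq1 : s ^ 2 < 1 := by nlinarith
  have hc1 := cs.hc1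
  have hc1' := cs.hc1'
  set C : ℝ := max 1 (max (4 * C0 ^ 2) (4 * C0 ^ 2 * Real.exp c + 5)) with hC
  have hC1 : 1 ≤ C := le_max_left _ _
  have hC2 : 4 * C0 ^ 2 ≤ C := (le_max_left _ _).trans (le_max_right _ _)
  have hC3 : 4 * C0 ^ 2 * Real.exp c + 5 ≤ C := (le_max_right _ _).trans (le_max_right _ _)
  set c' : ℝ := min (c * cs.c1 / 4) (s / 4) with hc'
  have hc'1 : c' ≤ c * cs.c1 / 4 := min_le_left _ _
  have hc'2 : c' ≤ s / 4 := min_le_right _ _
  have hc'0 : 0 < c' := lt_min (by positivity) (by positivity)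
  refine ⟨C, c', cs.c1 / 2, cs.h0, by linarith, hc'0, by positivity, cs.hh0, ?_⟩
  intro h hh0 hh1 n N r0 c0 y hc0 hN1 hN2 hcl
  have hh : h ≤ 1 := by have := cs.hh1; linarith
  have hy0 : (0 : ℝ) ≤ y := Nat.cast_nonneg _
  rcases le_or_gt (((y : ℝ) + 1) * h) 1 with hy | hy
  swap
  · refine (prob_crossE_le_one hq0 hq1 _).trans ?_
    rw [← ENNReal.ofReal_one]
    refine ENNReal.ofReal_le_ofReal ?_
    have h1 : 1 ≤ ((y : ℝ) + 1) ^ 2 * h ^ 2 := by
      rw [← mul_pow]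
      exact one_le_pow₀ hy.le
    have h2 := Real.exp_pos (-(c' * h ^ 3 * N))
    have h3 : 0 ≤ C * Real.exp (-(c' * h ^ 3 * N)) := by positivity
    nlinarith
  · set K : ℕ := ⌊cs.c1 * h * N / 4⌋₊ with hK
    have hN0 : (0 : ℝ) ≤ N := Nat.cast_nonneg _
    have hK1 : (K : ℝ) ≤ cs.c1 * h * N / 4 := Nat.floor_le (by positivity)
    have hK2 : cs.c1 * h * N / 4 - 1 ≤ K := (Nat.sub_one_lt_floor _).le
    have habs0 : (0 : ℝ) ≤ |(c0 : ℝ) - r0| := abs_nonneg _
    have habs1 : (c0 : ℝ) - r0 ≤ |(c0 : ℝ) - r0| := le_abs_self _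
    have habs2 : (r0 : ℝ) - c0 ≤ |(c0 : ℝ) - r0| := by rw [abs_sub_comm]; exact le_abs_self _
    have hcl' : |(c0 : ℝ) - r0| + 1 + K ≤ cs.c1 * h * N - 1 := by
      have : 0 ≤ cs.c1 * h * N := by positivity
      linarith
    have hchN : cs.c1 * h * N ≤ N := by
      have : cs.c1 * h ≤ 1 := by nlinarith
      nlinarith
    have hNne : N ≠ 0 := by
      rintro rfl
      simp only [Nat.cast_zero, mul_zero] at hcl
      linarith
    have hr0n : r0 ≤ n := by omega
    have hNA : (N : ℝ) ≤ r0 := by exact_mod_cast hN1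
    have hNB : (N : ℝ) ≤ (n : ℝ) - r0 := by
      have : ((n - r0 : ℕ) : ℝ) = (n : ℝ) - r0 := by rw [Nat.cast_sub hr0n]
      rw [← this]; exact_mod_cast hN2
    have hKn : c0 + 1 + K ≤ n := by
      have : (c0 : ℝ) + 1 + K ≤ n := by linarith
      exact_mod_cast this
    have hKc : K ≤ c0 := by
      have : (K : ℝ) ≤ c0 := by linarith
      exact_mod_cast this
    have habs : |2 * h| ≤ 5 * h := by rw [abs_of_pos (by positivity)]; linarith
    have habs' : |-(2 * h)| ≤ 5 * h := by rwa [abs_neg]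
    have hp := exp4_lt_one cs hh0 hh1 habs
    have hm := exp4_lt_one cs hh0 hh1 habs'
    have hmp : s * Real.exp (-(2 * h)) ≤ s * Real.exp (2 * h) := by gcongr; linarith
    set p : ℝ := C0 * ((y : ℝ) + 1) * h + C0 * Real.exp (-(c * h ^ 2 * K)) with hpdef
    have hp0 : 0 ≤ p := by positivity
    have hP1 : GE (Ioc (n - c0 - K) (n - c0)) (s * Real.exp (2 * h)) (fun u' =>
        GE (Ioc (c0 + 1) (c0 + 1 + K)) (s * Real.exp (-(2 * h))) (fun u =>
          ind (RR K y (c0 + 1) (n - c0) u u'))) ≤ ENNReal.ofReal p := by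
      refine le_trans (le_of_eq ?_) ((persist_GE_swap _ _ hm.1 hmp hp.2 (c0 + 1) (n - c0) K y
        (by omega)).trans (ENNReal.ofReal_le_ofReal (hnum h hh0 hh1 K y hy)))
      refine GE_congr (fun u' => GE_congr (fun u => ?_))
      exact ind_ite Iff.rfl
    have hP2 : GE (Ioc (n - c0) (n - c0 + K)) (s * Real.exp (-(2 * h))) (fun u' =>
        GE (Ioc (c0 + 1 - K) (c0 + 1)) (s * Real.exp (2 * h)) (fun u =>
          ind (RR K y (n - c0) (c0 + 1) u' u))) ≤ ENNReal.ofReal p := by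
      refine le_trans (le_of_eq ?_) ((persist_GE _ _ hm.1 hmp hp.2 (n - c0) (c0 + 1) K y
        (by omega)).trans (ENNReal.ofReal_le_ofReal (hnum h hh0 hh1 K y hy)))
      refine GE_congr (fun u' => GE_congr (fun u => ?_))
      exact ind_ite Iff.rfl
    have hraw := near_raw cs hh0 hh1 (y := y) hc0 hN1 hN2 (K := K) (by linarith) hKn hKc
    refine hraw.trans ?_
    refine (add_le_add (mul_le_mul' (add_le_add hP1 le_rfl) hP2) le_rfl).trans ?_
    set ε : ℝ := Real.exp (-(s * h ^ 3 * N / 4)) with hε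
    have hε0 : 0 < ε := Real.exp_pos _
    have hε1 : ε ≤ 1 := by
      rw [hε, Real.exp_le_one_iff]
      have : 0 ≤ s * h ^ 3 * N / 4 := by positivity
      linarith
    have e4 : 4 * er s h N = ENNReal.ofReal (4 * ε) := by
      unfold er
      rw [ENNReal.ofReal_mul (by norm_num)]
      congr 1
      norm_num
    rw [← er_two, e4, ← ENNReal.ofReal_add hp0 (by positivity), ← ENNReal.ofReal_mul (by positivity),
      ← ENNReal.ofReal_add (by positivity) (by positivity)]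
    refine ENNReal.ofReal_le_ofReal ?_
    have b1 : (p + 2 * ε) * p + 4 * ε ≤ 2 * p ^ 2 + 5 * ε := by
      have g1 : ε * ε ≤ 1 * ε := mul_le_mul_of_nonneg_right hε1 hε0.le
      have g2 : 0 ≤ (p - ε) ^ 2 := sq_nonneg _
      linarith
    have b2 : p ^ 2 ≤ 2 * (C0 * ((y : ℝ) + 1) * h) ^ 2 + 2 * (C0 * Real.exp (-(c * h ^ 2 * K))) ^ 2 := by
      rw [hpdef]
      generalize C0 * ((y : ℝ) + 1) * h = g1
      generalize C0 * Real.exp (-(c * h ^ 2 * K)) = g2
      have g3 : 0 ≤ (g1 - g2) ^ 2 := sq_nonneg _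
      linarith
    have b3 : Real.exp (-(c * h ^ 2 * K)) ≤ Real.exp c * Real.exp (-(c' * h ^ 3 * N)) := by
      rw [← Real.exp_add]
      refine Real.exp_le_exp.2 ?_
      have : cs.c1 * h ^ 3 * N / 4 - 1 ≤ h ^ 2 * K := by
        have h1 : h ^ 2 * (cs.c1 * h * N / 4 - 1) ≤ h ^ 2 * K := by gcongr
        have h2 : h ^ 2 ≤ 1 := pow_le_one₀ hh0.le hh
        linarith
      have h3 : c * (cs.c1 * h ^ 3 * N / 4 - 1) ≤ c * (h ^ 2 * K) := by gcongr
      have h4 : c' * (h ^ 3 * N) ≤ c * cs.c1 / 4 * (h ^ 3 * N) := by gcongr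
      linarith
    have b4 : (Real.exp (-(c * h ^ 2 * K))) ^ 2 ≤ Real.exp (-(c * h ^ 2 * K)) := by
      have h1 : Real.exp (-(c * h ^ 2 * K)) ≤ 1 := by
        rw [Real.exp_le_one_iff]
        have : 0 ≤ c * h ^ 2 * K := by positivity
        linarith
      have h2 := Real.exp_pos (-(c * h ^ 2 * K))
      rw [pow_two]
      exact mul_le_of_le_one_left h2.le h1
    have b5 : ε ≤ Real.exp (-(c' * h ^ 3 * N)) := by
      rw [hε]
      refine Real.exp_le_exp.2 ?_
      have : c' * (h ^ 3 * N) ≤ s / 4 * (h ^ 3 * N) := by gcongr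
      linarith
    have b6 : 0 < Real.exp (-(c' * h ^ 3 * N)) := Real.exp_pos _
    calc (p + 2 * ε) * p + 4 * ε ≤ 2 * p ^ 2 + 5 * ε := b1
      _ ≤ 2 * (2 * (C0 * ((y : ℝ) + 1) * h) ^ 2 + 2 * (C0 * Real.exp (-(c * h ^ 2 * K))) ^ 2) +
          5 * Real.exp (-(c' * h ^ 3 * N)) := by gcongr
      _ = 4 * C0 ^ 2 * (((y : ℝ) + 1) ^ 2 * h ^ 2) + 4 * C0 ^ 2 * (Real.exp (-(c * h ^ 2 * K))) ^ 2 +
          5 * Real.exp (-(c' * h ^ 3 * N)) := by ring
      _ ≤ 4 * C0 ^ 2 * (((y : ℝ) + 1) ^ 2 * h ^ 2) +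
          4 * C0 ^ 2 * (Real.exp c * Real.exp (-(c' * h ^ 3 * N))) +
          5 * Real.exp (-(c' * h ^ 3 * N)) := by
            gcongr
            exact b4.trans b3
      _ = 4 * C0 ^ 2 * (((y : ℝ) + 1) ^ 2 * h ^ 2) +
          (4 * C0 ^ 2 * Real.exp c + 5) * Real.exp (-(c' * h ^ 3 * N)) := by ring
      _ ≤ C * (((y : ℝ) + 1) ^ 2 * h ^ 2) + C * Real.exp (-(c' * h ^ 3 * N)) := by gcongr
      _ = _ := by ring

end Pool.Agent.MP2c
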