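import Pool.Agent.Work.MP_2c6138_pr.Bd.B01
import Pool.Agent.Work.MP_2c6138_pr.Bd.B03

/-! Exit bounds near the diagonal, one-sided and two-sided comparison for the bulk.
(helper96, MP_2c6138_pr) -/

set_option autoImplicit false
set_option linter.unusedSectionVars false
set_option linter.unusedVariables false

namespace Pool.Agent.MP2c

open MeasureTheory Finset
open scoped ENNReal

/-- constants -/
structure Cst (s : ℝ) where
  c1 : ℝ
  C1 : ℝ
  h0 : ℝ
  r : ℝ
  hs0 : 0 < s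
  hs1 : s < 1
  hc1 : 0 < c1
  hc1' : c1 ≤ 1
  hC1 : 1 ≤ C1
  hh0 : 0 < h0
  hh1 : 5 * h0 ≤ 1
  hr1 : r < 1
  hr : s * Real.exp (5 * h0) ≤ r
  hcurv : 16 * kap r ^ 2 * h0 ≤ s
  hcurv2 : kap r * (4 * h0 ^ 2) ≤ 1 / 2
  near : c1 * (2 * kap r) ≤ s
  far : 20 * s / (1 - r) ^ 4 + s ≤ C1 * (s / 3)

theorem exists_cst (s : ℝ) (hs0 : 0 < s) (hs1 : s < 1) : Nonempty (Cst s) := by
  set r := (1 + s) / 2 with hr
  have hr1 : r < 1 := by rw [hr]; linarith
  have hsr : s < r := by rw [hr]; linarith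
  have hr0 : 0 < r := hs0.trans hsr
  have hk : 0 < kap r := by unfold kap; have : 0 < 1 - r := by linarith
                            positivity
  -- h with s exp(5h) ≤ r
  obtain ⟨h1, hh1pos, hh1⟩ : ∃ h1 : ℝ, 0 < h1 ∧ s * Real.exp (5 * h1) ≤ r := by
    refine ⟨Real.log (r / s) / 5, ?_, ?_⟩
    · have : 0 < Real.log (r / s) := Real.log_pos ((one_lt_div hs0).2 hsr)
      positivity
    · have : 5 * (Real.log (r / s) / 5) = Real.log (r / s) := by ring
      rw [this, Real.exp_log (by positivity)]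
      field_simp
      exact le_rfl
  set h0 := min (min h1 (1 / 5)) (min (s / (16 * kap r ^ 2)) (1 / (8 * (kap r + 1)))) with hh0
  have hh0pos : 0 < h0 := by
    simp only [hh0, lt_min_iff]
    refine ⟨⟨hh1pos, by norm_num⟩, by positivity, by positivity⟩
  have b1 : h0 ≤ h1 := (min_le_left _ _).trans (min_le_left _ _)
  have b2 : h0 ≤ 1 / 5 := (min_le_left _ _).trans (min_le_right _ _)
  have b3 : h0 ≤ s / (16 * kap r ^ 2) := (min_le_right _ _).trans (min_le_left _ _)
  have b4 : h0 ≤ 1 / (8 * (kap r + 1)) := (min_le_right _ _).trans (min_le_right _ _)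
  have h1r : 0 < 1 - r := by linarith
  refine ⟨{
    c1 := min 1 (s / (2 * kap r))
    C1 := max 1 ((20 * s / (1 - r) ^ 4 + s) / (s / 3))
    h0 := h0
    r := r
    hs0 := hs0
    hs1 := hs1
    hc1 := lt_min one_pos (by positivity)
    hc1' := min_le_left _ _
    hC1 := le_max_left _ _
    hh0 := hh0pos
    hh1 := by linarith
    hr1 := hr1
    hr := by
      refine le_trans ?_ hh1
      gcongr
    hcurv := by
      rw [le_div_iff₀ (by positivity)] at b3
      linarith
    hcurv2 := by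
      rw [le_div_iff₀ (by positivity)] at b4
      have : h0 ^ 2 ≤ h0 * 1 := by rw [pow_two]; gcongr; linarith
      nlinarith
    near := by
      have : min 1 (s / (2 * kap r)) ≤ s / (2 * kap r) := min_le_right _ _
      calc min 1 (s / (2 * kap r)) * (2 * kap r) ≤ s / (2 * kap r) * (2 * kap r) := by gcongr
        _ = s := by field_simp
    far := by
      have : (20 * s / (1 - r) ^ 4 + s) / (s / 3) ≤ max 1 ((20 * s / (1 - r) ^ 4 + s) / (s / 3)) :=
        le_max_right _ _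
      calc 20 * s / (1 - r) ^ 4 + s = (20 * s / (1 - r) ^ 4 + s) / (s / 3) * (s / 3) := by field_simp
        _ ≤ _ := by gcongr }⟩

section real
variable {s : ℝ} (cs : Cst s) {h : ℝ} (hh0 : 0 < h) (hh1 : h ≤ cs.h0)
include hh0 hh1

theorem exp_bounds {t : ℝ} (ht : |t| ≤ 5 * h) : 0 ≤ s * Real.exp t ∧ s * Real.exp t ≤ cs.r := by
  have hs := cs.hs0
  refine ⟨by positivity, le_trans ?_ cs.hr⟩
  have := le_abs_self t
  gcongr
  linarith

theorem common1 : h ≤ 1 ∧ 16 * kap cs.r ^ 2 * h ^ 2 ≤ s * h ∧ kap cs.r * (4 * h ^ 2) ≤ 1 / 2 := by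
  have h1 := cs.hh1
  have h2 : h ≤ 1 := by have := cs.hh0; linarith
  refine ⟨h2, ?_, ?_⟩
  · have h3 := cs.hcurv
    have : 16 * kap cs.r ^ 2 * h ≤ s := le_trans (by gcongr) h3
    nlinarith
  · have hk : 0 ≤ kap cs.r := by
      have := cs.hs0
      exact kap_nonneg (le_trans (by positivity) cs.hr)
    refine le_trans ?_ cs.hcurv2
    gcongr

/-- (a) -/
theorem real_near_x {m N : ℕ} (hm : (m : ℝ) ≤ N * (1 + cs.c1 * h)) :
    ((1 - s * Real.exp (-h)) ^ 2 / ((1 - s * Real.exp (-h) / Real.exp h) *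
      (1 - s * Real.exp (-h) * Real.exp h))) ^ m *
    ((1 - s * Real.exp h * Real.exp h) * (1 - s * Real.exp h / Real.exp h) /
      (1 - s * Real.exp h) ^ 2) ^ N ≤ Real.exp (-(s * h ^ 3 * N / 2)) := by
  obtain ⟨c1, c2, c3⟩ := common1 cs hh0 hh1
  have hs := cs.hs0
  obtain ⟨x10, x1r⟩ := exp_bounds cs hh0 hh1 (t := h) (by rw [abs_of_pos hh0]; linarith)
  obtain ⟨x20, x2r⟩ := exp_bounds cs hh0 hh1 (t := -h) (by rw [abs_neg, abs_of_pos hh0]; linarith)
  have hN : (0 : ℝ) ≤ N := Nat.cast_nonneg _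
  have hc1 := cs.hc1
  have hc1' := cs.hc1'
  have hk2 : kap (s * Real.exp (-h)) ≤ kap cs.r := kap_mono x20 x2r cs.hr1
  have hk20 := kap_nonneg x20
  have hsub := kap_sub (x := s * Real.exp (-h)) (y := s * Real.exp h) x20
    (by gcongr; linarith) (by linarith [cs.hr1])
  have hdiff : 2 * s * h ≤ s * Real.exp h - s * Real.exp (-h) := by
    have := Real.self_le_sinh_iff.2 hh0.le
    rw [Real.sinh_eq] at this
    nlinarith
  have hm2 : (m : ℝ) ≤ 2 * N := by
    have : cs.c1 * h ≤ 1 := by nlinarith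
    nlinarith
  have hδ : (s * h) * N ≤ N * kap (s * Real.exp h) - m * kap (s * Real.exp (-h)) := by
    have e1 : (m : ℝ) * kap (s * Real.exp (-h)) ≤ N * (1 + cs.c1 * h) * kap (s * Real.exp (-h)) := by
      gcongr
    have e2 : cs.c1 * h * kap (s * Real.exp (-h)) ≤ s * h / 2 := by
      have := cs.near
      calc cs.c1 * h * kap (s * Real.exp (-h)) ≤ cs.c1 * h * kap cs.r := by gcongr
        _ = (cs.c1 * (2 * kap cs.r)) * h / 2 := by ring
        _ ≤ _ := by gcongr
    have e3 : 0 ≤ N * (kap (s * Real.exp h) - kap (s * Real.exp (-h)) - 2 * s * h) := by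
      apply mul_nonneg hN; linarith
    have e4 : 0 ≤ N * (s * h / 2 - cs.c1 * h * kap (s * Real.exp (-h))) := by
      apply mul_nonneg hN; linarith
    have e5 : 0 ≤ N * (s * h) := by positivity
    nlinarith
  have hfin := final_bound (n1 := N) (n2 := m) (N := N) (δ := s * h) cs.hr1 hh0 c1 x10 x1r x20 x2r hm2 hδ c2 c3
  rw [mul_comm]
  refine hfin.trans (Real.exp_le_exp.2 (le_of_eq ?_))
  ring

/-- (b) -/
theorem real_far_x {m N : ℕ} (hm : (m : ℝ) ≤ N * (1 - cs.C1 * h)) :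
    ((1 - s * Real.exp (5 * h)) ^ 2 / ((1 - s * Real.exp (5 * h) / Real.exp h) *
      (1 - s * Real.exp (5 * h) * Real.exp h))) ^ m *
    ((1 - s * Real.exp (-(5 * h)) * Real.exp h) * (1 - s * Real.exp (-(5 * h)) / Real.exp h) /
      (1 - s * Real.exp (-(5 * h))) ^ 2) ^ N ≤ Real.exp (-(s * h ^ 3 * N / 2)) := by
  obtain ⟨c1, c2, c3⟩ := common1 cs hh0 hh1
  have hs := cs.hs0
  obtain ⟨x20, x2r⟩ := exp_bounds cs hh0 hh1 (t := 5 * h) (by rw [abs_of_pos (by positivity)])
  obtain ⟨x10, x1r⟩ := exp_bounds cs hh0 hh1 (t := -(5 * h)) (by rw [abs_neg, abs_of_pos (by positivity)])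
  have hN : (0 : ℝ) ≤ N := Nat.cast_nonneg _
  have hC1 := cs.hC1
  have hk20 := kap_nonneg x20
  have hlip := kap_lip (x := s * Real.exp (-(5 * h))) (y := s * Real.exp (5 * h)) (r := cs.r) x10
    (by gcongr; linarith) x2r cs.hr1
  have h1r : 0 < 1 - cs.r := by linarith [cs.hr1]
  have hdiff : s * Real.exp (5 * h) - s * Real.exp (-(5 * h)) ≤ 20 * s * h := by
    have a1 := exp_sub_one_le (h := 5 * h) (by positivity) (by have := cs.hh1; linarith)
    have a2 := Real.one_sub_le_exp_neg (5 * h)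
    nlinarith
  have hm2 : (m : ℝ) ≤ 2 * N := by
    have : 0 ≤ cs.C1 * h := by positivity
    nlinarith
  have hk2s : s / 3 ≤ kap (s * Real.exp (5 * h)) := by
    have := le_kap x20 (by linarith [cs.hr1])
    have h1 : 1 ≤ Real.exp (5 * h) := Real.one_le_exp (by positivity)
    nlinarith
  have hδ : (s * h) * N ≤ N * kap (s * Real.exp (-(5 * h))) - m * kap (s * Real.exp (5 * h)) := by
    have e1 : (m : ℝ) * kap (s * Real.exp (5 * h)) ≤ N * (1 - cs.C1 * h) * kap (s * Real.exp (5 * h)) := by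
      gcongr
    have e2 : kap (s * Real.exp (5 * h)) - kap (s * Real.exp (-(5 * h))) ≤ 20 * s * h / (1 - cs.r) ^ 4 :=
      hlip.trans (by gcongr)
    have e3 : (20 * s / (1 - cs.r) ^ 4 + s) * h ≤ cs.C1 * h * kap (s * Real.exp (5 * h)) := by
      calc (20 * s / (1 - cs.r) ^ 4 + s) * h ≤ cs.C1 * (s / 3) * h := by
            have := cs.far
            gcongr
        _ = cs.C1 * h * (s / 3) := by ring
        _ ≤ _ := by gcongr
    have e4 : 0 ≤ N * (cs.C1 * h * kap (s * Real.exp (5 * h)) -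
        (kap (s * Real.exp (5 * h)) - kap (s * Real.exp (-(5 * h)))) - s * h) := by
      apply mul_nonneg hN
      have : 20 * s * h / (1 - cs.r) ^ 4 = 20 * s / (1 - cs.r) ^ 4 * h := by ring
      nlinarith
    nlinarith
  have hfin := final_bound (n1 := N) (n2 := m) (N := N) (δ := s * h) cs.hr1 hh0 c1 x10 x1r x20 x2r hm2 hδ c2 c3
  rw [mul_comm]
  refine hfin.trans (Real.exp_le_exp.2 (le_of_eq ?_))
  ring

/-- (c) -/
theorem real_near_y {m N : ℕ} (hm : (N : ℝ) * (1 - cs.c1 * h) ≤ m) :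
    ((1 - s * Real.exp h * Real.exp h) * (1 - s * Real.exp h / Real.exp h) /
      (1 - s * Real.exp h) ^ 2) ^ m *
    ((1 - s * Real.exp (-h)) ^ 2 / ((1 - s * Real.exp (-h) / Real.exp h) *
      (1 - s * Real.exp (-h) * Real.exp h))) ^ N ≤ Real.exp (-(s * h ^ 3 * N / 2)) := by
  obtain ⟨c1, c2, c3⟩ := common1 cs hh0 hh1
  have hs := cs.hs0
  obtain ⟨x10, x1r⟩ := exp_bounds cs hh0 hh1 (t := h) (by rw [abs_of_pos hh0]; linarith)
  obtain ⟨x20, x2r⟩ := exp_bounds cs hh0 hh1 (t := -h) (by rw [abs_neg, abs_of_pos hh0]; linarith)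
  have hN : (0 : ℝ) ≤ N := Nat.cast_nonneg _
  have hc1 := cs.hc1
  have hk1 : kap (s * Real.exp h) ≤ kap cs.r := kap_mono x10 x1r cs.hr1
  have hk10 := kap_nonneg x10
  have hsub := kap_sub (x := s * Real.exp (-h)) (y := s * Real.exp h) x20
    (by gcongr; linarith) (by linarith [cs.hr1])
  have hdiff : 2 * s * h ≤ s * Real.exp h - s * Real.exp (-h) := by
    have := Real.self_le_sinh_iff.2 hh0.le
    rw [Real.sinh_eq] at this
    nlinarith
  have hδ : (s * h) * N ≤ m * kap (s * Real.exp h) - N * kap (s * Real.exp (-h)) := by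
    have e1 : (N : ℝ) * (1 - cs.c1 * h) * kap (s * Real.exp h) ≤ m * kap (s * Real.exp h) := by
      gcongr
    have e2 : cs.c1 * h * kap (s * Real.exp h) ≤ s * h / 2 := by
      have := cs.near
      calc cs.c1 * h * kap (s * Real.exp h) ≤ cs.c1 * h * kap cs.r := by gcongr
        _ = (cs.c1 * (2 * kap cs.r)) * h / 2 := by ring
        _ ≤ _ := by gcongr
    have e3 : 0 ≤ N * (kap (s * Real.exp h) - kap (s * Real.exp (-h)) - 2 * s * h) := by
      apply mul_nonneg hN; linarith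
    have e4 : 0 ≤ N * (s * h / 2 - cs.c1 * h * kap (s * Real.exp h)) := by
      apply mul_nonneg hN; linarith
    have e5 : 0 ≤ N * (s * h) := by positivity
    nlinarith
  have hfin := final_bound (n1 := m) (n2 := N) (N := N) (δ := s * h) cs.hr1 hh0 c1 x10 x1r x20 x2r
    (by linarith) hδ c2 c3
  refine hfin.trans (Real.exp_le_exp.2 (le_of_eq ?_))
  ring

/-- (d) -/
theorem real_far_y {m N : ℕ} (hm : (N : ℝ) * (1 + cs.C1 * h) ≤ m) :
    ((1 - s * Real.exp (-(5 * h)) * Real.exp h) * (1 - s * Real.exp (-(5 * h)) / Real.exp h) /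
      (1 - s * Real.exp (-(5 * h))) ^ 2) ^ m *
    ((1 - s * Real.exp (5 * h)) ^ 2 / ((1 - s * Real.exp (5 * h) / Real.exp h) *
      (1 - s * Real.exp (5 * h) * Real.exp h))) ^ N ≤ Real.exp (-(s * h ^ 3 * N / 2)) := by
  obtain ⟨c1, c2, c3⟩ := common1 cs hh0 hh1
  have hs := cs.hs0
  obtain ⟨x20, x2r⟩ := exp_bounds cs hh0 hh1 (t := 5 * h) (by rw [abs_of_pos (by positivity)])
  obtain ⟨x10, x1r⟩ := exp_bounds cs hh0 hh1 (t := -(5 * h)) (by rw [abs_neg, abs_of_pos (by positivity)])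
  have hN : (0 : ℝ) ≤ N := Nat.cast_nonneg _
  have hC1 := cs.hC1
  have hk10 := kap_nonneg x10
  have hlip := kap_lip (x := s * Real.exp (-(5 * h))) (y := s * Real.exp (5 * h)) (r := cs.r) x10
    (by gcongr; linarith) x2r cs.hr1
  have h1r : 0 < 1 - cs.r := by linarith [cs.hr1]
  have hdiff : s * Real.exp (5 * h) - s * Real.exp (-(5 * h)) ≤ 20 * s * h := by
    have a1 := exp_sub_one_le (h := 5 * h) (by positivity) (by have := cs.hh1; linarith)
    have a2 := Real.one_sub_le_exp_neg (5 * h)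
    nlinarith
  have hk1s : s / 3 ≤ kap (s * Real.exp (-(5 * h))) := by
    have h0 := le_kap x10 (by linarith [cs.hr1])
    have h1 : Real.exp 1 < 3 := by have := Real.exp_one_lt_d9; linarith
    have h2 : Real.exp (-1) ≤ Real.exp (-(5 * h)) := Real.exp_le_exp.2 (by have := cs.hh1; linarith)
    have h3 : 1 / 3 ≤ Real.exp (-1) := by
      rw [Real.exp_neg, ← one_div]
      exact one_div_le_one_div_of_le (Real.exp_pos _) h1.le
    nlinarith
  have hδ : (s * h) * N ≤ m * kap (s * Real.exp (-(5 * h))) - N * kap (s * Real.exp (5 * h)) := by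
    have e1 : (N : ℝ) * (1 + cs.C1 * h) * kap (s * Real.exp (-(5 * h))) ≤
        m * kap (s * Real.exp (-(5 * h))) := by
      gcongr
    have e2 : kap (s * Real.exp (5 * h)) - kap (s * Real.exp (-(5 * h))) ≤ 20 * s * h / (1 - cs.r) ^ 4 :=
      hlip.trans (by gcongr)
    have e3 : (20 * s / (1 - cs.r) ^ 4 + s) * h ≤ cs.C1 * h * kap (s * Real.exp (-(5 * h))) := by
      calc (20 * s / (1 - cs.r) ^ 4 + s) * h ≤ cs.C1 * (s / 3) * h := by
            have := cs.far
            gcongr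
        _ = cs.C1 * h * (s / 3) := by ring
        _ ≤ _ := by gcongr
    have e4 : 0 ≤ N * (cs.C1 * h * kap (s * Real.exp (-(5 * h))) -
        (kap (s * Real.exp (5 * h)) - kap (s * Real.exp (-(5 * h)))) - s * h) := by
      apply mul_nonneg hN
      have : 20 * s * h / (1 - cs.r) ^ 4 = 20 * s / (1 - cs.r) ^ 4 * h := by ring
      nlinarith
    nlinarith
  have hfin := final_bound (n1 := m) (n2 := N) (N := N) (δ := s * h) cs.hr1 hh0 c1 x10 x1r x20 x2r
    (by linarith) hδ c2 c3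
  refine hfin.trans (Real.exp_le_exp.2 (le_of_eq ?_))
  ring

end real

end Pool.Agent.MP2c
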