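import Mathlib

/-! Directed paths in the lattice, last passage times, Pearson correlation. (helper39) -/

set_option autoImplicit false

namespace Pool.Agent.Work.MP_2c6138_pr.Nat

open MeasureTheory ProbabilityTheory

/-- The step from `a` to `b` is `e₁ = (1, 0)` or `e₂ = (0, 1)`. -/
def Step (a b : ℤ × ℤ) : Prop := b = a + (1, 0) ∨ b = a + (0, 1)

/-- The list `γ` of sites is a directed path from `u` to `v`: its first site is `u`, its last
site is `v`, and each step is `e₁` or `e₂`. -/
def IsDirectedPath (u v : ℤ × ℤ) (γ : List (ℤ × ℤ)) : Prop :=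
  γ.head? = some u ∧ γ.getLast? = some v ∧ γ.IsChain Step

/-- The last-passage time `T(u, v)` of the weights `w`: the maximum of the sum of the weights
along the directed paths from `u` to `v`. -/
noncomputable def passageTime (w : ℤ × ℤ → ℕ) (u v : ℤ × ℤ) : ℕ :=
  sSup {s | ∃ γ : List (ℤ × ℤ), IsDirectedPath u v γ ∧ s = (γ.map w).sum}

/-- The Pearson correlation of two real random variables. -/
noncomputable def pearson {Ω : Type*} [MeasurableSpace Ω] (P : Measure Ω) (X Y : Ω → ℝ) : ℝ :=
  covariance X Y P / Real.sqrt (variance X P * variance Y P)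

end Pool.Agent.Work.MP_2c6138_pr.Nat
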