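import Mathlib

/-! Independence of triples and the law of a resampled pair. (helper39) -/

set_option autoImplicit false

namespace Pool.Agent.Work.MP_2c6138_pr.Nat

open MeasureTheory ProbabilityTheory

section

variable {Ω ι : Type*} [MeasurableSpace Ω] {P : Measure Ω}

theorem one_site {w w' ξ : ι → Ω → ℕ} (h : iIndepFun (Sum.elim w (Sum.elim w' ξ)) P) (v : ι)
    (A B C : Set ℕ) :
    P {a | w v a ∈ A ∧ w' v a ∈ B ∧ ξ v a ∈ C} =
      P {a | w v a ∈ A} * (P {a | w' v a ∈ B} * P {a | ξ v a ∈ C}) := by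
  classical
  have := h.measure_inter_preimage_eq_mul {Sum.inl v, Sum.inr (Sum.inl v), Sum.inr (Sum.inr v)}
    (sets := Sum.elim (fun _ => A) (Sum.elim (fun _ => B) (fun _ => C)))
    (fun i _ => MeasurableSet.of_discrete)
  rw [Finset.prod_insert (by simp), Finset.prod_insert (by simp), Finset.prod_singleton,
    Finset.set_biInter_insert, Finset.set_biInter_insert, Finset.set_biInter_singleton] at this
  simpa [Set.preimage, Set.ofPred_and] using this

theorem all_sites [Fintype ι] {w w' ξ : ι → Ω → ℕ}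
    (h : iIndepFun (Sum.elim w (Sum.elim w' ξ)) P) (A B C : ι → Set ℕ) :
    P {a | ∀ v, w v a ∈ A v ∧ w' v a ∈ B v ∧ ξ v a ∈ C v} =
      (∏ v, P {a | w v a ∈ A v}) * ((∏ v, P {a | w' v a ∈ B v}) * ∏ v, P {a | ξ v a ∈ C v}) := by
  classical
  have := h.measure_inter_preimage_eq_mul Finset.univ
    (sets := Sum.elim A (Sum.elim B C)) (fun i _ => MeasurableSet.of_discrete)
  rw [Fintype.prod_sum_type, Fintype.prod_sum_type] at this
  simp only [Sum.elim_inl, Sum.elim_inr] at this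
  simp only [Set.preimage] at this
  rw [← this]
  congr 1
  ext a
  simp only [Set.mem_ofPred_eq, Finset.mem_univ, Set.iInter_true, Set.mem_iInter, Sum.forall,
    Sum.elim_inl, Sum.elim_inr]
  constructor
  · intro h
    exact ⟨fun v => (h v).1, fun v => (h v).2.1, fun v => (h v).2.2⟩
  · rintro ⟨h1, h2, h3⟩ v
    exact ⟨h1 v, h2 v, h3 v⟩

theorem indep_triples [Fintype ι] [IsProbabilityMeasure P] {w w' ξ : ι → Ω → ℕ}
    (hw : ∀ v, Measurable (w v)) (hw' : ∀ v, Measurable (w' v)) (hξ : ∀ v, Measurable (ξ v))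
    (h : iIndepFun (Sum.elim w (Sum.elim w' ξ)) P) :
    iIndepFun (fun v a => (w v a, w' v a, ξ v a)) P := by
  have hm : ∀ v, Measurable (fun a => (w v a, w' v a, ξ v a)) := fun v =>
    (hw v).prodMk ((hw' v).prodMk (hξ v))
  rw [iIndepFun_iff_map_fun_eq_pi_map (fun v => (hm v).aemeasurable)]
  have : ∀ v, IsProbabilityMeasure (P.map (fun a => (w v a, w' v a, ξ v a))) := fun v =>
    Measure.isProbabilityMeasure_map (hm v).aemeasurable
  refine Measure.ext_of_singleton fun c => ?_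
  rw [Measure.map_apply (measurable_pi_lambda _ hm) (MeasurableSet.singleton c),
    ← Set.univ_pi_singleton, Measure.pi_pi]
  have h1 : ∀ v, P.map (fun a => (w v a, w' v a, ξ v a)) {c v} =
      P {a | w v a ∈ ({(c v).1} : Set ℕ)} *
        (P {a | w' v a ∈ ({(c v).2.1} : Set ℕ)} * P {a | ξ v a ∈ ({(c v).2.2} : Set ℕ)}) := by
    intro v
    rw [Measure.map_apply (hm v) (MeasurableSet.singleton _), ← one_site h v]
    congr 1
    ext a
    simp [Prod.ext_iff]
  simp only [h1]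
  rw [Finset.prod_mul_distrib, Finset.prod_mul_distrib, ← all_sites h]
  congr 1
  ext a
  simp [Prod.ext_iff]

/-- The pairs (weight, resampled weight) are independent. -/
theorem indep_pairs [Fintype ι] [IsProbabilityMeasure P] {w w' ξ : ι → Ω → ℕ}
    (hw : ∀ v, Measurable (w v)) (hw' : ∀ v, Measurable (w' v)) (hξ : ∀ v, Measurable (ξ v))
    (h : iIndepFun (Sum.elim w (Sum.elim w' ξ)) P) :
    iIndepFun (fun v a => (w v a, if ξ v a = 1 then w' v a else w v a)) P :=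
  (indep_triples hw hw' hξ h).comp (fun _ q => (q.1, if q.2.2 = 1 then q.2.1 else q.1))
    (fun _ => Measurable.of_discrete)

/-- The law of a pair (weight, resampled weight). -/
theorem law_pair [IsProbabilityMeasure P] {w w' ξ : ι → Ω → ℕ}
    (hw : ∀ v, Measurable (w v)) (hw' : ∀ v, Measurable (w' v)) (hξ : ∀ v, Measurable (ξ v))
    (h : iIndepFun (Sum.elim w (Sum.elim w' ξ)) P) (v : ι) (ε : ℝ) (hε : 0 ≤ ε) (hε1 : ε ≤ 1)
    (ν : Measure ℕ) [IsProbabilityMeasure ν]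
    (h1 : ∀ k, P {a | w v a = k} = ν {k}) (h2 : ∀ k, P {a | w' v a = k} = ν {k})
    (h3 : P {a | ξ v a = 1} = ENNReal.ofReal ε) :
    P.map (fun a => (w v a, if ξ v a = 1 then w' v a else w v a)) =
      (Real.toNNReal (1 - ε)) • Measure.map (fun a : ℕ => (a, a)) ν +
        (Real.toNNReal ε) • Measure.prod ν ν := by
  have hm : Measurable (fun a => (w v a, if ξ v a = 1 then w' v a else w v a)) :=
    (Measurable.of_discrete (f := fun q : ℕ × ℕ × ℕ =>
      (q.1, if q.2.2 = 1 then q.2.1 else q.1))).comp ((hw v).prodMk ((hw' v).prodMk (hξ v)))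
  have h4 : P {a | ξ v a ∈ ({1}ᶜ : Set ℕ)} = ENNReal.ofReal (1 - ε) := by
    have h5 : {a | ξ v a ∈ ({1}ᶜ : Set ℕ)} = (ξ v ⁻¹' {1})ᶜ := by ext a; simp
    have h5' : P (ξ v ⁻¹' {1}) = ENNReal.ofReal ε := by
      rw [← h3]
      congr 1
    rw [h5, prob_compl_eq_one_sub ((hξ v) (MeasurableSet.singleton 1)), h5',
      ENNReal.ofReal_sub _ hε, ENNReal.ofReal_one]
  refine Measure.ext_of_singleton fun c => ?_
  obtain ⟨a, b⟩ := c
  rw [Measure.map_apply hm (MeasurableSet.singleton _)]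
  have h6 : (fun x => (w v x, if ξ v x = 1 then w' v x else w v x)) ⁻¹' {(a, b)} =
      {x | w v x ∈ ({a} : Set ℕ) ∧ w' v x ∈ ({b} : Set ℕ) ∧ ξ v x ∈ ({1} : Set ℕ)} ∪
        {x | w v x ∈ ({a} ∩ {b} : Set ℕ) ∧ w' v x ∈ (Set.univ : Set ℕ) ∧
          ξ v x ∈ ({1}ᶜ : Set ℕ)} := by
    ext x
    simp only [Set.mem_preimage, Set.mem_singleton_iff, Prod.mk.injEq, Set.mem_union,
      Set.mem_ofPred_eq, Set.mem_inter_iff, Set.mem_univ, true_and, Set.mem_compl_iff]
    by_cases hx : ξ v x = 1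
    · simp [hx]
    · simp [hx]
  have h7 : Disjoint
      {x | w v x ∈ ({a} : Set ℕ) ∧ w' v x ∈ ({b} : Set ℕ) ∧ ξ v x ∈ ({1} : Set ℕ)}
      {x | w v x ∈ ({a} ∩ {b} : Set ℕ) ∧ w' v x ∈ (Set.univ : Set ℕ) ∧
          ξ v x ∈ ({1}ᶜ : Set ℕ)} := by
    rw [Set.disjoint_left]
    rintro x ⟨-, -, hx⟩ ⟨-, -, hy⟩
    exact hy hx
  have h8 : MeasurableSet {x | w v x ∈ ({a} ∩ {b} : Set ℕ) ∧ w' v x ∈ (Set.univ : Set ℕ) ∧
          ξ v x ∈ ({1}ᶜ : Set ℕ)} := by
    have h9 : {x | w v x ∈ ({a} ∩ {b} : Set ℕ) ∧ w' v x ∈ (Set.univ : Set ℕ) ∧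
        ξ v x ∈ ({1}ᶜ : Set ℕ)} =
        (w v ⁻¹' ({a} ∩ {b})) ∩ ((w' v ⁻¹' Set.univ) ∩ (ξ v ⁻¹' {1}ᶜ)) := by
      ext x; simp
    rw [h9]
    exact ((hw v) MeasurableSet.of_discrete).inter (((hw' v) MeasurableSet.of_discrete).inter
      ((hξ v) MeasurableSet.of_discrete))
  rw [h6, measure_union h7 h8, one_site h v, one_site h v, h4]
  have e1 : P {x | w v x ∈ ({a} : Set ℕ)} = ν {a} := h1 a
  have e2 : P {x | w' v x ∈ ({b} : Set ℕ)} = ν {b} := h2 b
  have e3 : P {x | ξ v x ∈ ({1} : Set ℕ)} = ENNReal.ofReal ε := h3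
  have e4 : P {x | w' v x ∈ (Set.univ : Set ℕ)} = 1 := by simp
  have e5 : P {x | w v x ∈ ({a} ∩ {b} : Set ℕ)} = Measure.map (fun a : ℕ => (a, a)) ν {(a, b)} := by
    rw [Measure.map_apply Measurable.of_discrete (MeasurableSet.singleton _)]
    have e6 : (fun a : ℕ => (a, a)) ⁻¹' {(a, b)} = ({a} ∩ {b} : Set ℕ) := by
      ext x; simp
    rw [e6]
    by_cases hab : a = b
    · subst hab
      rw [Set.inter_self]
      exact h1 a
    · have : ({a} ∩ {b} : Set ℕ) = ∅ := by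
        ext x
        simp only [Set.mem_inter_iff, Set.mem_singleton_iff, Set.mem_empty_iff_false, iff_false]
        rintro ⟨rfl, h⟩
        exact hab h
      rw [this]
      simp
  have e7 : Measure.prod ν ν {(a, b)} = ν {a} * ν {b} := by
    rw [← Set.singleton_prod_singleton, Measure.prod_prod]
  rw [e1, e2, e3, e4, e5, Measure.add_apply, Measure.smul_apply, Measure.smul_apply, e7]
  simp only [ENNReal.smul_def, smul_eq_mul]
  change _ = ENNReal.ofReal (1 - ε) * _ + ENNReal.ofReal ε * _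
  ring

end

end Pool.Agent.Work.MP_2c6138_pr.Nat
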