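import Pool.Agent.Work.MP_2c6138_pr.NatPath
import Pool.Agent.Work.MP_2c6138_pr.NatIndep
import Pool.Agent.Work.MP_2c6138_pr.Final

/-! The correlation of the passage times of directed paths, on any probability space. (helper39) -/

set_option autoImplicit false

namespace Pool.Agent.Work.MP_2c6138_pr.Nat

open MeasureTheory ProbabilityTheory Filter Pool.Agent.MP2c

theorem geometric_singleton {p : ℝ} (hp : 0 < p) (hp1 : p ≤ 1) (k : ℕ) :
    (geometricPMF hp hp1).toMeasure {k} = ENNReal.ofReal (p * (1 - p) ^ k) := by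
  rw [PMF.toMeasure_apply_singleton _ _ (MeasurableSet.singleton k)]
  change ENNReal.ofReal (geometricPMFReal p k) = _
  rw [geometricPMFReal, mul_comm]

/-- the sites of the box -/
def site {N : ℕ} (v : Fin N × Fin N) : ℤ × ℤ := ((v.1.1 : ℤ), (v.2.1 : ℤ))

theorem site_injective {N : ℕ} : Function.Injective (site (N := N)) := by
  rintro ⟨⟨a, ha⟩, ⟨b, hb⟩⟩ ⟨⟨c, hc⟩, ⟨d, hd⟩⟩ h
  simp only [site, Prod.mk.injEq, Nat.cast_inj] at h
  obtain ⟨rfl, rfl⟩ := h
  rfl

theorem corr_eq {Ω : Type*} [MeasurableSpace Ω] (P : Measure Ω) [IsProbabilityMeasure P]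
    (w w' ξ : ℤ × ℤ → Ω → ℕ) (hw : ∀ v, Measurable (w v)) (hw' : ∀ v, Measurable (w' v))
    (hξ : ∀ v, Measurable (ξ v)) (h : iIndepFun (Sum.elim w (Sum.elim w' ξ)) P)
    (ε : ℝ) (hε : 0 ≤ ε) (hε1 : ε ≤ 1) (ν : Measure ℕ) [IsProbabilityMeasure ν]
    (h1 : ∀ v k, P {a | w v a = k} = ν {k}) (h2 : ∀ v k, P {a | w' v a = k} = ν {k})
    (h3 : ∀ v, P {a | ξ v a = 1} = ENNReal.ofReal ε) (n : ℕ) :
    pearson P (fun a => (passageTime (fun v => w v a) (0, 0) ((n : ℤ), (n : ℤ)) : ℝ))
        (fun a => (passageTime (fun v => if ξ v a = 1 then w' v a else w v a) (0, 0)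
          ((n : ℤ), (n : ℤ)) : ℝ)) =
      covariance (fun ω : Fin (n + 1) × Fin (n + 1) → ℕ × ℕ => (Tch (fun v => (ω v).1) : ℝ))
        (fun ω : Fin (n + 1) × Fin (n + 1) → ℕ × ℕ => (Tch (fun v => (ω v).2) : ℝ))
        (Measure.pi (fun _ : Fin (n + 1) × Fin (n + 1) =>
          (Real.toNNReal (1 - ε)) • Measure.map (fun a : ℕ => (a, a)) ν +
            (Real.toNNReal ε) • Measure.prod ν ν)) /
      Real.sqrt (variance (fun ω : Fin (n + 1) × Fin (n + 1) → ℕ × ℕ =>
          (Tch (fun v => (ω v).1) : ℝ))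
        (Measure.pi (fun _ : Fin (n + 1) × Fin (n + 1) =>
          (Real.toNNReal (1 - ε)) • Measure.map (fun a : ℕ => (a, a)) ν +
            (Real.toNNReal ε) • Measure.prod ν ν)) *
        variance (fun ω : Fin (n + 1) × Fin (n + 1) → ℕ × ℕ => (Tch (fun v => (ω v).2) : ℝ))
        (Measure.pi (fun _ : Fin (n + 1) × Fin (n + 1) =>
          (Real.toNNReal (1 - ε)) • Measure.map (fun a : ℕ => (a, a)) ν +
            (Real.toNNReal ε) • Measure.prod ν ν))) := by
  set X : Ω → (Fin (n + 1) × Fin (n + 1) → ℕ × ℕ) := fun a v =>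
    (w (site v) a, if ξ (site v) a = 1 then w' (site v) a else w (site v) a) with hX
  have hsite : iIndepFun (Sum.elim (fun v : Fin (n + 1) × Fin (n + 1) => w (site v))
      (Sum.elim (fun v : Fin (n + 1) × Fin (n + 1) => w' (site v))
        (fun v : Fin (n + 1) × Fin (n + 1) => ξ (site v)))) P := by
    have hg : Function.Injective (Sum.map (site (N := n + 1))
        (Sum.map (site (N := n + 1)) (site (N := n + 1)))) :=
      Sum.map_injective.2 ⟨site_injective, Sum.map_injective.2 ⟨site_injective, site_injective⟩⟩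
    have := h.precomp hg
    convert this using 1
    funext i
    rcases i with i | i | i <;> rfl
  have hm : ∀ v : Fin (n + 1) × Fin (n + 1), Measurable (fun a => (w (site v) a,
      if ξ (site v) a = 1 then w' (site v) a else w (site v) a)) := fun v =>
    (Measurable.of_discrete (f := fun q : ℕ × ℕ × ℕ =>
      (q.1, if q.2.2 = 1 then q.2.1 else q.1))).comp
        ((hw (site v)).prodMk ((hw' (site v)).prodMk (hξ (site v))))
  have hmX : Measurable X := measurable_pi_lambda _ hm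
  have hlaw : P.map X = Measure.pi (fun _ : Fin (n + 1) × Fin (n + 1) =>
      (Real.toNNReal (1 - ε)) • Measure.map (fun a : ℕ => (a, a)) ν +
        (Real.toNNReal ε) • Measure.prod ν ν) := by
    have h4 := indep_pairs (fun v => hw (site v)) (fun v => hw' (site v)) (fun v => hξ (site v))
      hsite
    rw [iIndepFun_iff_map_fun_eq_pi_map (fun v => (hm v).aemeasurable)] at h4
    rw [hX, h4]
    congr 1
    funext v
    exact law_pair (fun v => hw (site v)) (fun v => hw' (site v)) (fun v => hξ (site v)) hsite v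
      ε hε hε1 ν (h1 _) (h2 _) (h3 _)
  have hc := covariance_map_fun (μ := P) (Z := X)
    (X := fun ω : Fin (n + 1) × Fin (n + 1) → ℕ × ℕ => (Tch (fun v => (ω v).1) : ℝ))
    (Y := fun ω : Fin (n + 1) × Fin (n + 1) → ℕ × ℕ => (Tch (fun v => (ω v).2) : ℝ))
    Measurable.of_discrete.aestronglyMeasurable Measurable.of_discrete.aestronglyMeasurable
    hmX.aemeasurable
  have hv1 := variance_map (μ := P) (Y := X)
    (X := fun ω : Fin (n + 1) × Fin (n + 1) → ℕ × ℕ => (Tch (fun v => (ω v).1) : ℝ))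
    Measurable.of_discrete.aemeasurable hmX.aemeasurable
  have hv2 := variance_map (μ := P) (Y := X)
    (X := fun ω : Fin (n + 1) × Fin (n + 1) → ℕ × ℕ => (Tch (fun v => (ω v).2) : ℝ))
    Measurable.of_discrete.aemeasurable hmX.aemeasurable
  rw [← hlaw, hc, hv1, hv2]
  unfold pearson
  have e1 : (fun a => (passageTime (fun v => w v a) (0, 0) ((n : ℤ), (n : ℤ)) : ℝ)) =
      fun a => (Tch (fun v => (X a v).1) : ℝ) := by
    funext a
    rw [passageTime_eq]
    rfl
  have e2 : (fun a => (passageTime (fun v => if ξ v a = 1 then w' v a else w v a) (0, 0)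
      ((n : ℤ), (n : ℤ)) : ℝ)) = fun a => (Tch (fun v => (X a v).2) : ℝ) := by
    funext a
    rw [passageTime_eq]
    rfl
  rw [e1, e2]
  rfl

theorem main {p ε : ℝ} (hp : 0 < p) (hp1 : p < 1) (hε : 0 < ε) (hε1 : ε < 1)
    {Ω : Type*} [MeasurableSpace Ω] (P : Measure Ω) [IsProbabilityMeasure P]
    (w w' ξ : ℤ × ℤ → Ω → ℕ) (hw : ∀ v, Measurable (w v)) (hw' : ∀ v, Measurable (w' v))
    (hξ : ∀ v, Measurable (ξ v)) (h : iIndepFun (Sum.elim w (Sum.elim w' ξ)) P)
    (h1 : ∀ v k, P {a | w v a = k} = ENNReal.ofReal (p * (1 - p) ^ k))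
    (h2 : ∀ v k, P {a | w' v a = k} = ENNReal.ofReal (p * (1 - p) ^ k))
    (h3 : ∀ v, P {a | ξ v a = 1} = ENNReal.ofReal ε) :
    Tendsto (fun n : ℕ =>
      pearson P (fun a => (passageTime (fun v => w v a) (0, 0) ((n : ℤ), (n : ℤ)) : ℝ))
        (fun a => (passageTime (fun v => if ξ v a = 1 then w' v a else w v a) (0, 0)
          ((n : ℤ), (n : ℤ)) : ℝ))) atTop (nhds 0) := by
  have ht : 0 < -Real.log (1 - ε) := by
    have := Real.log_neg (by linarith : 0 < 1 - ε) (by linarith)
    linarith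
  have hexp : Real.exp (-(-Real.log (1 - ε))) = 1 - ε := by
    rw [neg_neg, Real.exp_log (by linarith)]
  have key := (Pool.Agent.MP2c.frozen_of Pool.Agent.MP2c.all_bounds p hp hp1 _ ht).comp
    (tendsto_add_atTop_nat 1)
  rw [hexp, sub_sub_cancel] at key
  have : IsProbabilityMeasure (geometricPMF hp hp1.le).toMeasure :=
    PMF.toMeasure.isProbabilityMeasure _
  refine key.congr fun n => ?_
  exact (corr_eq P w w' ξ hw hw' hξ h ε hε.le hε1.le (geometricPMF hp hp1.le).toMeasure
    (fun v k => by rw [h1, geometric_singleton hp hp1.le])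
    (fun v k => by rw [h2, geometric_singleton hp hp1.le]) h3 n).symm

end Pool.Agent.Work.MP_2c6138_pr.Nat
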