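import Pool.Agent.Work.MP_2c6138_pr.NatDefs
import Pool.Agent.Work.MP_2c6138_pr.Bd.B04

/-! Directed paths and chains. (helper39) -/

set_option autoImplicit false

namespace Pool.Agent.Work.MP_2c6138_pr.Nat

open Finset Pool.Agent.MP2c

/-- the weights shifted by one -/
def sh (w : ℤ × ℤ → ℕ) : ℕ × ℕ → ℕ := fun p => w ((p.1 : ℤ) - 1, (p.2 : ℤ) - 1)

theorem sh_succ (w : ℤ × ℤ → ℕ) (i j : ℕ) : sh w (i + 1, j + 1) = w ((i : ℤ), (j : ℤ)) := by
  simp [sh]

theorem path_snoc {u a b : ℤ × ℤ} {γ : List (ℤ × ℤ)} (h : IsDirectedPath u a γ) (hs : Step a b) :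
    IsDirectedPath u b (γ ++ [b]) := by
  obtain ⟨h1, h2, h3⟩ := h
  refine ⟨?_, ?_, ?_⟩
  · cases γ with
    | nil => simp at h1
    | cons c t => simpa using h1
  · simp
  · rw [List.isChain_append]
    refine ⟨h3, by simp, ?_⟩
    intro x hx y hy
    rw [h2] at hx
    simp only [Option.mem_def, Option.some.injEq, List.head?_cons] at hx hy
    subst hx; subst hy
    exact hs

theorem exists_path (w : ℤ × ℤ → ℕ) : ∀ (N i j : ℕ), i + j = N →
    ∃ γ, IsDirectedPath (0, 0) ((i : ℤ), (j : ℤ)) γ ∧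
      (γ.map w).sum = cmax (sh w) 0 (i + 1) 0 (j + 1) := by
  intro N
  induction N with
  | zero =>
    intro i j hij
    obtain ⟨rfl, rfl⟩ : i = 0 ∧ j = 0 := by omega
    refine ⟨[(0, 0)], ⟨by simp, by simp, by simp⟩, ?_⟩
    rw [cmax_rec _ _ _ _ _ le_rfl le_rfl, cmax_empty_col, cmax_empty_row, sh_succ]
    simp
  | succ N ih =>
    intro i j hij
    rw [cmax_rec _ _ _ _ _ (Nat.zero_le _) (Nat.zero_le _), sh_succ]
    have hL : ∀ j', j = j' + 1 → ∃ γ, IsDirectedPath (0, 0) ((i : ℤ), (j : ℤ)) γ ∧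
        (γ.map w).sum = w ((i : ℤ), (j : ℤ)) + cmax (sh w) 0 (i + 1) 0 j := by
      rintro j' rfl
      obtain ⟨γ, h1, h2⟩ := ih i j' (by omega)
      refine ⟨γ ++ [((i : ℤ), ((j' + 1 : ℕ) : ℤ))], path_snoc h1 (Or.inr (by simp)), ?_⟩
      simp only [List.map_append, List.sum_append, h2, List.map_cons, List.map_nil,
        List.sum_cons, List.sum_nil]
      omega
    have hR : ∀ i', i = i' + 1 → ∃ γ, IsDirectedPath (0, 0) ((i : ℤ), (j : ℤ)) γ ∧
        (γ.map w).sum = w ((i : ℤ), (j : ℤ)) + cmax (sh w) 0 i 0 (j + 1) := by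
      rintro i' rfl
      obtain ⟨γ, h1, h2⟩ := ih i' j (by omega)
      refine ⟨γ ++ [(((i' + 1 : ℕ) : ℤ), (j : ℤ))], path_snoc h1 (Or.inl (by simp)), ?_⟩
      simp only [List.map_append, List.sum_append, h2, List.map_cons, List.map_nil,
        List.sum_cons, List.sum_nil]
      omega
    rcases Nat.eq_zero_or_pos j with hj | hj
    · subst hj
      obtain ⟨γ, h1, h2⟩ := hR (i - 1) (by omega)
      refine ⟨γ, h1, ?_⟩
      rw [h2, cmax_empty_col, max_eq_right (Nat.zero_le _)]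
    rcases Nat.eq_zero_or_pos i with hi | hi
    · subst hi
      obtain ⟨γ, h1, h2⟩ := hL (j - 1) (by omega)
      refine ⟨γ, h1, ?_⟩
      rw [h2, cmax_empty_row, max_eq_left (Nat.zero_le _)]
    rcases le_total (cmax (sh w) 0 i 0 (j + 1)) (cmax (sh w) 0 (i + 1) 0 j) with h | h
    · obtain ⟨γ, h1, h2⟩ := hL (j - 1) (by omega)
      exact ⟨γ, h1, by rw [h2, max_eq_left h]⟩
    · obtain ⟨γ, h1, h2⟩ := hR (i - 1) (by omega)
      exact ⟨γ, h1, by rw [h2, max_eq_right h]⟩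

theorem path_le (w : ℤ × ℤ → ℕ) (γ : List (ℤ × ℤ)) : ∀ v : ℤ × ℤ, IsDirectedPath (0, 0) v γ →
    ∃ i j : ℕ, v = ((i : ℤ), (j : ℤ)) ∧ (γ.map w).sum ≤ cmax (sh w) 0 (i + 1) 0 (j + 1) := by
  induction γ using List.reverseRecOn with
  | nil =>
    rintro v ⟨h, -, -⟩
    simp at h
  | append_singleton γ a ih =>
    rintro v ⟨h1, h2, h3⟩
    have hav : a = v := by simpa using h2
    subst hav
    rcases eq_or_ne γ [] with h0 | h0
    · subst h0
      have ha : a = (0, 0) := by simpa using h1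
      subst ha
      refine ⟨0, 0, by simp, ?_⟩
      rw [cmax_rec _ _ _ _ _ le_rfl le_rfl, sh_succ]
      simp
    · rw [List.isChain_append] at h3
      obtain ⟨h3, -, h4⟩ := h3
      obtain ⟨b, hb⟩ : ∃ b, γ.getLast? = some b := by
        rcases hc : γ.getLast? with _ | b
        · exact absurd (List.getLast?_eq_none_iff.1 hc) h0
        · exact ⟨b, rfl⟩
      have hst : Step b a := h4 b hb a (by simp)
      have hh : γ.head? = some (0, 0) := by
        cases γ with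
        | nil => exact absurd rfl h0
        | cons c t => simpa using h1
      obtain ⟨i, j, rfl, hs⟩ := ih b ⟨hh, hb, h3⟩
      simp only [List.map_append, List.sum_append, List.map_cons, List.map_nil,
        List.sum_cons, List.sum_nil, add_zero]
      rcases hst with rfl | rfl
      · refine ⟨i + 1, j, by simp, ?_⟩
        rw [cmax_rec _ _ _ _ _ (Nat.zero_le _) (Nat.zero_le _), sh_succ]
        have e1 : ((i : ℤ), (j : ℤ)) + (1, 0) = (((i + 1 : ℕ) : ℤ), (j : ℤ)) := by simp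
        rw [e1]
        have := le_max_right (cmax (sh w) 0 (i + 1 + 1) 0 j) (cmax (sh w) 0 (i + 1) 0 (j + 1))
        omega
      · refine ⟨i, j + 1, by simp, ?_⟩
        rw [cmax_rec _ _ _ _ _ (Nat.zero_le _) (Nat.zero_le _), sh_succ]
        have e1 : ((i : ℤ), (j : ℤ)) + (0, 1) = ((i : ℤ), ((j + 1 : ℕ) : ℤ)) := by simp
        rw [e1]
        have := le_max_left (cmax (sh w) 0 (i + 1) 0 (j + 1)) (cmax (sh w) 0 i 0 (j + 1 + 1))
        omega

theorem passageTime_eq (w : ℤ × ℤ → ℕ) (n : ℕ) :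
    passageTime w (0, 0) ((n : ℤ), (n : ℤ)) =
      Tch (fun v : Fin (n + 1) × Fin (n + 1) => w ((v.1.1 : ℤ), (v.2.1 : ℤ))) := by
  have h1 : passageTime w (0, 0) ((n : ℤ), (n : ℤ)) = cmax (sh w) 0 (n + 1) 0 (n + 1) := by
    refine IsGreatest.csSup_eq ⟨?_, ?_⟩
    · obtain ⟨γ, h1, h2⟩ := exists_path w (n + n) n n rfl
      exact ⟨γ, h1, h2.symm⟩
    · rintro s ⟨γ, h, rfl⟩
      obtain ⟨i, j, h2, h3⟩ := path_le w γ _ h
      simp only [Prod.mk.injEq, Nat.cast_inj] at h2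
      obtain ⟨rfl, rfl⟩ := h2
      exact h3
  rw [h1, Tch_eq_cmax]
  refine cmax_congr fun p hp => ?_
  simp only [mem_product, mem_Ioc] at hp
  have h2 : p = ((p.1 - 1) + 1, (p.2 - 1) + 1) := Prod.ext (by simp only; omega) (by simp only; omega)
  rw [h2, sh_succ]
  exact (WA_succ (fun v : Fin (n + 1) × Fin (n + 1) => w ((v.1.1 : ℤ), (v.2.1 : ℤ)))
    (⟨p.1 - 1, by omega⟩, ⟨p.2 - 1, by omega⟩)).symm

end Pool.Agent.Work.MP_2c6138_pr.Nat
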